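import Pool.Agent.Y171.CG.Model

/-!
# Cryptogenography (MP_5b9e43_lc): the extremal sequence and the two bounds

For a sequence `g` of positive numbers and `u ∈ [0,1]^k` put
`K g u = max over 2 ≤ r ≤ k of g r / u_(r)`, where `u_(r)` is the `r`-th smallest coordinate of
`u`.  Equivalently it is the maximum over the sets `A` of at least two coordinates of
`g |A| / max_{i ∈ A} u i`, which is the form used below (for `k < 2` the value is `0`).
-/

open MeasureTheory

namespace Pool.Agent.Y171.CG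

/-- The uniform distribution on `[0, 1]^k`. -/
noncomputable def unif (k : ℕ) : Measure (Fin k → ℝ) :=
  Measure.pi fun _ => volume.restrict (Set.Icc (0 : ℝ) 1)

/-- The maximum over the sets `A` of at least two coordinates of `g |A| / max_{i ∈ A} u i`. -/
noncomputable def K {k : ℕ} (g : ℕ → ℝ) (u : Fin k → ℝ) : ℝ :=
  ⨆ A : {A : Finset (Fin k) // 2 ≤ A.card}, g A.1.card / ⨆ i : A.1, u i

/-- The extremal sequences: `g` is positive and nondecreasing on the integers `r ≥ 2` and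
`E (K g u) = n - 1` for `u` uniform in `[0,1]^n`, for all `n ≥ 2`. -/
def Extremal (g : ℕ → ℝ) : Prop :=
  (∀ r, 2 ≤ r → 0 < g r) ∧ (∀ r t, 2 ≤ r → r ≤ t → g r ≤ g t) ∧
    ∀ n : ℕ, 2 ≤ n → ∫ u, K g u ∂(unif n) = (n : ℝ) - 1

/-- `E max (K g u, K g v) / (2 k)` for `u`, `v` independent and uniform in `[0,1]^k`. -/
noncomputable def lowB (g : ℕ → ℝ) (k : ℕ) : ℝ :=
  (∫ p : (Fin k → ℝ) × (Fin k → ℝ), max (K g p.1) (K g p.2) ∂((unif k).prod (unif k))) /
    (2 * (k : ℝ))

/-- `E max (K g u, K g (1 - u)) / (2 k)` for `u` uniform in `[0,1]^k`. -/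
noncomputable def uppB (g : ℕ → ℝ) (k : ℕ) : ℝ :=
  (∫ u : Fin k → ℝ, max (K g u) (K g (fun i => 1 - u i)) ∂(unif k)) / (2 * (k : ℝ))

end Pool.Agent.Y171.CG
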