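import Pool.Agent.Y171.CG.Stm
import Pool.Agent.Y171.CG.Def

/-!
# Cryptogenography (MP_5b9e43_lc): layer cake formulas and uniqueness, statements
-/

open MeasureTheory Finset Set Filter Topology

namespace Pool.Agent.Y171.CG

/-- Layer cake formulas. -/
def S_LCJ : Prop := ∀ (g : ℕ → ℝ) (n : ℕ), (∀ r, 2 ≤ r → 0 < g r) →
  Integrable (fun u : Fin n → ℝ => K g u) (unif n) ∧ ∫ u, K g u ∂(unif n) = J g n

def S_LCW : Prop := ∀ (g : ℕ → ℝ) (k : ℕ), (∀ r, 2 ≤ r → 0 < g r) → 0 < k →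
  lowB g k = W g k ∧ uppB g k = Wa g k

/-- Uniqueness of the sequence. -/
def S_UNI : Prop := ∀ g g' : ℕ → ℝ, GoodSeq g → GoodSeq g' → ∀ r, 2 ≤ r → g r = g' r

end Pool.Agent.Y171.CG
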