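import Pool.Agent.Y171.CG.Main
import Pool.Agent.Y171.CG.Stm3

/-!
# Cryptogenography: uniqueness of the extremal sequence
-/

open MeasureTheory Finset Filter Topology

namespace Pool.Agent.Y171.CG

theorem F_pos {g : ℕ → ℝ} {m : ℕ} {z c : ℝ} (hz : 0 < z) (hc0 : 0 ≤ c) (hc1 : c < 1)
    (h : ∀ r, 2 ≤ r → r ≤ m → g r ≤ c * z) : 0 < F g m z := by
  have hsub : Set.pi Set.univ (fun _ : Fin m => Set.Ici c) ⊆
      {u : Fin m → ℝ | ¬ Hit g (fun _ => 1) z u} := by
    intro u hu
    rintro ⟨r, hr2, hr⟩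
    have hle : cnt (fun i => g r * (fun _ : Fin m => (1 : ℝ)) i) z u ≤ m := by
      unfold cnt
      exact (Finset.card_le_univ _).trans (by simp)
    have h0 : cnt (fun i => g r * (fun _ : Fin m => (1 : ℝ)) i) z u = 0 := by
      unfold cnt
      rw [Finset.card_eq_zero, Finset.filter_eq_empty_iff]
      intro i _
      have h1 : c ≤ u i := hu i (Set.mem_univ i)
      have h2 := h r hr2 (hr.trans hle)
      have h3 : c * z ≤ u i * z := mul_le_mul_of_nonneg_right h1 hz.le
      show ¬ u i * z < g r * 1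
      rw [mul_one, not_lt]
      linarith
    omega
  have hpos : 0 < (cube m).real (Set.pi Set.univ (fun _ : Fin m => Set.Ici c)) := by
    rw [measureReal_def, cube, Measure.pi_pi, ENNReal.toReal_prod]
    apply Finset.prod_pos
    intro i _
    have h1 : nu (Set.Ici c) = ENNReal.ofReal (1 - c) := by
      rw [nu, Measure.restrict_apply measurableSet_Ici]
      have : Set.Ici c ∩ Set.Icc (0 : ℝ) 1 = Set.Icc c 1 := by
        ext t
        simp only [Set.mem_inter_iff, Set.mem_Ici, Set.mem_Icc]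
        constructor
        · rintro ⟨a, b, d⟩; exact ⟨a, d⟩
        · rintro ⟨a, b⟩; exact ⟨a, by linarith, b⟩
      rw [this, Real.volume_Icc]
    rw [h1, ENNReal.toReal_ofReal (by linarith)]
    linarith
  exact hpos.trans_le (measureReal_mono hsub (measure_ne_top _ _))

theorem not_lt_of_good {g g' : ℕ → ℝ} (hg : GoodSeq g) (hg' : GoodSeq g') {n : ℕ} (hn : 2 ≤ n)
    (h : ∀ r, 2 ≤ r → r < n → g r = g' r) : ¬ g n < g' n := by
  intro hlt
  have hM := Y563.CG.Fb.mef
  have hT := Y563.CG.Fb.tai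
  have hF : F g (n - 1) = F g' (n - 1) :=
    Y563.CG.Exi.F_congr Y563.CG.Fb.mog fun r h2 hr => h r h2 (by omega)
  have e1 := f_REC g n hn (fun r h2 _ => hg.1 r h2) (fun r h2 hr => hg.2.1 r n h2 hr)
  have e2 := f_REC g' n hn (fun r h2 _ => hg'.1 r h2) (fun r h2 hr => hg'.2.1 r n h2 hr)
  rw [hg.2.2 n hn] at e1
  rw [hg'.2.2 n hn, ← hF] at e2
  have hn0 : (0 : ℝ) < (n : ℝ) / ((n : ℝ) - 1) := by
    have : (2 : ℝ) ≤ n := by exact_mod_cast hn
    apply div_pos <;> linarith
  have e3 : g n + ∫ z in Set.Ioi (g n), (1 - F g (n - 1) z) =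
      g' n + ∫ z in Set.Ioi (g' n), (1 - F g (n - 1) z) :=
    mul_left_cancel₀ hn0.ne' (e1.symm.trans e2)
  have hgn : 0 < g n := hg.1 n hn
  have hI : IntegrableOn (fun z => 1 - F g (n - 1) z) (Set.Ioi 0) :=
    Y367.CG.intB hM hT (Y367.CG.lbd_good hg) (n - 1)
  have hI1 : IntegrableOn (fun z => 1 - F g (n - 1) z) (Set.Ioc (g n) (g' n)) :=
    hI.mono_set fun z hz => lt_trans hgn hz.1
  have hI2 : IntegrableOn (fun z => 1 - F g (n - 1) z) (Set.Ioi (g' n)) :=
    hI.mono_set fun z (hz : g' n < z) => lt_trans (hgn.trans hlt) hz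
  have e4 : ∫ z in Set.Ioi (g n), (1 - F g (n - 1) z) =
      (∫ z in Set.Ioc (g n) (g' n), (1 - F g (n - 1) z)) +
        ∫ z in Set.Ioi (g' n), (1 - F g (n - 1) z) := by
    rw [← Set.Ioc_union_Ioi_eq_Ioi hlt.le]
    exact setIntegral_union (Set.Ioc_disjoint_Ioi le_rfl) measurableSet_Ioi hI1 hI2
  have hfin : volume (Set.Ioc (g n) (g' n)) ≠ ⊤ := by simp
  have hc : IntegrableOn (fun _ : ℝ => (1 : ℝ)) (Set.Ioc (g n) (g' n)) :=
    integrableOn_const hfin
  have hIF : IntegrableOn (fun z => F g (n - 1) z) (Set.Ioc (g n) (g' n)) := by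
    have := hc.sub hI1
    refine this.congr_fun ?_ measurableSet_Ioc
    intro z _
    show (1 : ℝ) - (1 - F g (n - 1) z) = F g (n - 1) z
    ring
  have e5 : ∫ z in Set.Ioc (g n) (g' n), (1 - F g (n - 1) z) =
      (g' n - g n) - ∫ z in Set.Ioc (g n) (g' n), F g (n - 1) z := by
    rw [integral_sub hc hIF]
    congr 1
    rw [setIntegral_const, smul_eq_mul, mul_one, measureReal_def, Real.volume_Ioc,
      ENNReal.toReal_ofReal (by linarith)]
  have e6 : ∫ z in Set.Ioc (g n) (g' n), F g (n - 1) z = 0 := by linarith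
  have hpos : 0 < ∫ z in Set.Ioc (g n) (g' n), F g (n - 1) z := by
    rw [setIntegral_pos_iff_support_of_nonneg_ae
      (Filter.Eventually.of_forall fun z => F_nonneg g (n - 1) z) hIF]
    have hsub : Set.Ioc (g n) (g' n) ⊆
        Function.support (fun z => F g (n - 1) z) ∩ Set.Ioc (g n) (g' n) := by
      intro z hz
      refine ⟨?_, hz⟩
      have hz0 : 0 < z := hgn.trans hz.1
      have : 0 < F g (n - 1) z := by
        apply F_pos hz0 (c := g n / z) (by positivity) ((div_lt_one hz0).2 hz.1)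
        intro r h2 hr
        rw [div_mul_cancel₀ _ hz0.ne']
        exact hg.2.1 r n h2 (by omega)
      exact this.ne'
    refine lt_of_lt_of_le ?_ (measure_mono hsub)
    rw [Real.volume_Ioc]
    exact ENNReal.ofReal_pos.2 (by linarith)
  linarith

/-- Uniqueness of the sequence. -/
theorem f_UNI : S_UNI := by
  intro g g' hg hg' r
  induction r using Nat.strong_induction_on with
  | _ n ih =>
    intro hn
    have h1 := not_lt_of_good hg hg' hn fun r h2 hr => ih r hr h2
    have h2 := not_lt_of_good hg' hg hn fun r h2 hr => (ih r hr h2).symm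
    exact le_antisymm (not_lt.1 h2) (not_lt.1 h1)

end Pool.Agent.Y171.CG
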