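import Pool.Agent.Y171.CG.Stm

/-!
# One coordinate of the cube at a time
-/

open MeasureTheory Finset Set Filter Topology

namespace Pool.Agent.Y171.CG

instance : IsProbabilityMeasure nu := by
  constructor
  unfold nu
  simp

instance (k : ℕ) : IsProbabilityMeasure (cube k) := by
  unfold cube; infer_instance

/-- Integrating the coordinate `i` first (`f` measurable). -/
theorem lintegral_coord {ι : Type*} [Fintype ι] [DecidableEq ι] {X : ι → Type*}
    [∀ i, MeasurableSpace (X i)] (μ : ∀ i, Measure (X i)) [∀ i, IsProbabilityMeasure (μ i)]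
    (f : (∀ i, X i) → ENNReal) (hf : Measurable f) (i : ι) :
    ∫⁻ x, f x ∂Measure.pi μ =
      ∫⁻ x, ∫⁻ t, f (Function.update x i t) ∂μ i ∂Measure.pi μ := by
  have hne : Nonempty (∀ i, X i) := by
    by_contra h
    rw [not_nonempty_iff] at h
    have h1 : (Measure.pi μ) Set.univ = 1 := measure_univ
    rw [Set.eq_empty_of_isEmpty (Set.univ : Set (∀ i, X i))] at h1
    simp at h1
  obtain ⟨x0⟩ := hne
  have hg : Measurable (fun x : (∀ i, X i) => ∫⁻ t, f (Function.update x i t) ∂μ i) := by
    apply Measurable.lintegral_prod_right'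
      (f := fun p : (∀ i, X i) × X i => f (Function.update p.1 i p.2))
    exact hf.comp measurable_update'
  rw [lintegral_eq_lmarginal_univ x0, lintegral_eq_lmarginal_univ x0]
  rw [← Finset.insert_erase (Finset.mem_univ i)]
  rw [lmarginal_insert' f hf (Finset.notMem_erase i _),
    lmarginal_insert' _ hg (Finset.notMem_erase i _)]
  congr 1
  funext x
  simp

/-- The measure of an event, one coordinate at a time. -/
theorem measure_coord {k : ℕ} (E : Set (Fin k → ℝ)) (hE : MeasurableSet E) (i : Fin k) :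
    cube k E = ∫⁻ x, nu {t | Function.update x i t ∈ E} ∂cube k := by
  have h := lintegral_coord (fun _ : Fin k => nu) (E.indicator fun _ => 1)
    (measurable_const.indicator hE) i
  rw [lintegral_indicator_const hE, one_mul] at h
  unfold cube
  rw [h]
  apply lintegral_congr
  intro x
  have hm : MeasurableSet {t : ℝ | Function.update x i t ∈ E} := hE.preimage (measurable_update x)
  rw [← one_mul (nu {t | Function.update x i t ∈ E}), ← lintegral_indicator_const hm]
  rfl

theorem measurable_cnt {k : ℕ} (c : Fin k → ℝ) (z : ℝ) : Measurable (cnt c z) := by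
  have : cnt c z = fun u : Fin k → ℝ => ∑ i, if u i * z < c i then 1 else 0 := by
    funext u
    unfold cnt
    rw [Finset.card_filter]
  rw [this]
  apply Finset.measurable_sum
  intro i _
  have hm : Measurable fun u : Fin k → ℝ => u i * z := by fun_prop
  exact Measurable.ite (measurableSet_lt hm measurable_const) measurable_const measurable_const

theorem measurableSet_hit {k : ℕ} (g : ℕ → ℝ) (v : Fin k → ℝ) (z : ℝ) :
    MeasurableSet {u | Hit g v z u} := by
  have : {u | Hit g v z u} = ⋃ r : ℕ, {u | 2 ≤ r ∧ r ≤ cnt (fun i => g r * v i) z u} := by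
    ext u
    simp [Hit]
  rw [this]
  refine MeasurableSet.iUnion fun r => ?_
  by_cases h : 2 ≤ r
  · simp only [h, true_and]
    exact measurableSet_le measurable_const (measurable_cnt _ _)
  · simp [h]

theorem measurableSet_hitR {k : ℕ} (g : ℕ → ℝ) (v : Fin k → ℝ) (z : ℝ) :
    MeasurableSet {u : Fin k → ℝ | Hit g v z (fun i => 1 - u i)} := by
  have hm : Measurable (fun u : Fin k → ℝ => fun i => 1 - u i) := by fun_prop
  exact hm (measurableSet_hit g v z)

theorem F_nonneg (g : ℕ → ℝ) (n : ℕ) (z : ℝ) : 0 ≤ F g n z := measureReal_nonneg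

theorem F_le_one (g : ℕ → ℝ) (n : ℕ) (z : ℝ) : F g n z ≤ 1 := by
  unfold F
  exact measureReal_le_one

theorem B_nonneg {k : ℕ} (g : ℕ → ℝ) (m : Bool → Fin k → ℝ) (z : ℝ) : 0 ≤ B g m z :=
  measureReal_nonneg

theorem B_le_one {k : ℕ} (g : ℕ → ℝ) (m : Bool → Fin k → ℝ) (z : ℝ) : B g m z ≤ 1 := by
  unfold B
  exact measureReal_le_one

theorem cnt_le {k : ℕ} (c : Fin k → ℝ) (z : ℝ) (u : Fin k → ℝ) : cnt c z u ≤ k := by
  unfold cnt
  exact (Finset.card_filter_le _ _).trans (by simp)

theorem cnt_mono {k : ℕ} {c c' : Fin k → ℝ} (h : ∀ i, c i ≤ c' i) (z : ℝ) (u : Fin k → ℝ) :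
    cnt c z u ≤ cnt c' z u := by
  unfold cnt
  apply Finset.card_le_card
  intro i hi
  simp only [Finset.mem_filter, Finset.mem_univ, true_and] at hi ⊢
  exact hi.trans_le (h i)

theorem hit_mono {k : ℕ} {g : ℕ → ℝ} (hg : ∀ r, 2 ≤ r → 0 ≤ g r) {v v' : Fin k → ℝ}
    (h : ∀ i, v i ≤ v' i) (z : ℝ) (u : Fin k → ℝ) (hu : Hit g v z u) : Hit g v' z u := by
  obtain ⟨r, hr, hr'⟩ := hu
  exact ⟨r, hr, hr'.trans (cnt_mono (fun i => mul_le_mul_of_nonneg_left (h i) (hg r hr)) z u)⟩

theorem B_mono {k : ℕ} {g : ℕ → ℝ} (hg : ∀ r, 2 ≤ r → 0 ≤ g r) {m m' : Bool → Fin k → ℝ}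
    (h : ∀ x i, m x i ≤ m' x i) (z : ℝ) : B g m z ≤ B g m' z := by
  unfold B
  refine measureReal_mono ?_ (measure_ne_top _ _)
  rintro u (hu | hu)
  · exact Or.inl (hit_mono hg (h false) z u hu)
  · exact Or.inr (hit_mono hg (h true) z _ hu)

theorem B_scale {k : ℕ} (g : ℕ → ℝ) (m : Bool → Fin k → ℝ) (z c : ℝ) (hc : 0 < c) :
    B g (fun x i => c * m x i) (c * z) = B g m z := by
  have key : ∀ (v : Fin k → ℝ) (u : Fin k → ℝ),
      Hit g (fun i => c * v i) (c * z) u ↔ Hit g v z u := by
    intro v u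
    unfold Hit cnt
    have : ∀ r : ℕ, (univ.filter fun i => u i * (c * z) < g r * (c * v i)) =
        univ.filter fun i => u i * z < g r * v i := by
      intro r
      apply Finset.filter_congr
      intro i _
      constructor
      · intro h
        have h' : c * (u i * z) < c * (g r * v i) := by linarith
        exact lt_of_mul_lt_mul_left h' hc.le
      · intro h
        have := mul_lt_mul_of_pos_left h hc
        linarith
    simp only [this]
  unfold B
  congr 1
  ext u
  simp only [Set.mem_ofPred_eq, key]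

end Pool.Agent.Y171.CG
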