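import Pool.Agent.Y171.CG.Upper

/-!
# Symmetric multi-affine certificates

`a + ∑_x ∑_T c |T| ∏_{i ∈ T} m x i` is a certificate as soon as
`(n - 1) t ≤ a + ∑_r C(n, r) c_r t ^ r` for all `n ≤ k` and `t ≥ 0`.
-/

open Finset

namespace Pool.Agent.Y171.CG

/-- `∑_T c |T| ∏_{i ∈ T} v i`, the sum over all sets of players. -/
noncomputable def poly {k : ℕ} (c : ℕ → ℝ) (v : Fin k → ℝ) : ℝ :=
  ∑ T : Finset (Fin k), c T.card * ∏ i ∈ T, v i

theorem prod_ite_mem {k : ℕ} (v : Fin k → ℝ) (i : Fin k) (y : ℝ) (T : Finset (Fin k)) (h : i ∈ T) :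
    ∏ j ∈ T, (if j = i then y else v j) = y * ∏ j ∈ T.erase i, v j := by
  rw [← Finset.mul_prod_erase T _ h, if_pos rfl]
  congr 1
  exact Finset.prod_congr rfl fun j hj => if_neg (Finset.ne_of_mem_erase hj)

theorem prod_ite_notMem {k : ℕ} (v : Fin k → ℝ) (i : Fin k) (y : ℝ) (T : Finset (Fin k))
    (h : i ∉ T) : ∏ j ∈ T, (if j = i then y else v j) = ∏ j ∈ T, v j := by
  apply Finset.prod_congr rfl
  intro j hj
  rw [if_neg]
  rintro rfl
  exact h hj

theorem poly_update {k : ℕ} (c : ℕ → ℝ) (v : Fin k → ℝ) (i : Fin k) (y : ℝ) :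
    poly c (fun j => if j = i then y else v j) =
      (∑ T : Finset (Fin k), if i ∈ T then 0 else c T.card * ∏ j ∈ T, v j) +
      (∑ T : Finset (Fin k), if i ∈ T then c T.card * ∏ j ∈ T.erase i, v j else 0) * y := by
  unfold poly
  rw [Finset.sum_mul, ← Finset.sum_add_distrib]
  apply Finset.sum_congr rfl
  intro T _
  by_cases h : i ∈ T
  · rw [prod_ite_mem v i y T h, if_pos h, if_pos h]
    ring
  · rw [prod_ite_notMem v i y T h, if_neg h, if_neg h]
    ring

theorem poly_vertex {k : ℕ} (c : ℕ → ℝ) (M : ℝ) (S : Finset (Fin k)) :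
    poly c (fun i => if i ∈ S then M else 0) =
      ∑ r ∈ range (S.card + 1), (S.card.choose r : ℝ) * (c r * M ^ r) := by
  have h1 : poly c (fun i => if i ∈ S then M else 0) =
      ∑ T ∈ S.powerset, c T.card * M ^ T.card := by
    unfold poly
    rw [← Finset.sum_subset (Finset.subset_univ S.powerset)]
    · apply Finset.sum_congr rfl
      intro T hT
      congr 1
      rw [Finset.mem_powerset] at hT
      rw [Finset.prod_congr rfl fun i hi => if_pos (hT hi)]
      simp
    · intro T _ hT
      rw [Finset.mem_powerset, Finset.not_subset] at hT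
      obtain ⟨i, hi, hiS⟩ := hT
      rw [Finset.prod_eq_zero hi (if_neg hiS), mul_zero]
  rw [h1, Finset.sum_powerset_apply_card (fun r => c r * M ^ r)]
  simp [nsmul_eq_mul]

theorem dom_box {k : ℕ} (a : ℝ) (c : ℕ → ℝ) (M : ℝ) (hM : 0 ≤ M)
    (hdom : ∀ n ≤ k, ∀ t : ℝ, 0 ≤ t →
      ((n : ℝ) - 1) * t ≤ a + ∑ r ∈ range (n + 1), (n.choose r : ℝ) * (c r * t ^ r)) :
    ∀ (Z : Finset (Fin k)) (v : Fin k → ℝ), (∀ i, 0 ≤ v i ∧ v i ≤ M) →
      (∀ i, i ∉ Z → v i = 0 ∨ v i = M) → ∑ i, v i - M ≤ a + poly c v := by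
  intro Z
  induction Z using Finset.induction_on with
  | empty =>
    intro v _ hvert
    have hv : v = fun i => if i ∈ (univ.filter fun i => v i = M) then M else 0 := by
      funext i
      by_cases h : v i = M
      · simp [h]
      · rcases hvert i (Finset.notMem_empty i) with h0 | h0
        · simp [h0]
        · exact absurd h0 h
    set S : Finset (Fin k) := univ.filter fun i => v i = M with hS
    have hcard : S.card ≤ k := by
      simpa using Finset.card_le_univ S
    have h1 := hdom S.card hcard M hM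
    rw [hv, poly_vertex]
    have h2 : ∑ i : Fin k, (if i ∈ S then M else 0) = S.card * M := by
      rw [Finset.sum_ite_mem]
      simp
    rw [h2]
    linarith
  | insert i Z hi ih =>
    intro v hv hvert
    rcases hM.eq_or_lt with h0 | hpos
    · apply ih v hv
      intro j _
      left
      have := hv j
      rw [← h0] at this
      linarith [this.1, this.2]
    · have e0 := ih (fun j => if j = i then 0 else v j) (by
        intro j
        by_cases h : j = i
        · simp [h, hM]
        · simpa [h] using hv j) (by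
        intro j hj
        by_cases h : j = i
        · simp [h]
        · simpa [h] using hvert j (by simp [h, hj]))
      have e1 := ih (fun j => if j = i then M else v j) (by
        intro j
        by_cases h : j = i
        · simp [h, hM]
        · simpa [h] using hv j) (by
        intro j hj
        by_cases h : j = i
        · simp [h]
        · simpa [h] using hvert j (by simp [h, hj]))
      have hvi : v = fun j => if j = i then v i else v j := by
        funext j
        by_cases h : j = i
        · subst h; simp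
        · simp [h]
      have hsum : ∀ y, ∑ j, (if j = i then y else v j) = y + ∑ j ∈ univ.erase i, v j := by
        intro y
        rw [← Finset.add_sum_erase univ _ (mem_univ i), if_pos rfl]
        congr 1
        exact Finset.sum_congr rfl fun j hj => if_neg (Finset.ne_of_mem_erase hj)
      rw [poly_update, hsum] at e0 e1
      have goal' : ∑ j, (if j = i then v i else v j) - M ≤
          a + poly c (fun j => if j = i then v i else v j) := by
        rw [poly_update, hsum]
        set X := ∑ j ∈ univ.erase i, v j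
        set P := ∑ T : Finset (Fin k), if i ∈ T then 0 else c T.card * ∏ j ∈ T, v j
        set Q := ∑ T : Finset (Fin k), if i ∈ T then c T.card * ∏ j ∈ T.erase i, v j else 0
        have hy0 := (hv i).1
        have hy1 := (hv i).2
        have h3 : 0 ≤ (v i) * ((a + (P + Q * M)) - (M + X - M)) := mul_nonneg hy0 (by linarith)
        have h4 : 0 ≤ (M - v i) * ((a + (P + Q * 0)) - (0 + X - M)) :=
          mul_nonneg (by linarith) (by linarith)
        have h5 : 0 ≤ M * (a + (P + Q * v i) - (v i + X - M)) := by nlinarith [h3, h4]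
        have h6 := nonneg_of_mul_nonneg_right h5 hpos
        linarith
      rw [← hvi] at goal'
      exact goal'

/-- The certificate. -/
theorem isCert {k : ℕ} (hk : 0 < k) (a : ℝ) (c : ℕ → ℝ) (ha : 0 ≤ a) (hc : ∀ r, 0 ≤ c r)
    (hdom : ∀ n ≤ k, ∀ t : ℝ, 0 ≤ t →
      ((n : ℝ) - 1) * t ≤ a + ∑ r ∈ range (n + 1), (n.choose r : ℝ) * (c r * t ^ r)) :
    IsCert (fun m : Bool → Fin k → ℝ => a + ∑ x, poly c (m x)) := by
  refine ⟨?_, ?_⟩
  · intro m hm i
    refine ⟨a + ∑ x : Bool, ∑ T : Finset (Fin k), (if i ∈ T then 0 else c T.card * ∏ j ∈ T, m x j),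
      fun x => ∑ T : Finset (Fin k), (if i ∈ T then c T.card * ∏ j ∈ T.erase i, m x j else 0),
      ?_, ?_, ?_⟩
    · refine add_nonneg ha (Finset.sum_nonneg fun x _ => Finset.sum_nonneg fun T _ => ?_)
      split_ifs
      · exact le_rfl
      · exact mul_nonneg (hc _) (Finset.prod_nonneg fun j _ => hm x j)
    · intro x
      refine Finset.sum_nonneg fun T _ => ?_
      split_ifs
      · exact mul_nonneg (hc _) (Finset.prod_nonneg fun j _ => hm x j)
      · exact le_rfl
    · intro y
      simp only [poly_update]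
      rw [Finset.sum_add_distrib, add_assoc]
  · intro m hm x
    have : Nonempty (Fin k) := ⟨⟨0, hk⟩⟩
    obtain ⟨j, _, hj⟩ := Finset.exists_max_image (univ : Finset (Fin k)) (m x) univ_nonempty
    refine ⟨j, ?_⟩
    have h1 := dom_box a c (m x j) (hm x j) hdom univ (m x)
      (fun i => ⟨hm x i, hj i (mem_univ i)⟩) (fun i hi => absurd (mem_univ i) hi)
    have h2 : poly c (m x) ≤ ∑ x, poly c (m x) := by
      apply Finset.single_le_sum (f := fun x => poly c (m x)) _ (mem_univ x)
      intro z _
      exact Finset.sum_nonneg fun T _ => mul_nonneg (hc _) (Finset.prod_nonneg fun i _ => hm z i)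
    linarith

theorem poly_const {k : ℕ} (c : ℕ → ℝ) (y : ℝ) :
    poly c (fun _ : Fin k => y) = ∑ r ∈ range (k + 1), (k.choose r : ℝ) * (c r * y ^ r) := by
  have := poly_vertex c y (univ : Finset (Fin k))
  simpa using this

/-- **The certificate bound.** -/
theorem s_le_of_dom {k : ℕ} (hk : 0 < k) (a : ℝ) (c : ℕ → ℝ) (ha : 0 ≤ a) (hc : ∀ r, 0 ≤ c r)
    (hdom : ∀ n ≤ k, ∀ t : ℝ, 0 ≤ t →
      ((n : ℝ) - 1) * t ≤ a + ∑ r ∈ range (n + 1), (n.choose r : ℝ) * (c r * t ^ r)) :
    s k ≤ a + 2 * ∑ r ∈ range (k + 1), (k.choose r : ℝ) * (c r * (1 / (2 * (k : ℝ))) ^ r) := by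
  have h := s_le (isCert hk a c ha hc hdom) hk
  simp only [poly_const] at h
  simpa [two_mul] using h

end Pool.Agent.Y171.CG
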