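import Pool.Agent.Y171.CG.Pot

/-!
# Lower bounds: strategies from splitting rules
-/

open MeasureTheory Finset Set Filter Topology

namespace Pool.Agent.Y171.CG

/-- `Ach m v`: from the state `m` the players can guarantee `v`. -/
inductive Ach {k : ℕ} : (Bool → Fin k → ℝ) → ℝ → Prop
  | stop (m : Bool → Fin k → ℝ) (x : Bool) (v : ℝ) (h : ∀ j, v ≤ ∑ i, m x i - m x j) : Ach m v
  | split (m : Bool → Fin k → ℝ) (i : Fin k) (p : Option Bool → ℝ) (hp0 : ∀ w, 0 ≤ p w)
      (hp1 : ∀ w, p w ≤ 1) (v v1 v0 : ℝ)
      (h1 : Ach (fun x j => p (know x j i) * m x j) v1)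
      (h0 : Ach (fun x j => (1 - p (know x j i)) * m x j) v0)
      (hv : v ≤ v1 + v0) : Ach m v

section

variable {k : ℕ}

theorem Ach.mono {m : Bool → Fin k → ℝ} {v v' : ℝ} (h : Ach m v) (hv : v' ≤ v) : Ach m v' := by
  cases h with
  | stop _ x _ h => exact Ach.stop m x v' fun j => hv.trans (h j)
  | split _ i p hp0 hp1 _ v1 v0 h1 h0 h => exact Ach.split m i p hp0 hp1 v' v1 v0 h1 h0 (hv.trans h)

theorem Ach.smul {m : Bool → Fin k → ℝ} {v : ℝ} (h : Ach m v) {c : ℝ} (hc : 0 ≤ c) :
    Ach (fun x j => c * m x j) (c * v) := by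
  induction h with
  | stop m x v h =>
    refine Ach.stop _ x _ fun j => ?_
    rw [← Finset.mul_sum, ← mul_sub]
    exact mul_le_mul_of_nonneg_left (h j) hc
  | split m i p hp0 hp1 v v1 v0 _ _ hv ih1 ih0 =>
    refine Ach.split _ i p hp0 hp1 _ (c * v1) (c * v0) ?_ ?_ ?_
    · have : (fun x j => p (know x j i) * (c * m x j)) =
          fun (x : Bool) (j : Fin k) => c * (p (know x j i) * m x j) := by
        funext x j; ring
      rw [this]
      exact ih1
    · have : (fun x j => (1 - p (know x j i)) * (c * m x j)) =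
          fun (x : Bool) (j : Fin k) => c * ((1 - p (know x j i)) * m x j) := by
        funext x j; ring
      rw [this]
      exact ih0
    · rw [← mul_add]
      exact mul_le_mul_of_nonneg_left hv hc

/-- The value is at most the total mass. -/
theorem Ach.le_sum {m : Bool → Fin k → ℝ} {v : ℝ} (h : Ach m v) (hm : ∀ x j, 0 ≤ m x j)
    (hk : 0 < k) : v ≤ ∑ x, ∑ j, m x j := by
  induction h with
  | stop m x v h =>
    have h1 := h ⟨0, hk⟩
    have h2 := hm x ⟨0, hk⟩
    have h3 := Finset.single_le_sum (f := fun x => ∑ j, m x j)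
      (fun x _ => Finset.sum_nonneg fun j _ => hm x j) (mem_univ x)
    linarith
  | split m i p hp0 hp1 v v1 v0 _ _ hv ih1 ih0 =>
    have e1 := ih1 (fun x j => mul_nonneg (hp0 _) (hm x j))
    have e0 := ih0 (fun x j => mul_nonneg (by linarith [hp1 (know x j i)]) (hm x j))
    refine hv.trans ((add_le_add e1 e0).trans (le_of_eq ?_))
    rw [← Finset.sum_add_distrib]
    apply Finset.sum_congr rfl
    intro x _
    rw [← Finset.sum_add_distrib]
    apply Finset.sum_congr rfl
    intro j _
    ring

/-- The two types may be exchanged. -/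
theorem Ach.swap {m : Bool → Fin k → ℝ} {v : ℝ} (h : Ach m v) : Ach (fun x => m (!x)) v := by
  induction h with
  | stop m x v h => exact Ach.stop _ (!x) _ fun j => by simpa using h j
  | split m i p hp0 hp1 v v1 v0 _ _ hv ih1 ih0 =>
    refine Ach.split _ i (fun w => p (w.map not)) (fun w => hp0 _) (fun w => hp1 _) v v1 v0
      ?_ ?_ hv
    · convert ih1 using 1
      funext x j
      congr 2
      unfold know
      split_ifs <;> simp
    · convert ih0 using 1
      funext x j
      congr 3
      unfold know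
      split_ifs <;> simp

end

end Pool.Agent.Y171.CG
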