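import Pool.Agent.Y171.CG.Pot

/-!
# The antithetic potential
-/

open MeasureTheory Finset Set Filter Topology

namespace Pool.Agent.Y171.CG

/-- A bounded measurable function with a quadratic tail is integrable on `(0, ∞)`. -/
theorem integrableOn_of_tail {f : ℝ → ℝ} (hm : Measurable f) (C : ℝ)
    (h0 : ∀ z, 0 < z → 0 ≤ f z) (h1 : ∀ z, 0 < z → f z ≤ 1)
    (h2 : ∀ z, 0 < z → f z ≤ C / z ^ 2) : IntegrableOn f (Set.Ioi 0) := by
  have hsplit : Set.Ioi (0 : ℝ) = Set.Ioc 0 1 ∪ Set.Ioi 1 := by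
    ext z
    simp only [Set.mem_Ioi, Set.mem_union, Set.mem_Ioc]
    constructor
    · intro h
      rcases le_or_gt z 1 with h' | h'
      · exact Or.inl ⟨h, h'⟩
      · exact Or.inr h'
    · rintro (h | h)
      · exact h.1
      · linarith
  rw [hsplit]
  apply IntegrableOn.union
  · refine Measure.integrableOn_of_bounded (M := 1) ?_ hm.aestronglyMeasurable ?_
    · simp
    · rw [ae_restrict_iff' measurableSet_Ioc]
      refine ae_of_all _ fun z hz => ?_
      rw [Real.norm_eq_abs, abs_of_nonneg (h0 z hz.1)]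
      exact h1 z hz.1
  · have hC : IntegrableOn (fun z : ℝ => C * z ^ (-2 : ℝ)) (Set.Ioi 1) :=
      (integrableOn_Ioi_rpow_of_lt (by norm_num) one_pos).const_mul C
    refine Integrable.mono' hC hm.aestronglyMeasurable ?_
    rw [ae_restrict_iff' measurableSet_Ioi]
    refine ae_of_all _ fun z hz => ?_
    have hz0 : (0 : ℝ) < z := lt_trans one_pos hz
    rw [Real.norm_eq_abs, abs_of_nonneg (h0 z hz0)]
    refine (h2 z hz0).trans (le_of_eq ?_)
    rw [Real.rpow_neg hz0.le, div_eq_mul_inv]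
    norm_cast

/-- A bound for finitely many terms. -/
theorem exists_bound (f : ℕ → ℝ) (k : ℕ) : ∃ G, 0 ≤ G ∧ ∀ r, r ≤ k → f r ≤ G := by
  refine ⟨∑ r ∈ range (k + 1), |f r|, Finset.sum_nonneg fun _ _ => abs_nonneg _, ?_⟩
  intro r hr
  exact (le_abs_self _).trans (Finset.single_le_sum (f := fun r => |f r|)
    (fun _ _ => abs_nonneg _) (Finset.mem_range.2 (Nat.lt_succ_of_le hr)))

theorem integrableOn_B (hMB : S_MEB) (hTB : S_TAB) {k : ℕ} {g : ℕ → ℝ}
    (hg : ∀ r, 2 ≤ r → 0 ≤ g r) {m : Bool → Fin k → ℝ} (hm : ∀ x j, 0 ≤ m x j) :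
    IntegrableOn (B g m) (Set.Ioi 0) := by
  obtain ⟨G, hG0, hG⟩ := exists_bound g k
  obtain ⟨M, hM0, hM⟩ : ∃ M : ℝ, 0 ≤ M ∧ ∀ x i, m x i ≤ M := by
    refine ⟨∑ x, ∑ i, m x i, Finset.sum_nonneg fun _ _ => Finset.sum_nonneg fun _ _ => hm _ _, ?_⟩
    intro x i
    exact (Finset.single_le_sum (f := fun i => m x i) (fun i _ => hm x i) (mem_univ i)).trans
      (Finset.single_le_sum (f := fun x => ∑ i, m x i)
        (fun x _ => Finset.sum_nonneg fun i _ => hm x i) (mem_univ x))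
  refine integrableOn_of_tail (hMB k g m) (2 * ((k : ℝ) * (G * M)) ^ 2)
    (fun z _ => B_nonneg g m z) (fun z _ => B_le_one g m z) (fun z hz => ?_)
  refine (hTB k g m G M z (fun r h2 hr => ⟨hg r h2, hG r hr⟩) (fun x i => ⟨hm x i, hM x i⟩)
    hG0 hM0 hz).trans (le_of_eq ?_)
  field_simp

theorem isPot_B (hC : S_CON) (hMB : S_MEB) (hTB : S_TAB) (hD : S_DOM) {k : ℕ} (hk : 0 < k)
    {g : ℕ → ℝ} (hg : ∀ r, 2 ≤ r → 0 ≤ g r)
    (hJ : ∀ n : ℕ, 2 ≤ n → n ≤ k → (n : ℝ) - 1 ≤ J g n) :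
    IsPot (fun m : Bool → Fin k → ℝ => ∫ z in Set.Ioi (0 : ℝ), B g m z) where
  nonneg m _ := setIntegral_nonneg measurableSet_Ioi fun z _ => B_nonneg g m z
  homog m hm c hc := by
    have h := integral_comp_mul_left_Ioi (fun z => B g (fun x j => c * m x j) z) 0 hc
    rw [mul_zero, smul_eq_mul] at h
    have h2 : ∫ z in Set.Ioi (0 : ℝ), B g (fun x j => c * m x j) (c * z) =
        ∫ z in Set.Ioi (0 : ℝ), B g m z := by
      congr 1
      funext z
      exact B_scale g m z c hc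
    rw [h2] at h
    rw [h]
    field_simp
  conc m hm i y y' c c' hy hy' hc hc' hcc := by
    have hu : ∀ w : Bool → ℝ, (∀ x, 0 ≤ w x) → ∀ x j, 0 ≤ upd m i w x j := by
      intro w hw x j
      unfold upd
      split_ifs
      · exact hw x
      · exact hm x j
    have i1 := integrableOn_B hMB hTB hg (hu y hy)
    have i2 := integrableOn_B hMB hTB hg (hu y' hy')
    have i3 := integrableOn_B hMB hTB hg (hu (fun x => c * y x + c' * y' x)
      (fun x => add_nonneg (mul_nonneg hc.le (hy x)) (mul_nonneg hc'.le (hy' x))))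
    rw [← integral_const_mul, ← integral_const_mul, ← integral_add (i1.const_mul c)
      (i2.const_mul c')]
    refine setIntegral_mono_on ((i1.const_mul c).add (i2.const_mul c')) i3 measurableSet_Ioi
      fun z hz => ?_
    exact hC k g m i z y y' c c' hg hm hz hy hy' hc hc' hcc
  mono m hm i y y' hy hyy := by
    have hu : ∀ w : Bool → ℝ, (∀ x, 0 ≤ w x) → ∀ x j, 0 ≤ upd m i w x j := by
      intro w hw x j
      unfold upd
      split_ifs
      · exact hw x
      · exact hm x j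
    have i1 := integrableOn_B hMB hTB hg (hu y hy)
    have i2 := integrableOn_B hMB hTB hg (hu y' (fun x => (hy x).trans (hyy x)))
    refine setIntegral_mono_on i1 i2 measurableSet_Ioi fun z _ => ?_
    apply B_mono hg
    intro x j
    unfold upd
    split_ifs
    · exact hyy x
    · exact le_rfl
  dom m hm x := hD k g hg hJ m hm hk x

/-- **The antithetic upper bound.** -/
theorem le_Wa (hC : S_CON) (hMB : S_MEB) (hTB : S_TAB) (hD : S_DOM) {k : ℕ} (hk : 0 < k)
    {g : ℕ → ℝ} (hg : ∀ r, 2 ≤ r → 0 ≤ g r)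
    (hJ : ∀ n : ℕ, 2 ≤ n → n ≤ k → (n : ℝ) - 1 ≤ J g n) {v : ℝ} (hv : v ∈ values k) :
    v ≤ Wa g k :=
  le_pot_of_mem_values (isPot_B hC hMB hTB hD hk hg hJ) hk hv

end Pool.Agent.Y171.CG
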