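import Pool.Agent.Y171.CG.Real

/-!
# Thinning the candidates of the first type
-/

open MeasureTheory Finset Set Filter Topology

namespace Pool.Agent.Y171.CG

/-- The state after the players of `l` have been thinned: those in `A` survive. -/
noncomputable def thinS {k : ℕ} (m : Bool → Fin k → ℝ) (p : ℝ) (l A : Finset (Fin k)) :
    Bool → Fin k → ℝ :=
  fun x i => if x = false ∧ i ∈ l then (if i ∈ A then m x i / p else 0) else m x i

theorem ach_thin {k : ℕ} (p : ℝ) (hp : 0 < p) (hp1 : p ≤ 1) (l : Finset (Fin k)) :
    ∀ (m : Bool → Fin k → ℝ) (Fv : Finset (Fin k) → ℝ),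
      (∀ A, A ⊆ l → Ach (thinS m p l A) (Fv A)) →
      Ach m (∑ A ∈ l.powerset, p ^ A.card * (1 - p) ^ (l.card - A.card) * Fv A) := by
  induction l using Finset.induction_on with
  | empty =>
    intro m Fv h
    have h1 := h ∅ (Finset.Subset.refl _)
    have h2 : thinS m p ∅ ∅ = m := by
      funext x i
      simp [thinS]
    rw [h2] at h1
    simpa using h1
  | insert a l ha ih =>
    intro m Fv h
    set m1 : Bool → Fin k → ℝ := fun x i => if x = false ∧ i = a then m x i / p else m x i with hm1
    set m0 : Bool → Fin k → ℝ := fun x i => if x = false ∧ i = a then 0 else m x i with hm0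
    have e1 := ih m1 (fun A => Fv (insert a A)) (fun A hA => by
      have := h (insert a A) (Finset.insert_subset_insert a hA)
      convert this using 1
      funext x i
      unfold thinS
      simp only [hm1, Finset.mem_insert]
      by_cases hx : x = false
      · by_cases hia : i = a
        · subst hia
          simp [hx, ha]
        · simp [hx, hia]
      · simp [hx])
    have e0 := ih m0 Fv (fun A hA => by
      have := h A (hA.trans (Finset.subset_insert a l))
      convert this using 1
      funext x i
      unfold thinS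
      simp only [hm0, Finset.mem_insert]
      by_cases hx : x = false
      · by_cases hia : i = a
        · subst hia
          have : i ∉ A := fun hh => ha (hA hh)
          simp [hx, ha, this]
        · simp [hx, hia]
      · simp [hx])
    have f1 := e1.smul hp.le
    have f0 := e0.smul (c := 1 - p) (by linarith)
    set P : Option Bool → ℝ := fun w => if w = some false then 1 else p with hP
    have g1 : Ach (fun x j => P (know x j a) * m x j) (p * ∑ A ∈ l.powerset,
        p ^ A.card * (1 - p) ^ (l.card - A.card) * Fv (insert a A)) := by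
      convert f1 using 1
      funext x j
      simp only [hP, hm1, know]
      by_cases hj : j = a
      · subst hj
        cases x
        · simp
          field_simp
        · simp
      · have : a ≠ j := Ne.symm hj
        simp [hj, this]
    have g0 : Ach (fun x j => (1 - P (know x j a)) * m x j) ((1 - p) * ∑ A ∈ l.powerset,
        p ^ A.card * (1 - p) ^ (l.card - A.card) * Fv A) := by
      convert f0 using 1
      funext x j
      simp only [hP, hm0, know]
      by_cases hj : j = a
      · subst hj
        cases x <;> simp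
      · have : a ≠ j := Ne.symm hj
        simp [hj, this]
    refine Ach.split m a P (fun w => ?_) (fun w => ?_) _ _ _ g1 g0 (le_of_eq ?_)
    · simp only [hP]
      split_ifs
      · exact zero_le_one
      · exact hp.le
    · simp only [hP]
      split_ifs
      · exact le_rfl
      · exact hp1
    · rw [Finset.sum_powerset_insert ha, Finset.mul_sum, Finset.mul_sum, add_comm]
      congr 1
      · apply Finset.sum_congr rfl
        intro A hA
        have hA' := Finset.mem_powerset.1 hA
        have hcard : (insert a A).card = A.card + 1 :=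
          Finset.card_insert_of_notMem fun hh => ha (hA' hh)
        rw [hcard, Finset.card_insert_of_notMem ha, Nat.add_sub_add_right, pow_succ]
        ring
      · apply Finset.sum_congr rfl
        intro A hA
        have hA' := Finset.mem_powerset.1 hA
        have hle : A.card ≤ l.card := Finset.card_le_card hA'
        rw [Finset.card_insert_of_notMem ha, Nat.sub_add_comm hle, pow_succ]
        ring

/-- `T0` are the candidates of the first type, `T1` those of the second type. -/
noncomputable def St {k : ℕ} (T0 T1 : Finset (Fin k)) (a b : ℝ) : Bool → Fin k → ℝ :=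
  fun x i => if x then (if i ∈ T1 then b else 0) else (if i ∈ T0 then a else 0)

/-- `n` candidates of mass `a` of the first type and `m` candidates of mass `b` of the second type
are worth at least `v`. -/
def Gdd (k : ℕ) (n m : ℕ) (a b v : ℝ) : Prop :=
  ∀ T0 T1 : Finset (Fin k), T0.card = n → T1.card = m → Ach (St T0 T1 a b) v

theorem gdd_mono (k n m : ℕ) (a b v v' : ℝ) (h : Gdd k n m a b v) (hv : v' ≤ v) :
    Gdd k n m a b v' := fun T0 T1 h0 h1 => (h T0 T1 h0 h1).mono hv

theorem gdd_smul (k n m : ℕ) (a b v c : ℝ) (hc : 0 < c) (h : Gdd k n m a b v) :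
    Gdd k n m (c * a) (c * b) (c * v) := by
  intro T0 T1 h0 h1
  have := (h T0 T1 h0 h1).smul hc.le
  convert this using 1
  funext x i
  unfold St
  split_ifs <;> simp

theorem gdd_swap (k n m : ℕ) (a b v : ℝ) (h : Gdd k n m a b v) : Gdd k m n b a v := by
  intro T0 T1 h0 h1
  have := (h T1 T0 h1 h0).swap
  convert this using 1
  funext x i
  unfold St
  cases x <;> simp

theorem sum_St {k : ℕ} (T0 T1 : Finset (Fin k)) (a b : ℝ) :
    ∑ i, St T0 T1 a b false i = a * T0.card ∧ ∑ i, St T0 T1 a b true i = b * T1.card := by
  unfold St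
  constructor
  · simp [Finset.sum_ite_mem, mul_comm]
  · simp [Finset.sum_ite_mem, mul_comm]

theorem gdd_stop (k : ℕ) (n m : ℕ) (a b v : ℝ) (ha : 0 < a) (_ : 0 < b)
    (hv : v ≤ max (a * ((n : ℝ) - 1)) 0) : Gdd k n m a b v := by
  intro T0 T1 h0 h1
  refine Ach.stop _ false v fun j => ?_
  rw [(sum_St T0 T1 a b).1, h0]
  have hj : St T0 T1 a b false j ≤ a := by
    unfold St
    simp only [Bool.false_eq_true, if_false]
    split_ifs
    · exact le_rfl
    · exact ha.le
  have hj0 : St T0 T1 a b false j ≤ a * n := by
    rw [← h0, ← (sum_St T0 T1 a b).1]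
    apply Finset.single_le_sum (f := fun i => St T0 T1 a b false i) _ (mem_univ j)
    intro i _
    unfold St
    simp only [Bool.false_eq_true, if_false]
    split_ifs
    · exact ha.le
    · exact le_rfl
  refine hv.trans (max_le ?_ ?_)
  · have : a * ((n : ℝ) - 1) = a * n - a := by ring
    rw [this]
    linarith
  · linarith

theorem gdd_bound (k : ℕ) (hk : 0 < k) (n m : ℕ) (a b v : ℝ) (hn : n ≤ k) (hm : m ≤ k)
    (ha : 0 < a) (hb : 0 < b) (h : Gdd k n m a b v) : v ≤ a * n + b * m := by
  obtain ⟨T0, _, h0⟩ := Finset.exists_subset_card_eq (s := (univ : Finset (Fin k))) (n := n)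
    (by simpa using hn)
  obtain ⟨T1, _, h1⟩ := Finset.exists_subset_card_eq (s := (univ : Finset (Fin k))) (n := m)
    (by simpa using hm)
  have := (h T0 T1 h0 h1).le_sum (fun x j => by
    unfold St
    split_ifs <;> first | exact ha.le | exact hb.le | exact le_rfl) hk
  rw [Fintype.sum_bool, (sum_St T0 T1 a b).1, (sum_St T0 T1 a b).2, h0, h1] at this
  linarith

theorem gdd_thin (k n m : ℕ) (a b p : ℝ) (w : ℕ → ℝ) (hp : 0 < p) (hp1 : p < 1)
    (h : ∀ c, c ≤ n → Gdd k c m (a / p) b (w c)) :
    Gdd k n m a b (∑ c ∈ range (n + 1), bw n p c * w c) := by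
  intro T0 T1 h0 h1
  have := ach_thin p hp hp1.le T0 (St T0 T1 a b) (fun A => w A.card) (fun A hA => by
    have hc : A.card ≤ n := by rw [← h0]; exact Finset.card_le_card hA
    have := h A.card hc A T1 rfl h1
    convert this using 1
    funext x i
    unfold thinS St
    cases x
    · by_cases hi : i ∈ A
      · simp [hi, hA hi]
      · by_cases hi' : i ∈ T0 <;> simp [hi, hi']
    · simp)
  convert this using 1
  rw [Finset.sum_powerset_apply_card (fun c => p ^ c * (1 - p) ^ (T0.card - c) * w c), h0]
  apply Finset.sum_congr rfl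
  intro c _
  rw [nsmul_eq_mul, bw]
  ring

/-- **The independent lower bound.** -/
theorem exists_ge_W (hL : S_LOW) {k : ℕ} (hk : 0 < k) {g : ℕ → ℝ} (hg : ∀ r, 2 ≤ r → 0 < g r)
    (hmon : ∀ r t, 2 ≤ r → r ≤ t → g r ≤ g t)
    (hJ : ∀ n : ℕ, 2 ≤ n → n ≤ k → J g n ≤ (n : ℝ) - 1) {v : ℝ} (hv : v < W g k) :
    ∃ w ∈ values k, v ≤ w := by
  have hk' : (0 : ℝ) < 2 * k := by positivity
  have h1 : 2 * (k : ℝ) * v < Psi g k k 1 1 := by
    unfold W at hv
    have := mul_lt_mul_of_pos_left hv hk'
    calc 2 * (k : ℝ) * v < 2 * k * (1 / (2 * (k : ℝ)) * Psi g k k 1 1) := this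
      _ = Psi g k k 1 1 := by field_simp
  have h2 := hL g k hg hmon hJ (Gdd k) (gdd_mono k) (gdd_smul k) (gdd_swap k) (gdd_stop k)
    (gdd_bound k hk) (fun n m a b p w _ _ hp hp1 h => gdd_thin k n m a b p w hp hp1 h)
    k k le_rfl le_rfl 1 1 (2 * (k : ℝ) * v) one_pos one_pos h1 univ univ (by simp) (by simp)
  have h3 : St (univ : Finset (Fin k)) univ 1 1 = fun (_ : Bool) (_ : Fin k) => (1 : ℝ) := by
    funext x i
    unfold St
    simp
  rw [h3] at h2
  obtain ⟨w, hw, hvw⟩ := exists_mem_values hk h2
  refine ⟨w, hw, le_trans (le_of_eq ?_) hvw⟩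
  field_simp

end Pool.Agent.Y171.CG
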