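import Mathlib

/-!
# Cryptogenography (MP_5b9e43_lc): statements of the analytic part of the project

`K_n = max_{2 ≤ r ≤ n} g_r / u_(r)` for `n` independent uniform variables `u_i` (`u_(r)` the
`r`-th smallest).  `Hit g v z u` says that `max_r g_r (v/u)_(r) > z` (masses `v_i`, the `r`-th
largest of the numbers `v_i / u_i`), `F g n z = P(K_n ≤ z)` and `J g n = E K_n`.
-/

open MeasureTheory Finset Set Filter Topology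

namespace Pool.Agent.Y171.CG

/-- The uniform distribution on `[0, 1]`. -/
noncomputable def nu : Measure ℝ := volume.restrict (Set.Icc (0 : ℝ) 1)

/-- The uniform distribution on the cube `[0, 1]^k`. -/
noncomputable def cube (k : ℕ) : Measure (Fin k → ℝ) := Measure.pi fun _ => nu

/-- The number of `i` with `u i * z < c i`. -/
noncomputable def cnt {k : ℕ} (c : Fin k → ℝ) (z : ℝ) (u : Fin k → ℝ) : ℕ :=
  (univ.filter fun i => u i * z < c i).card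

/-- For some `r ≥ 2` at least `r` of the numbers `u i` satisfy `u i * z < g r * v i`. -/
def Hit {k : ℕ} (g : ℕ → ℝ) (v : Fin k → ℝ) (z : ℝ) (u : Fin k → ℝ) : Prop :=
  ∃ r, 2 ≤ r ∧ r ≤ cnt (fun i => g r * v i) z u

/-- The probability of no hit at the threshold `z`, for `n` players of mass one. -/
noncomputable def F (g : ℕ → ℝ) (n : ℕ) (z : ℝ) : ℝ :=
  (cube n).real {u | ¬ Hit g (fun _ => 1) z u}

/-- The probability of a hit of one of the two types, the randomness of each player being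
used antithetically (`u i` for the first type, `1 - u i` for the second). -/
noncomputable def B {k : ℕ} (g : ℕ → ℝ) (m : Bool → Fin k → ℝ) (z : ℝ) : ℝ :=
  (cube k).real {u | Hit g (m false) z u ∨ Hit g (m true) z (fun i => 1 - u i)}

/-- `E K_n`. -/
noncomputable def J (g : ℕ → ℝ) (n : ℕ) : ℝ := ∫ z in Set.Ioi (0 : ℝ), (1 - F g n z)

/-- `E max (a K_n, b K'_m)` with `K_n`, `K'_m` independent. -/
noncomputable def Psi (g : ℕ → ℝ) (n m : ℕ) (a b : ℝ) : ℝ :=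
  ∫ z in Set.Ioi (0 : ℝ), (1 - F g n (z / a) * F g m (z / b))

/-- The independent functional. -/
noncomputable def W (g : ℕ → ℝ) (k : ℕ) : ℝ := 1 / (2 * (k : ℝ)) * Psi g k k 1 1

/-- The antithetic functional. -/
noncomputable def Wa (g : ℕ → ℝ) (k : ℕ) : ℝ :=
  1 / (2 * (k : ℝ)) * ∫ z in Set.Ioi (0 : ℝ), B g (fun (_ : Bool) (_ : Fin k) => (1 : ℝ)) z

/-- Truncation of the sequence `g`. -/
noncomputable def tr (g : ℕ → ℝ) (R : ℕ) : ℕ → ℝ := fun r => if r ≤ R then g r else 0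

/-- The sequences with `E K_n = n - 1` for all `n ≥ 2`. -/
def GoodSeq (g : ℕ → ℝ) : Prop :=
  (∀ r, 2 ≤ r → 0 < g r) ∧ (∀ r t, 2 ≤ r → r ≤ t → g r ≤ g t) ∧
    ∀ n : ℕ, 2 ≤ n → J g n = (n : ℝ) - 1

/-- Player `i` gets the pair of masses `y`. -/
def upd {k : ℕ} (m : Bool → Fin k → ℝ) (i : Fin k) (y : Bool → ℝ) : Bool → Fin k → ℝ :=
  fun x j => if j = i then y x else m x j

/-- Binomial weights. -/
noncomputable def bw (n : ℕ) (p : ℝ) (c : ℕ) : ℝ := (n.choose c : ℝ) * p ^ c * (1 - p) ^ (n - c)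

/-! ### Facts about `F` -/

def S_THL : Prop := ∀ (g : ℕ → ℝ) (n : ℕ) (p z : ℝ), 0 < p → p ≤ 1 → 0 < z →
  F g n z ≤ ∑ c ∈ range (n + 1), bw n p c * F g c (p * z)

def S_THE : Prop := ∀ (g : ℕ → ℝ) (n : ℕ) (p z : ℝ), 0 < p → p ≤ 1 → 0 < z →
  (∀ r, 2 ≤ r → r ≤ n → g r ≤ p * z) →
  F g n z = ∑ c ∈ range (n + 1), bw n p c * F g c (p * z)

def S_VER : Prop := ∀ (g : ℕ → ℝ) (k : ℕ) (S : Finset (Fin k)) (M z : ℝ), 0 < M → 0 < z →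
  (∀ r, 2 ≤ r → 0 ≤ g r) →
  (cube k).real {u | Hit g (fun i => if i ∈ S then M else 0) z u} = 1 - F g S.card (z / M)

def S_ZER : Prop := ∀ (g : ℕ → ℝ) (n : ℕ) (z : ℝ), 2 ≤ n → 0 < z → z ≤ g n → F g n z = 0

def S_SML : Prop := ∀ (g : ℕ → ℝ) (n : ℕ) (z e : ℝ), 2 ≤ n → 0 < g n → 0 ≤ e → 0 < z →
  z ≤ (1 + e) * g n → F g n z ≤ n * e

def S_ANT : Prop := ∀ (g : ℕ → ℝ) (n : ℕ) (z : ℝ), F g (n + 1) z ≤ F g n z

def S_MOG : Prop := ∀ (g g' : ℕ → ℝ) (n : ℕ) (z : ℝ), (∀ r, 2 ≤ r → r ≤ n → g r ≤ g' r) →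
  F g' n z ≤ F g n z

def S_TAI : Prop := ∀ (g : ℕ → ℝ) (n : ℕ) (G z : ℝ), (∀ r, 2 ≤ r → r ≤ n → g r ≤ G) → 0 ≤ G →
  0 < z → 1 - F g n z ≤ ((n : ℝ) * G / z) ^ 2

def S_MEF : Prop := ∀ (g : ℕ → ℝ) (n : ℕ), Measurable (F g n)

/-! ### Facts about `B` -/

def S_MEB : Prop := ∀ (k : ℕ) (g : ℕ → ℝ) (m : Bool → Fin k → ℝ), Measurable (B g m)

def S_TAB : Prop := ∀ (k : ℕ) (g : ℕ → ℝ) (m : Bool → Fin k → ℝ) (G M z : ℝ),
  (∀ r, 2 ≤ r → r ≤ k → 0 ≤ g r ∧ g r ≤ G) → (∀ x i, 0 ≤ m x i ∧ m x i ≤ M) → 0 ≤ G → 0 ≤ M →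
  0 < z → B g m z ≤ 2 * ((k : ℝ) * (G * M) / z) ^ 2

def S_CON : Prop := ∀ (k : ℕ) (g : ℕ → ℝ) (m : Bool → Fin k → ℝ) (i : Fin k) (z : ℝ)
  (y y' : Bool → ℝ) (c c' : ℝ), (∀ r, 2 ≤ r → 0 ≤ g r) → (∀ x j, 0 ≤ m x j) → 0 < z →
  (∀ x, 0 ≤ y x) → (∀ x, 0 ≤ y' x) → 0 < c → 0 < c' → c + c' = 1 →
  c * B g (upd m i y) z + c' * B g (upd m i y') z ≤
    B g (upd m i (fun x => c * y x + c' * y' x)) z

/-- The domination inequality (from `S_CON`, `S_VER`). -/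
def S_DOM : Prop := ∀ (k : ℕ) (g : ℕ → ℝ), (∀ r, 2 ≤ r → 0 ≤ g r) →
  (∀ n : ℕ, 2 ≤ n → n ≤ k → (n : ℝ) - 1 ≤ J g n) →
  ∀ m : Bool → Fin k → ℝ, (∀ x j, 0 ≤ m x j) → 0 < k → ∀ x, ∃ j,
    ∑ i, m x i - m x j ≤ ∫ z in Set.Ioi (0 : ℝ), B g m z

/-- Truncation. -/
def S_TRU : Prop := ∀ (k : ℕ) (g : ℕ → ℝ) (R : ℕ) (z : ℝ), (∀ r, 2 ≤ r → 0 ≤ g r) → 0 < z →
  B g (fun (_ : Bool) (_ : Fin k) => (1 : ℝ)) z ≤
    B (tr g R) (fun (_ : Bool) (_ : Fin k) => (1 : ℝ)) z + 2 * (F (tr g R) k z - F g k z)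

/-- Comparison of the antithetic and the independent functional, level by level. -/
def S_HYB : Prop := ∀ (k : ℕ) (g : ℕ → ℝ) (G e z : ℝ), (∀ r, 2 ≤ r → 0 ≤ g r ∧ g r ≤ G) →
  0 < e → e ≤ 1 → 0 < z → (1 + e) ^ 2 * G ≤ 2 * e * z →
  B g (fun (_ : Bool) (_ : Fin k) => (1 : ℝ)) z ≤ 1 - (F g k (z / (1 + e))) ^ 2

/-! ### Asymptotics -/

def S_BIN : Prop := ∀ (n : ℕ) (p : ℝ), 0 ≤ p → p ≤ 1 →
  ∑ c ∈ range (n + 1), bw n p c * max ((n : ℝ) * p - c) 0 ≤ √((n : ℝ) * p)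

def S_CVG : Prop := ∀ g : ℕ → ℝ, GoodSeq g → ∃ L, Tendsto (W g) atTop (𝓝 L)

def S_CMU : Prop := ∀ g : ℕ → ℝ, GoodSeq g → ∀ e : ℝ, 0 < e → ∀ᶠ k : ℕ in atTop, Wa g k ≤ W g k + e

/-! ### Existence of the sequence -/

def S_REC : Prop := ∀ (g : ℕ → ℝ) (n : ℕ), 2 ≤ n → (∀ r, 2 ≤ r → r ≤ n → 0 < g r) →
  (∀ r, 2 ≤ r → r ≤ n → g r ≤ g n) →
  J g n = (n : ℝ) / ((n : ℝ) - 1) * (g n + ∫ z in Set.Ioi (g n), (1 - F g (n - 1) z))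

def S_EXI : Prop := ∃ g : ℕ → ℝ, GoodSeq g

/-! ### The lower bound -/

/-- The main induction: `Gd n m a b v` stands for: `n` candidates of mass `a` of the first type
and `m` candidates of mass `b` of the second type are worth at least `v`. -/
def S_LOW : Prop := ∀ (g : ℕ → ℝ) (N : ℕ), (∀ r, 2 ≤ r → 0 < g r) →
  (∀ r t, 2 ≤ r → r ≤ t → g r ≤ g t) → (∀ n : ℕ, 2 ≤ n → n ≤ N → J g n ≤ (n : ℝ) - 1) →
  ∀ Gd : ℕ → ℕ → ℝ → ℝ → ℝ → Prop,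
  (∀ (n m : ℕ) (a b v v' : ℝ), Gd n m a b v → v' ≤ v → Gd n m a b v') →
  (∀ (n m : ℕ) (a b v c : ℝ), 0 < c → Gd n m a b v → Gd n m (c * a) (c * b) (c * v)) →
  (∀ (n m : ℕ) (a b v : ℝ), Gd n m a b v → Gd m n b a v) →
  (∀ (n m : ℕ) (a b v : ℝ), 0 < a → 0 < b → v ≤ max (a * ((n : ℝ) - 1)) 0 → Gd n m a b v) →
  (∀ (n m : ℕ) (a b v : ℝ), n ≤ N → m ≤ N → 0 < a → 0 < b → Gd n m a b v →
    v ≤ a * n + b * m) →
  (∀ (n m : ℕ) (a b p : ℝ) (w : ℕ → ℝ), 0 < a → 0 < b → 0 < p → p < 1 →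
    (∀ c, c ≤ n → Gd c m (a / p) b (w c)) →
    Gd n m a b (∑ c ∈ range (n + 1), bw n p c * w c)) →
  ∀ n m : ℕ, n ≤ N → m ≤ N → ∀ a b v : ℝ, 0 < a → 0 < b → v < Psi g n m a b → Gd n m a b v

/-! ### Two players -/

def S_TWO : Prop := ∀ g : ℕ → ℝ, g 2 = 1 / 2 → J g 2 = 1 ∧ Wa g 2 = Real.log 2 / 2

end Pool.Agent.Y171.CG
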