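import Pool.Agent.Y171.CG.Many
import Pool.Agent.Y171.CG.PotB
import Pool.Agent.Y171.CG.Thin
import Pool.Agent.Y563.CG.Exi
import Pool.Agent.Y563.CG.Fb
import Pool.Agent.Y455.CG.The
import Pool.Agent.Y455.CG.BinTru
import Pool.Agent.Y301.CG.HYB
import Pool.Agent.Y301.CG.Conc
import Pool.Agent.Y284.CG.Dom
import Pool.Agent.Y367.CG.Cmu
import Pool.Agent.Y367.CG.Low
import Pool.Agent.Y587.CG.Rec

/-!
# Cryptogenography: assembly of the bounds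
-/

open MeasureTheory Finset Filter Topology

namespace Pool.Agent.Y171.CG

theorem f_DOM : S_DOM :=
  Y284.CG.t Y301.CG.t_CON Y563.CG.Fb.ver Y563.CG.Fb.meb Y563.CG.Fb.tab Y563.CG.Fb.mef Y563.CG.Fb.tai

theorem f_REC : S_REC :=
  Y587.CG.Rec.t Y455.CG.the Y563.CG.Fb.zer Y563.CG.Fb.mef Y563.CG.Fb.tai

theorem f_EXI : S_EXI :=
  Y563.CG.Exi.t f_REC Y563.CG.Fb.zer Y563.CG.Fb.mog Y563.CG.Fb.mef Y563.CG.Fb.tai

theorem f_CVG : S_CVG :=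
  Y367.CG.cvg Y455.CG.thl Y563.CG.Fb.ant Y455.CG.bin Y563.CG.Fb.mef Y563.CG.Fb.tai

theorem f_CMU : S_CMU :=
  Y367.CG.cmu Y455.CG.tru Y301.CG.t_HYB Y455.CG.thl Y455.CG.bin Y563.CG.Fb.ant Y563.CG.Fb.mog
    Y563.CG.Fb.mef Y563.CG.Fb.meb Y563.CG.Fb.tai Y563.CG.Fb.tab

theorem f_LOW : S_LOW :=
  Y367.CG.t Y455.CG.the Y563.CG.Fb.zer Y563.CG.Fb.sml Y563.CG.Fb.mef Y563.CG.Fb.tai Y563.CG.Fb.ant

theorem bddAbove_values {k : ℕ} (hk : 0 < k) : BddAbove (values k) :=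
  ⟨0.6525, fun _ hv => values_le k hk hv⟩

/-- The lower bound for `s k` by a subsolution. -/
theorem W_le_s {k : ℕ} (hk : 0 < k) {g : ℕ → ℝ} (hg : ∀ r, 2 ≤ r → 0 < g r)
    (hm : ∀ r t, 2 ≤ r → r ≤ t → g r ≤ g t) (hJ : ∀ n : ℕ, 2 ≤ n → n ≤ k → J g n ≤ (n : ℝ) - 1) :
    W g k ≤ s k := by
  apply le_of_forall_lt
  intro v hv
  obtain ⟨v', h1, h2⟩ := exists_between hv
  obtain ⟨w, hw, hvw⟩ := exists_ge_W f_LOW hk hg hm hJ h2
  exact h1.trans_le (hvw.trans (le_csSup (bddAbove_values hk) hw))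

/-- The upper bound for `s k` by a supersolution. -/
theorem s_le_Wa {k : ℕ} (hk : 0 < k) {g : ℕ → ℝ} (hg : ∀ r, 2 ≤ r → 0 ≤ g r)
    (hJ : ∀ n : ℕ, 2 ≤ n → n ≤ k → (n : ℝ) - 1 ≤ J g n) : s k ≤ Wa g k := by
  apply csSup_le (values_nonempty k)
  intro v hv
  exact le_Wa Y301.CG.t_CON Y563.CG.Fb.meb Y563.CG.Fb.tab f_DOM hk hg hJ hv

/-- The two bounds for a solution `g`. -/
theorem sandwich {g : ℕ → ℝ} (hg : GoodSeq g) {k : ℕ} (hk : 0 < k) : W g k ≤ s k ∧ s k ≤ Wa g k :=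
  ⟨W_le_s hk hg.1 hg.2.1 fun n hn _ => (hg.2.2 n hn).le,
    s_le_Wa hk (fun r hr => (hg.1 r hr).le) fun n hn _ => (hg.2.2 n hn).ge⟩

/-- The limit of `s k`. -/
theorem limit {g : ℕ → ℝ} (hg : GoodSeq g) : ∃ L, Tendsto (W g) atTop (𝓝 L) ∧
    Tendsto (Wa g) atTop (𝓝 L) ∧ Tendsto s atTop (𝓝 L) := by
  obtain ⟨L, hL⟩ := f_CVG g hg
  have hev : ∀ᶠ k : ℕ in atTop, W g k ≤ s k ∧ s k ≤ Wa g k := by
    filter_upwards [eventually_gt_atTop 0] with k hk using sandwich hg hk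
  have hWa : Tendsto (Wa g) atTop (𝓝 L) := by
    rw [tendsto_order]
    constructor
    · intro a ha
      filter_upwards [(tendsto_order.1 hL).1 a ha, hev] with k h1 h2
      exact h1.trans_le (h2.1.trans h2.2)
    · intro a ha
      have e0 : 0 < (a - L) / 2 := by linarith
      filter_upwards [f_CMU g hg _ e0, (tendsto_order.1 hL).2 ((a + L) / 2) (by linarith)]
        with k h1 h2
      linarith
  refine ⟨L, hL, hWa, ?_⟩
  exact tendsto_of_tendsto_of_tendsto_of_le_of_le' hL hWa (hev.mono fun _ h => h.1)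
    (hev.mono fun _ h => h.2)

end Pool.Agent.Y171.CG
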