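import Pool.Agent.Y171.CG.Cert

/-!
# `s_k ≤ 0.6525` for every number `k` of players
-/

open Finset

namespace Pool.Agent.Y171.CG

/-- A polynomial inequality certificate. -/
theorem sextic_nonneg (a b A2 A3 A4 A5 A6 t0 : ℝ) (h2 : 0 < A2) (h3 : 0 ≤ A3) (h4 : 0 ≤ A4)
    (h5 : 0 ≤ A5) (h6 : 0 ≤ A6) (ht0 : 0 ≤ t0)
    (hD : 0 ≤ 4 * A2 * (a - 2 * A3 * t0 ^ 3 - 3 * A4 * t0 ^ 4 - 4 * A5 * t0 ^ 5
        - 5 * A6 * t0 ^ 6) -
      (b - 3 * A3 * t0 ^ 2 - 4 * A4 * t0 ^ 3 - 5 * A5 * t0 ^ 4 - 6 * A6 * t0 ^ 5) ^ 2)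
    (t : ℝ) (ht : 0 ≤ t) :
    b * t ≤ a + A2 * t ^ 2 + A3 * t ^ 3 + A4 * t ^ 4 + A5 * t ^ 5 + A6 * t ^ 6 := by
  have e3 : 0 ≤ t ^ 3 - 3 * t0 ^ 2 * t + 2 * t0 ^ 3 := by
    have : t ^ 3 - 3 * t0 ^ 2 * t + 2 * t0 ^ 3 = (t - t0) ^ 2 * (t + 2 * t0) := by ring
    rw [this]; positivity
  have e4 : 0 ≤ t ^ 4 - 4 * t0 ^ 3 * t + 3 * t0 ^ 4 := by
    have : t ^ 4 - 4 * t0 ^ 3 * t + 3 * t0 ^ 4 =
        (t - t0) ^ 2 * (t ^ 2 + 2 * t * t0 + 3 * t0 ^ 2) := by ring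
    rw [this]; positivity
  have e5 : 0 ≤ t ^ 5 - 5 * t0 ^ 4 * t + 4 * t0 ^ 5 := by
    have : t ^ 5 - 5 * t0 ^ 4 * t + 4 * t0 ^ 5 =
        (t - t0) ^ 2 * (t ^ 3 + 2 * t ^ 2 * t0 + 3 * t * t0 ^ 2 + 4 * t0 ^ 3) := by ring
    rw [this]; positivity
  have e6 : 0 ≤ t ^ 6 - 6 * t0 ^ 5 * t + 5 * t0 ^ 6 := by
    have : t ^ 6 - 6 * t0 ^ 5 * t + 5 * t0 ^ 6 =
        (t - t0) ^ 2 * (t ^ 4 + 2 * t ^ 3 * t0 + 3 * t ^ 2 * t0 ^ 2 + 4 * t * t0 ^ 3
          + 5 * t0 ^ 4) := by ring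
    rw [this]; positivity
  set C := a - 2 * A3 * t0 ^ 3 - 3 * A4 * t0 ^ 4 - 4 * A5 * t0 ^ 5 - 5 * A6 * t0 ^ 6 with hC
  set B := b - 3 * A3 * t0 ^ 2 - 4 * A4 * t0 ^ 3 - 5 * A5 * t0 ^ 4 - 6 * A6 * t0 ^ 5 with hB
  have hq : 0 ≤ C - B * t + A2 * t ^ 2 := by
    have h : 0 ≤ 4 * A2 * (C - B * t + A2 * t ^ 2) := by
      nlinarith [sq_nonneg (2 * A2 * t - B)]
    by_contra hneg
    push Not at hneg
    have := mul_neg_of_pos_of_neg (by positivity : 0 < 4 * A2) hneg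
    linarith
  have key : a + A2 * t ^ 2 + A3 * t ^ 3 + A4 * t ^ 4 + A5 * t ^ 5 + A6 * t ^ 6 - b * t =
      (C - B * t + A2 * t ^ 2) + A3 * (t ^ 3 - 3 * t0 ^ 2 * t + 2 * t0 ^ 3) +
      A4 * (t ^ 4 - 4 * t0 ^ 3 * t + 3 * t0 ^ 4) +
      A5 * (t ^ 5 - 5 * t0 ^ 4 * t + 4 * t0 ^ 5) +
      A6 * (t ^ 6 - 6 * t0 ^ 5 * t + 5 * t0 ^ 6) := by
    rw [hC, hB]; ring
  have := mul_nonneg h3 e3
  have := mul_nonneg h4 e4
  have := mul_nonneg h5 e5
  have := mul_nonneg h6 e6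
  linarith

/-- The coefficients. -/
def cq : ℕ → ℚ
  | 2 => 634 / 1000
  | 3 => 1698 / 1000
  | 4 => 4298 / 1000
  | 5 => 862 / 100
  | 6 => 4326 / 100
  | _ => 0

/-- The constant term. -/
def aq : ℚ := 39448 / 100000

/-- Tangency points (in thousandths, for the total mass) for `n` equal masses. -/
def u0list : List ℕ :=
  [0, 0, 1000, 1067, 912, 838, 795, 766, 746, 730, 719, 709, 702, 696, 690, 686, 682, 678, 675,
  672, 670, 668, 666, 664, 662, 661, 659, 658, 657, 656, 655, 654, 653, 653, 652, 651, 650, 650,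
  649, 649, 648, 648, 647, 647, 646, 646, 645, 645, 645, 644, 644, 644, 643, 643, 643, 642, 642,
  642, 641, 641, 641, 641, 641, 640, 640, 640, 640, 639, 639, 639, 639, 639, 639, 638, 638, 638,
  638, 638, 638, 638, 637, 637, 637, 637, 637, 637, 637, 637, 636, 636, 636, 636, 636, 636, 636,
  636, 636, 636, 635, 635, 635, 635, 635, 635, 635, 635, 635, 635, 635, 635, 634, 634, 634, 634,
  634, 634, 634, 634, 634, 634, 634, 634, 634, 634, 634, 634, 633, 633, 633, 633, 633, 633, 633,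
  633, 633, 633, 633, 633, 633, 633]

/-- The discriminant for the coefficients `A2, ..., A6`, slope `b` and tangency point `t0`. -/
def disc (b A2 A3 A4 A5 A6 t0 : ℚ) : ℚ :=
  4 * A2 * (aq - 2 * A3 * t0 ^ 3 - 3 * A4 * t0 ^ 4 - 4 * A5 * t0 ^ 5 - 5 * A6 * t0 ^ 6) -
      (b - 3 * A3 * t0 ^ 2 - 4 * A4 * t0 ^ 3 - 5 * A5 * t0 ^ 4 - 6 * A6 * t0 ^ 5) ^ 2

/-- The discriminant for `n` equal masses. -/
def discn (n : ℕ) : ℚ :=
  disc ((n : ℚ) - 1) ((n.choose 2 : ℚ) * cq 2) ((n.choose 3 : ℚ) * cq 3) ((n.choose 4 : ℚ) * cq 4)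
    ((n.choose 5 : ℚ) * cq 5) ((n.choose 6 : ℚ) * cq 6) (((u0list.getD n 0 : ℕ) : ℚ) / (1000 * n))

theorem discn_nonneg : ∀ n ∈ Finset.Icc 2 139, 0 ≤ discn n := by
  decide +kernel

theorem disc_cast (b A2 A3 A4 A5 A6 t0 : ℚ) (h2 : 0 < A2) (h3 : 0 ≤ A3) (h4 : 0 ≤ A4)
    (h5 : 0 ≤ A5) (h6 : 0 ≤ A6) (ht0 : 0 ≤ t0) (hD : 0 ≤ disc b A2 A3 A4 A5 A6 t0)
    (t : ℝ) (ht : 0 ≤ t) :
    (b : ℝ) * t ≤ (aq : ℝ) + A2 * t ^ 2 + A3 * t ^ 3 + A4 * t ^ 4 + A5 * t ^ 5 + A6 * t ^ 6 := by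
  apply sextic_nonneg (aq : ℝ) b A2 A3 A4 A5 A6 t0 (by exact_mod_cast h2) (by exact_mod_cast h3)
    (by exact_mod_cast h4) (by exact_mod_cast h5) (by exact_mod_cast h6) (by exact_mod_cast ht0)
    _ t ht
  have := hD
  unfold disc at this
  exact_mod_cast this

theorem cq_nonneg (r : ℕ) : 0 ≤ cq r := by
  unfold cq
  split <;> norm_num

theorem sum_range_eq (n : ℕ) (t : ℝ) :
    ∑ r ∈ range (n + 1), (n.choose r : ℝ) * ((cq r : ℝ) * t ^ r) =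
      (n.choose 2 : ℝ) * (cq 2 : ℝ) * t ^ 2 + (n.choose 3 : ℝ) * (cq 3 : ℝ) * t ^ 3 +
      (n.choose 4 : ℝ) * (cq 4 : ℝ) * t ^ 4 + (n.choose 5 : ℝ) * (cq 5 : ℝ) * t ^ 5 +
      (n.choose 6 : ℝ) * (cq 6 : ℝ) * t ^ 6 := by
  have h1 : ∑ r ∈ range (n + 1), (n.choose r : ℝ) * ((cq r : ℝ) * t ^ r) =
      ∑ r ∈ range (n + 1 + 7), (n.choose r : ℝ) * ((cq r : ℝ) * t ^ r) := by
    apply Finset.sum_subset
    · intro r hr
      rw [Finset.mem_range] at hr ⊢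
      omega
    · intro r _ hr
      rw [Finset.mem_range, not_lt] at hr
      rw [Nat.choose_eq_zero_of_lt (by omega)]
      simp
  have h2 : ∑ r ∈ range 7, (n.choose r : ℝ) * ((cq r : ℝ) * t ^ r) =
      ∑ r ∈ range (n + 1 + 7), (n.choose r : ℝ) * ((cq r : ℝ) * t ^ r) := by
    apply Finset.sum_subset
    · intro r hr
      rw [Finset.mem_range] at hr ⊢
      omega
    · intro r _ hr
      rw [Finset.mem_range, not_lt] at hr
      have : cq r = 0 := by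
        unfold cq
        split <;> first | omega | rfl
      rw [this]
      simp
  rw [h1, ← h2]
  simp only [Finset.sum_range_succ, Finset.sum_range_zero]
  have c0 : cq 0 = 0 := rfl
  have c1 : cq 1 = 0 := rfl
  rw [c0, c1]
  push_cast
  ring

theorem dom_small (n : ℕ) (h2 : 2 ≤ n) (h : n ≤ 139) (t : ℝ) (ht : 0 ≤ t) :
    ((n : ℝ) - 1) * t ≤ (aq : ℝ) +
      ∑ r ∈ range (n + 1), (n.choose r : ℝ) * ((cq r : ℝ) * t ^ r) := by
  rw [sum_range_eq]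
  have hD := discn_nonneg n (Finset.mem_Icc.2 ⟨h2, h⟩)
  unfold discn at hD
  have := disc_cast _ _ _ _ _ _ _ (mul_pos (by exact_mod_cast Nat.choose_pos h2)
      (by norm_num [cq])) (mul_nonneg (by positivity) (cq_nonneg _))
    (mul_nonneg (by positivity) (cq_nonneg _)) (mul_nonneg (by positivity) (cq_nonneg _))
    (mul_nonneg (by positivity) (cq_nonneg _)) (by positivity) hD t ht
  push_cast at this
  linarith

/-- The limiting discriminant, with `ε = 1/n`. -/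
def disce (e t0 : ℚ) : ℚ :=
  disc (1 - e) (cq 2 / 2 * (1 - e)) (cq 3 / 6 * (1 - 3 * e)) (cq 4 / 24 * (1 - 6 * e))
    (cq 5 / 120 * (1 - 10 * e)) (cq 6 / 720 * (1 - 15 * e)) t0

theorem disce_zero : 0 ≤ disce 0 (628 / 1000) := by decide +kernel

theorem disce_140 : 0 ≤ disce (1 / 140) (634 / 1000) := by decide +kernel

/-- The linearised polynomial. -/
noncomputable def lin (e u : ℝ) : ℝ :=
  (aq : ℝ) - (1 - e) * u + (cq 2 : ℝ) / 2 * (1 - e) * u ^ 2 + (cq 3 : ℝ) / 6 * (1 - 3 * e) * u ^ 3 +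
    (cq 4 : ℝ) / 24 * (1 - 6 * e) * u ^ 4 + (cq 5 : ℝ) / 120 * (1 - 10 * e) * u ^ 5 +
    (cq 6 : ℝ) / 720 * (1 - 15 * e) * u ^ 6

theorem lin_zero (u : ℝ) (hu : 0 ≤ u) : 0 ≤ lin 0 u := by
  have := disc_cast _ _ _ _ _ _ _ (by norm_num [cq]) (by norm_num [cq]) (by norm_num [cq])
    (by norm_num [cq]) (by norm_num [cq]) (by norm_num) disce_zero u hu
  unfold lin
  push_cast at this
  linarith

theorem lin_140 (u : ℝ) (hu : 0 ≤ u) : 0 ≤ lin (1 / 140) u := by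
  have := disc_cast _ _ _ _ _ _ _ (by norm_num [cq]) (by norm_num [cq]) (by norm_num [cq])
    (by norm_num [cq]) (by norm_num [cq]) (by norm_num) disce_140 u hu
  unfold lin
  push_cast at this
  linarith

theorem lin_nonneg (e u : ℝ) (he : 0 ≤ e) (he' : e ≤ 1 / 140) (hu : 0 ≤ u) : 0 ≤ lin e u := by
  have h : lin e u = (1 - 140 * e) * lin 0 u + (140 * e) * lin (1 / 140) u := by
    unfold lin; ring
  rw [h]
  exact add_nonneg (mul_nonneg (by linarith) (lin_zero u hu))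
    (mul_nonneg (by linarith) (lin_140 u hu))

theorem dom_large (n : ℕ) (h : 140 ≤ n) (t : ℝ) (ht : 0 ≤ t) :
    ((n : ℝ) - 1) * t ≤ (aq : ℝ) +
      ∑ r ∈ range (n + 1), (n.choose r : ℝ) * ((cq r : ℝ) * t ^ r) := by
  rw [sum_range_eq]
  have hn : (140 : ℝ) ≤ n := by exact_mod_cast h
  have hn0 : (0 : ℝ) < n := by linarith
  set x : ℝ := (n : ℝ) with hx
  have g2 : (n.choose 2 : ℝ) = x * (x - 1) / 2 := by
    rw [Nat.cast_choose_two]
  have gs : ∀ r, r < n → (n.choose (r + 1) : ℝ) = n.choose r * (x - r) / (r + 1) := by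
    intro r hr
    have := Nat.choose_succ_right_eq n r
    have h1 : ((n.choose (r + 1) : ℝ)) * (r + 1) = n.choose r * ((n - r : ℕ) : ℝ) := by
      exact_mod_cast this
    rw [Nat.cast_sub hr.le] at h1
    rw [eq_div_iff (by positivity), h1]
  have g3 : (n.choose 3 : ℝ) = x * (x - 1) * (x - 2) / 6 := by
    rw [gs 2 (by omega), g2]; push_cast; ring
  have g4 : (n.choose 4 : ℝ) = x * (x - 1) * (x - 2) * (x - 3) / 24 := by
    rw [gs 3 (by omega), g3]; push_cast; ring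
  have g5 : (n.choose 5 : ℝ) = x * (x - 1) * (x - 2) * (x - 3) * (x - 4) / 120 := by
    rw [gs 4 (by omega), g4]; push_cast; ring
  have g6 : (n.choose 6 : ℝ) = x * (x - 1) * (x - 2) * (x - 3) * (x - 4) * (x - 5) / 720 := by
    rw [gs 5 (by omega), g5]; push_cast; ring
  have l3 : (x ^ 3 - 3 * x ^ 2) / 6 ≤ (n.choose 3 : ℝ) := by
    rw [g3]; nlinarith
  have l4 : (x ^ 4 - 6 * x ^ 3) / 24 ≤ (n.choose 4 : ℝ) := by
    rw [g4]; nlinarith
  have l5 : (x ^ 5 - 10 * x ^ 4) / 120 ≤ (n.choose 5 : ℝ) := by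
    rw [g5]
    have : 0 ≤ x ^ 2 * (35 * x - 50) := mul_nonneg (by positivity) (by linarith)
    nlinarith
  have l6 : (x ^ 6 - 15 * x ^ 5) / 720 ≤ (n.choose 6 : ℝ) := by
    rw [g6]
    have h1 : 0 ≤ x ^ 3 * (85 * x - 225) := mul_nonneg (by positivity) (by linarith)
    have h2 : 0 ≤ x * (274 * x - 120) := mul_nonneg (by positivity) (by linarith)
    nlinarith
  have hl := lin_nonneg (1 / x) (x * t) (by positivity) (by
    rw [div_le_div_iff₀ hn0 (by norm_num)]; linarith) (by positivity)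
  have hlin : lin (1 / x) (x * t) = (aq : ℝ) - (x - 1) * t +
      (cq 2 : ℝ) * (x * (x - 1) / 2) * t ^ 2 + (cq 3 : ℝ) * ((x ^ 3 - 3 * x ^ 2) / 6) * t ^ 3 +
      (cq 4 : ℝ) * ((x ^ 4 - 6 * x ^ 3) / 24) * t ^ 4 +
      (cq 5 : ℝ) * ((x ^ 5 - 10 * x ^ 4) / 120) * t ^ 5 +
      (cq 6 : ℝ) * ((x ^ 6 - 15 * x ^ 5) / 720) * t ^ 6 := by
    unfold lin
    field_simp
  rw [hlin] at hl
  have q3 : (0 : ℝ) ≤ cq 3 := by exact_mod_cast cq_nonneg 3
  have q4 : (0 : ℝ) ≤ cq 4 := by exact_mod_cast cq_nonneg 4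
  have q5 : (0 : ℝ) ≤ cq 5 := by exact_mod_cast cq_nonneg 5
  have q6 : (0 : ℝ) ≤ cq 6 := by exact_mod_cast cq_nonneg 6
  have m3 := mul_le_mul_of_nonneg_right (mul_le_mul_of_nonneg_left l3 q3) (pow_nonneg ht 3)
  have m4 := mul_le_mul_of_nonneg_right (mul_le_mul_of_nonneg_left l4 q4) (pow_nonneg ht 4)
  have m5 := mul_le_mul_of_nonneg_right (mul_le_mul_of_nonneg_left l5 q5) (pow_nonneg ht 5)
  have m6 := mul_le_mul_of_nonneg_right (mul_le_mul_of_nonneg_left l6 q6) (pow_nonneg ht 6)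
  rw [g2]
  linarith

theorem dom_all (n : ℕ) (t : ℝ) (ht : 0 ≤ t) :
    ((n : ℝ) - 1) * t ≤ (aq : ℝ) +
      ∑ r ∈ range (n + 1), (n.choose r : ℝ) * ((cq r : ℝ) * t ^ r) := by
  rcases lt_or_ge n 2 with h | h
  · have h0 : 0 ≤ ∑ r ∈ range (n + 1), (n.choose r : ℝ) * ((cq r : ℝ) * t ^ r) :=
      Finset.sum_nonneg fun r _ => mul_nonneg (by positivity)
        (mul_nonneg (by exact_mod_cast cq_nonneg r) (pow_nonneg ht r))
    have h1 : ((n : ℝ) - 1) * t ≤ 0 := by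
      have : (n : ℝ) ≤ 1 := by exact_mod_cast Nat.lt_succ_iff.1 h
      exact mul_nonpos_of_nonpos_of_nonneg (by linarith) ht
    have h2 : (0 : ℝ) ≤ aq := by norm_num [aq]
    linarith
  · rcases le_or_gt n 139 with h' | h'
    · exact dom_small n h h' t ht
    · exact dom_large n h' t ht

/-- **Every number of players.** -/
theorem values_le (k : ℕ) (hk : 0 < k) {v : ℝ} (hv : v ∈ values k) : v ≤ 0.6525 := by
  have h := le_of_mem_values (isCert hk (aq : ℝ) (fun r => (cq r : ℝ)) (by norm_num [aq])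
    (fun r => by exact_mod_cast cq_nonneg r) (fun n _ t ht => dom_all n t ht)) hk hv
  simp only [poly_const] at h
  refine h.trans ?_
  simp only [Fintype.sum_bool, sum_range_eq]
  have hk' : (0 : ℝ) < k := by exact_mod_cast hk
  have hc : ∀ r, (k.choose r : ℝ) * (1 / (2 * (k : ℝ))) ^ r ≤ 1 / (2 ^ r * (r.factorial : ℝ)) := by
    intro r
    have h1 := Nat.choose_le_pow_div (α := ℝ) r k
    calc (k.choose r : ℝ) * (1 / (2 * (k : ℝ))) ^ r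
        ≤ ((k : ℝ) ^ r / (r.factorial : ℝ)) * (1 / (2 * (k : ℝ))) ^ r :=
          mul_le_mul_of_nonneg_right h1 (by positivity)
      _ = 1 / (2 ^ r * (r.factorial : ℝ)) := by
          rw [div_pow, mul_pow, one_pow]
          field_simp
  have b2 := hc 2
  have b3 := hc 3
  have b4 := hc 4
  have b5 := hc 5
  have b6 := hc 6
  have e2 : ((2 : ℕ).factorial : ℝ) = 2 := by norm_num [Nat.factorial]
  have e3 : ((3 : ℕ).factorial : ℝ) = 6 := by norm_num [Nat.factorial]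
  have e4 : ((4 : ℕ).factorial : ℝ) = 24 := by norm_num [Nat.factorial]
  have e5 : ((5 : ℕ).factorial : ℝ) = 120 := by norm_num [Nat.factorial]
  have e6 : ((6 : ℕ).factorial : ℝ) = 720 := by norm_num [Nat.factorial]
  rw [e2] at b2
  rw [e3] at b3
  rw [e4] at b4
  rw [e5] at b5
  rw [e6] at b6
  norm_num [cq, aq] at b2 b3 b4 b5 b6 ⊢
  linarith

end Pool.Agent.Y171.CG
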