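import Mathlib

/-!
# Cryptogenography: the model (problem MP_5b9e43_lc)

Players `Fin k`; the secret bit `x` and the owner `j` are uniform and independent.  Player `i` has an
arbitrary probability space `Ω i` as its private randomness.  A protocol is a finite tree; at an
inner node the tree prescribes the player who writes the next bit, and this bit is a function of
the position in the tree (that is, of the transcript), of what the player knows (`some x` if it is
the owner, `none` otherwise) and of its private randomness.  A leaf carries the output bit.
-/

open MeasureTheory

namespace Pool.Agent.Y171.CG

/-- A finite public-blackboard protocol for the players `Fin k` with private randomness in `Ω i`.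
`msg v ω` is the bit that player `i` writes when it knows `v` (`some x` : it is the owner and the
secret is `x`, `none` : it is not the owner) and its private randomness is `ω`. -/
inductive Protocol {k : ℕ} (Ω : Fin k → Type) [∀ i, MeasurableSpace (Ω i)] : Type where
  | output (b : Bool) : Protocol Ω
  | write (i : Fin k) (msg : Option Bool → Ω i → Bool) (hmsg : ∀ v, Measurable (msg v))
      (next : Bool → Protocol Ω) : Protocol Ω

/-- What player `i` knows when the secret is `x` and its owner is `j`. -/
def know {k : ℕ} (x : Bool) (j i : Fin k) : Option Bool := if i = j then some x else none

namespace Protocol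

variable {k : ℕ} {Ω : Fin k → Type} [∀ i, MeasurableSpace (Ω i)]

/-- The transcript of the protocol (the bits written on the blackboard, in order). -/
def transcript : Protocol Ω → Bool → Fin k → (∀ i, Ω i) → List Bool
  | output _, _, _, _ => []
  | write i msg _ next, x, j, ω =>
      msg (know x j i) (ω i) :: transcript (next (msg (know x j i) (ω i))) x j ω

/-- The output bit of the protocol. -/
def result : Protocol Ω → Bool → Fin k → (∀ i, Ω i) → Bool
  | output b, _, _, _ => b
  | write i msg _ next, x, j, ω => result (next (msg (know x j i) (ω i))) x j ω

/-- The probability that the players win against the eavesdropper who guesses `g t` when the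
transcript is `t`: the output is the secret bit `x` and the guess is not the owner `j`. -/
noncomputable def winProb (P : Protocol Ω) (ρ : ∀ i, Measure (Ω i)) (g : List Bool → Fin k) : ℝ :=
  ∑ x : Bool, ∑ j : Fin k, 1 / (2 * (k : ℝ)) *
    (Measure.pi ρ).real {ω | P.result x j ω = x ∧ g (P.transcript x j ω) ≠ j}

/-- The winning probability of the players against an optimal eavesdropper. -/
noncomputable def value (P : Protocol Ω) (ρ : ∀ i, Measure (Ω i)) : ℝ :=
  ⨅ g : List Bool → Fin k, P.winProb ρ g

end Protocol

/-- The set of all winning probabilities of protocols for `k` players. -/
def values (k : ℕ) : Set ℝ :=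
  {v | ∃ (Ω : Fin k → Type) (_ : ∀ i, MeasurableSpace (Ω i)) (ρ : ∀ i, Measure (Ω i))
    (_ : ∀ i, IsProbabilityMeasure (ρ i)) (P : Protocol Ω), P.value ρ = v}

/-- `s_k`: the supremum of the winning probability over all finite protocols. -/
noncomputable def s (k : ℕ) : ℝ := sSup (values k)

end Pool.Agent.Y171.CG
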