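import Mathlib

/-!
# Cryptogenography: kernel check of two step sequences

A step sequence is given by a list of pairs `(r, G)`: the value is `G / 65536` from the index `r`
on.  A row of numbers `H c = G ^ c * F g c (G / 65536)`, `c < r`, is encoded in base `2 ^ (24 s)`,
where `s` is the next index of the list.
-/

namespace Pool.Agent.Y171.CG

/-- The Taylor shift of a row encoded in base `B`; the result is encoded in base `B'`. -/
def tay (B B' δ : ℕ) : ℕ → ℕ → ℕ
  | 0, _ => 0
  | n + 1, T => T % B + B' * tay B B' δ n (T / B + δ * T)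

/-- `2 ^ 60` times the sum of `F c / (c (c - 1))`, rounded down term by term. -/
def tsum (B G : ℕ) : ℕ → ℕ → ℕ → ℕ → ℕ
  | 0, _, _, _ => 0
  | n + 1, c, P, h =>
      h % B * 1152921504606846976 / (P * (c * (c - 1))) + tsum B G n (c + 1) (P * G) (h / B)

/-- Bases. -/
def bas (r : ℕ) : ℕ := 2 ^ (24 * r)

/-- First component of the head. -/
def hdr : List (ℕ × ℕ) → ℕ → ℕ
  | [], r => r
  | (a, _) :: _, _ => a

/-- The subsolution inequality. -/
def chkL (r G B h : ℕ) : Bool :=
  Nat.ble (G * (1152921504606846976 - tsum B G r 0 1 h) * r)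
    (65536 * 1152921504606846976 * (r - 1))

/-- The supersolution inequality. -/
def chkU (r N G B h : ℕ) : Bool :=
  Nat.ble (65536 * 1152921504606846976 * (N - 1))
    (G * (1152921504606846976 - (tsum B G r 0 1 h + r)) * N)

/-- The last supersolution inequality. -/
def chkE (r G B h : ℕ) : Bool :=
  Nat.ble (65536 * 1152921504606846976)
    (G * (1152921504606846976 - (tsum B G r 0 1 h + r)))

/-- All checks of a subsolution. -/
def goL (fin : ℕ → ℕ → ℕ → ℕ → Bool) : List (ℕ × ℕ) → ℕ → ℕ → ℕ → Bool
  | [], r, G, h => chkL r G (bas r) h && fin r G (bas r) h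
  | (r', G') :: t, r, G, h => chkL r G (bas r') h && (Nat.ble G G' && (Nat.ble G' 16777216 &&
      (Nat.ble (r + 1) r' &&
        goL fin t r' G' (tay (bas r') (bas (hdr t r')) (G' - G) r' h))))

/-- All checks of a supersolution. -/
def goU (fin : ℕ → ℕ → ℕ → ℕ → Bool) : List (ℕ × ℕ) → ℕ → ℕ → ℕ → Bool
  | [], r, G, h => chkE r G (bas r) h && fin r G (bas r) h
  | (r', G') :: t, r, G, h => chkU r (r' - 1) G (bas r') h && (Nat.ble G G' &&
      (Nat.ble G' 16777216 && (Nat.ble (r + 1) r' &&
        goU fin t r' G' (tay (bas r') (bas (hdr t r')) (G' - G) r' h))))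

/-- `K F c / c!`, rounded down, plus `e`. -/
def vli (B G K e : ℕ) : ℕ → ℕ → ℕ → ℕ → List ℕ
  | 0, _, _, _ => []
  | n + 1, c, P, h => (h % B * K / P + e) :: vli B G K e n (c + 1) (P * (G * (c + 1))) (h / B)

/-- The weights `(n - 2)! 2 ^ (2 m - n)`. -/
def wli : ℕ → ℕ → ℕ → ℕ → List ℕ
  | 0, _, _, _ => []
  | k + 1, n, f, e => (f * e) :: wli k (n + 1) (f * (n - 1)) (e / 2)

/-- Scalar products. -/
def dot : List ℕ → List ℕ → ℕ
  | [], _ => 0
  | _, [] => 0
  | a :: l, b :: l' => a * b + dot l l'

/-- Double sums. -/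
def dds (v : List ℕ) : List ℕ → List ℕ → ℕ
  | [], _ => 0
  | a :: l, w => a * dot v w + dds v l w.tail

/-- `G (K^2 4^r - X) / (65536 K^2 4^r) ≥ num / 10000`. -/
def finL (num r G B h : ℕ) : Bool :=
  let K := 1152921504606846976 * (r - 1).factorial
  Nat.ble (num * (65536 * (K * K * 4 ^ r)))
    (10000 * (G * (K * K * 4 ^ r -
      dds (vli B G K 1 r 0 1 h) (vli B G K 1 r 0 1 h)
        (0 :: 0 :: wli (2 * r - 3) 2 1 (2 ^ (2 * r - 2))))))

/-- `G (K^2 4^r - X) / (65536 K^2 4^r) ≤ num / 10000`. -/
def finU (num r G B h : ℕ) : Bool :=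
  let K := 1152921504606846976 * (r - 1).factorial
  Nat.ble (10000 * (G * (K * K * 4 ^ r -
      dds (vli B G K 0 r 0 1 h) (vli B G K 0 r 0 1 h)
        (0 :: 0 :: wli (2 * r - 3) 2 1 (2 ^ (2 * r - 2))))))
    (num * (65536 * (K * K * 4 ^ r)))

/-- The steps of the subsolution after the first. -/
def tabL : List (ℕ × ℕ) := [
  (3, 72589), (4, 113199), (5, 154067), (6, 195052), (7, 236101), (8, 277187), (9, 318297),
  (10, 359425), (11, 400563), (12, 441712), (13, 482866), (14, 524026), (15, 565190),
  (16, 606357), (17, 647527), (18, 688699), (19, 729873), (20, 771049), (21, 812227),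
  (22, 853405), (23, 894584), (24, 935764), (25, 976945), (26, 1018127), (27, 1059309),
  (28, 1100492), (29, 1141676), (30, 1182859), (31, 1224044), (32, 1265228), (33, 1306413),
  (34, 1347598), (35, 1388783), (36, 1429969), (37, 1471155), (38, 1512341), (39, 1553528),
  (40, 1594714), (42, 1682087), (44, 1765806), (46, 1848890), (48, 1931734), (50, 2014455),
  (52, 2097104), (54, 2179703), (56, 2262269), (58, 2344809), (60, 2427330), (63, 2555203),
  (66, 2680001), (69, 2804266), (72, 2928323), (75, 3052272), (78, 3176153), (81, 3299987),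
  (85, 3468652), (89, 3634582), (93, 3800038), (97, 3965306), (101, 4130474), (106, 4340098),
  (111, 4547209), (116, 4753881), (121, 4960375), (127, 5211032), (133, 5459339), (139, 5707232),
  (145, 5954953), (152, 6246620), (159, 6536091), (166, 6825176), (174, 7157980), (182, 7488675),
  (191, 7862747), (200, 8234731)]

/-- The steps of the supersolution after the first. -/
def tabU : List (ℕ × ℕ) := [
  (3, 72589), (4, 113198), (5, 154066), (6, 195051), (7, 236099), (8, 277185), (9, 318295),
  (10, 359421), (11, 400561), (12, 441708), (13, 482863), (14, 524022), (15, 565186),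
  (16, 606353), (17, 647523), (18, 688695), (19, 729868), (20, 771044), (21, 812221),
  (22, 853399), (23, 894579), (24, 935758), (25, 976939), (26, 1018121), (27, 1059303),
  (28, 1100486), (29, 1141669), (30, 1182852), (31, 1224036), (32, 1265220), (33, 1306405),
  (34, 1347590), (35, 1388776), (36, 1429961), (37, 1471146), (38, 1512332), (39, 1553519),
  (40, 1611497), (42, 1690813), (44, 1771833), (46, 1853370), (48, 1935147), (50, 2017060),
  (52, 2099059), (54, 2181119), (56, 2263224), (58, 2345361), (60, 2441509), (63, 2562038),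
  (66, 2684173), (69, 2806799), (72, 2929657), (75, 3052653), (78, 3175737), (81, 3311176),
  (85, 3472919), (89, 3636185), (93, 3799921), (97, 3963883), (101, 4139088), (106, 4341982),
  (111, 4546347), (116, 4751172), (121, 4966446), (127, 5210479), (133, 5455939), (139, 5701857),
  (145, 5957546), (152, 6242804), (159, 6529428), (166, 6825459), (174, 7151804), (182, 7487979),
  (191, 7855255), (200, 8747921)]

set_option maxRecDepth 100000

theorem okL : goL (finL 6215) tabL 2 32768 (1 + 32768 * bas 3) = true := by decide +kernel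

theorem okU : goU (finU 6225) tabU 2 32769 (1 + 32769 * bas 3) = true := by decide +kernel

end Pool.Agent.Y171.CG
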