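import Pool.Agent.Y171.CG.Stm

/-!
# Cryptogenography (MP_5b9e43_lc): statements for step sequences

For a nondecreasing sequence `g` which is constant `= x` from the index `m` on, `J g n` and the
limit of `W g k` are finite expressions in `x` and in the numbers `F g c x`, `c < m`.
(Division by zero is zero, so the terms with index `0` and `1` of the sums below vanish.)
-/

open MeasureTheory Finset Set Filter Topology

namespace Pool.Agent.Y171.CG

/-- Integral of a binomial weight. -/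
def S_INT : Prop := ∀ (n c : ℕ) (x : ℝ), 2 ≤ c → c ≤ n → 0 < x →
  IntegrableOn (fun z : ℝ => bw n (x / z) c) (Set.Ioi x) ∧
    ∫ z in Set.Ioi x, bw n (x / z) c = x * n / ((c : ℝ) * ((c : ℝ) - 1))

/-- `J g n` for `g` constant on `[m, n]`. -/
def S_JST : Prop := ∀ (g : ℕ → ℝ) (n m : ℕ) (x : ℝ), 2 ≤ m → m ≤ n → 0 < x →
  (∀ r, 2 ≤ r → r ≤ n → g r ≤ x) → (∀ r, m ≤ r → r ≤ n → g r = x) →
  J g n = (n : ℝ) * (x * (1 - ∑ c ∈ range m, F g c x / ((c : ℝ) * ((c : ℝ) - 1))))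

/-- The limit of `W g k` for `g` constant from `m` on. -/
def S_WLM : Prop := ∀ (g : ℕ → ℝ) (m : ℕ) (x : ℝ), 2 ≤ m → 0 < x →
  (∀ r, 2 ≤ r → g r ≤ x) → (∀ r, m ≤ r → g r = x) →
  Tendsto (W g) atTop (𝓝 (x * (1 - ∑ n ∈ range (2 * m - 1),
    (∑ c ∈ range (n + 1), (n.choose c : ℝ) * (F g c x * F g (n - c) x)) /
      (2 ^ n * ((n : ℝ) * ((n : ℝ) - 1))))))

/-- The antithetic functional is asymptotically at most the independent one (bounded `g`). -/
def S_WAU : Prop := ∀ (g : ℕ → ℝ) (x : ℝ), 0 < x → (∀ r, 2 ≤ r → 0 ≤ g r ∧ g r ≤ x) →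
  ∀ e : ℝ, 0 < e → ∀ᶠ k : ℕ in atTop, Wa g k ≤ W g k + e

end Pool.Agent.Y171.CG
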