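import Pool.Agent.Y171.CG.Num
import Pool.Agent.Y171.CG.Stm2
import Pool.Agent.Y171.CG.Tool

/-!
# Cryptogenography: meaning of the kernel check
-/

open MeasureTheory Finset Filter Topology

namespace Pool.Agent.Y171.CG

/-! ### The Taylor shift -/

/-- The table of the Taylor shift. -/
def TT (δ : ℕ) (H : ℕ → ℕ) : ℕ → ℕ → ℕ
  | 0, i => H i
  | k + 1, i => TT δ H k (i + 1) + δ * TT δ H k i

theorem TT_eq (δ : ℕ) (H : ℕ → ℕ) : ∀ k i : ℕ,
    TT δ H k i = ∑ c ∈ range (k + 1), k.choose c * δ ^ (k - c) * H (i + c)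
  | 0, i => by simp [TT]
  | k + 1, i => by
    rw [TT, TT_eq δ H k (i + 1), TT_eq δ H k i, Finset.sum_range_succ' _ (k + 1)]
    have h1 : ∑ c ∈ range (k + 1), (k + 1).choose (c + 1) * δ ^ (k + 1 - (c + 1)) * H (i + (c + 1))
        = ∑ c ∈ range (k + 1), k.choose c * δ ^ (k - c) * H (i + 1 + c) +
          ∑ c ∈ range (k + 1), k.choose (c + 1) * δ ^ (k - c) * H (i + (c + 1)) := by
      rw [← Finset.sum_add_distrib]
      apply Finset.sum_congr rfl
      intro c _
      rw [Nat.choose_succ_succ, Nat.add_sub_add_right, show i + 1 + c = i + (c + 1) by ring]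
      ring
    rw [h1, add_assoc]
    congr 1
    rw [Finset.sum_range_succ' (fun c => k.choose c * δ ^ (k - c) * H (i + c)) k,
      Finset.sum_range_succ _ k, Nat.choose_succ_self, mul_add, Finset.mul_sum]
    simp only [zero_mul, add_zero, Nat.choose_zero_right, one_mul, Nat.sub_zero]
    congr 1
    · apply Finset.sum_congr rfl
      intro c hc
      have hc' : c < k := Finset.mem_range.1 hc
      rw [show k - c = (k - (c + 1)) + 1 by omega, pow_succ]
      ring
    · rw [pow_succ]
      ring

theorem TT_zero (δ : ℕ) (H : ℕ → ℕ) (r : ℕ) (hH : ∀ c, r ≤ c → H c = 0) :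
    ∀ k i : ℕ, r ≤ i → TT δ H k i = 0
  | 0, i, hi => hH i hi
  | k + 1, i, hi => by
    rw [TT, TT_zero δ H r hH k (i + 1) (by omega), TT_zero δ H r hH k i hi]
    simp

theorem tay_eq (B B' δ : ℕ) (H : ℕ → ℕ) (r : ℕ) (hH : ∀ c, r ≤ c → H c = 0) (hB : 0 < B) :
    ∀ n k : ℕ, (∀ j < n, TT δ H (k + j) 0 < B) →
      tay B B' δ n (∑ i ∈ range r, TT δ H k i * B ^ i) =
        ∑ j ∈ range n, TT δ H (k + j) 0 * B' ^ j
  | 0, k, _ => by simp [tay]
  | n + 1, k, h => by
    have h0 : TT δ H k 0 < B := by simpa using h 0 (by omega)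
    have hE : ∑ i ∈ range r, TT δ H k i * B ^ i =
        TT δ H k 0 + B * ∑ i ∈ range r, TT δ H k (i + 1) * B ^ i := by
      have h1 : ∑ i ∈ range (r + 1), TT δ H k i * B ^ i = ∑ i ∈ range r, TT δ H k i * B ^ i := by
        rw [Finset.sum_range_succ, TT_zero δ H r hH k r le_rfl, zero_mul, add_zero]
      rw [← h1, Finset.sum_range_succ', Finset.mul_sum, pow_zero, mul_one, add_comm]
      congr 1
      apply Finset.sum_congr rfl
      intro i _
      ring
    rw [tay]
    have hmod : (∑ i ∈ range r, TT δ H k i * B ^ i) % B = TT δ H k 0 := by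
      rw [hE, Nat.add_mul_mod_self_left, Nat.mod_eq_of_lt h0]
    have hdiv : (∑ i ∈ range r, TT δ H k i * B ^ i) / B =
        ∑ i ∈ range r, TT δ H k (i + 1) * B ^ i := by
      rw [hE, Nat.add_mul_div_left _ _ hB, Nat.div_eq_of_lt h0, zero_add]
    have hnext : (∑ i ∈ range r, TT δ H k i * B ^ i) / B +
        δ * ∑ i ∈ range r, TT δ H k i * B ^ i = ∑ i ∈ range r, TT δ H (k + 1) i * B ^ i := by
      rw [hdiv, Finset.mul_sum, ← Finset.sum_add_distrib]
      apply Finset.sum_congr rfl
      intro i _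
      rw [TT]
      ring
    rw [hnext, hmod, tay_eq B B' δ H r hH hB n (k + 1) (by
      intro j hj
      have := h (j + 1) (by omega)
      rwa [show k + (j + 1) = k + 1 + j by ring] at this)]
    rw [Finset.sum_range_succ', Finset.mul_sum, pow_zero, mul_one, add_zero, add_comm]
    congr 1
    apply Finset.sum_congr rfl
    intro j _
    rw [show k + (j + 1) = k + 1 + j by ring]
    ring

/-! ### Digits -/

theorem enc_succ (B : ℕ) (H : ℕ → ℕ) (n c : ℕ) :
    ∑ i ∈ range (n + 1), H (c + i) * B ^ i =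
      H c + B * ∑ i ∈ range n, H (c + 1 + i) * B ^ i := by
  rw [Finset.sum_range_succ', Finset.mul_sum, pow_zero, mul_one, add_zero, add_comm]
  congr 1
  apply Finset.sum_congr rfl
  intro i _
  rw [show c + (i + 1) = c + 1 + i by ring]
  ring

theorem tsum_eq (B G : ℕ) (hB : 0 < B) (H : ℕ → ℕ) :
    ∀ n c : ℕ, (∀ i < n, H (c + i) < B) →
      tsum B G n c (G ^ c) (∑ i ∈ range n, H (c + i) * B ^ i) =
        ∑ i ∈ range n, H (c + i) * 1152921504606846976 /
          (G ^ (c + i) * ((c + i) * (c + i - 1)))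
  | 0, c, _ => by simp [tsum]
  | n + 1, c, h => by
    have h0 : H c < B := by simpa using h 0 (by omega)
    rw [tsum, enc_succ, Nat.add_mul_mod_self_left, Nat.mod_eq_of_lt h0,
      Nat.add_mul_div_left _ _ hB, Nat.div_eq_of_lt h0, zero_add, ← pow_succ,
      tsum_eq B G hB H n (c + 1) (by
        intro i hi
        have := h (i + 1) (by omega)
        rwa [show c + (i + 1) = c + 1 + i by ring] at this)]
    generalize 1152921504606846976 = S
    rw [Finset.sum_range_succ' _ n, add_comm]
    simp only [add_zero]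
    refine congrArg₂ _ ?_ rfl
    apply Finset.sum_congr rfl
    intro i _
    rw [show c + (i + 1) = c + 1 + i by ring]

theorem vli_getD (B G K e : ℕ) (hB : 0 < B) (H : ℕ → ℕ) :
    ∀ n c : ℕ, (∀ i < n, H (c + i) < B) → ∀ j < n,
      (vli B G K e n c (G ^ c * c.factorial) (∑ i ∈ range n, H (c + i) * B ^ i)).getD j 0 =
        H (c + j) * K / (G ^ (c + j) * (c + j).factorial) + e
  | 0, c, _, j, hj => absurd hj (by omega)
  | n + 1, c, h, j, hj => by
    have h0 : H c < B := by simpa using h 0 (by omega)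
    have hP : G ^ c * c.factorial * (G * (c + 1)) = G ^ (c + 1) * (c + 1).factorial := by
      rw [Nat.factorial_succ, pow_succ]
      ring
    rw [vli, enc_succ, Nat.add_mul_mod_self_left, Nat.mod_eq_of_lt h0,
      Nat.add_mul_div_left _ _ hB, Nat.div_eq_of_lt h0, zero_add, hP]
    cases j with
    | zero => simp
    | succ j =>
      rw [List.getD_cons_succ, vli_getD B G K e hB H n (c + 1) (by
        intro i hi
        have := h (i + 1) (by omega)
        rwa [show c + (i + 1) = c + 1 + i by ring] at this) j (by omega)]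
      rw [show c + (j + 1) = c + 1 + j by ring]

theorem vli_length (B G K e : ℕ) : ∀ n c P h : ℕ, (vli B G K e n c P h).length = n
  | 0, _, _, _ => rfl
  | n + 1, c, P, h => by rw [vli, List.length_cons, vli_length B G K e n]

/-- The weights. -/
def ww (r n : ℕ) : ℕ := if n < 2 then 0 else (n - 2).factorial * 2 ^ (2 * r - n)

theorem wli_getD (r : ℕ) : ∀ k n : ℕ, 2 ≤ n → n + k ≤ 2 * r + 1 → ∀ j < k,
    (wli k n (n - 2).factorial (2 ^ (2 * r - n))).getD j 0 = ww r (n + j)
  | 0, n, _, _, j, hj => absurd hj (by omega)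
  | k + 1, n, hn, hk, j, hj => by
    rw [wli]
    cases j with
    | zero =>
      rw [List.getD_cons_zero, ww, if_neg (by omega), add_zero]
    | succ j =>
      have h1 : (n - 2).factorial * (n - 1) = (n + 1 - 2).factorial := by
        rw [show n + 1 - 2 = (n - 2) + 1 by omega, Nat.factorial_succ,
          show n - 2 + 1 = n - 1 by omega]
        ring
      have h2 : 2 ^ (2 * r - n) / 2 = 2 ^ (2 * r - (n + 1)) := by
        rw [show 2 * r - n = (2 * r - (n + 1)) + 1 by omega, pow_succ,
          Nat.mul_div_cancel _ (by norm_num)]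
      rw [List.getD_cons_succ, h1, h2, wli_getD r k (n + 1) (by omega) (by omega) j (by omega),
        show n + (j + 1) = n + 1 + j by ring]

theorem wl_getD (r : ℕ) (hr : 2 ≤ r) (n : ℕ) (hn : n < 2 * r - 1) :
    (0 :: 0 :: wli (2 * r - 3) 2 1 (2 ^ (2 * r - 2))).getD n 0 = ww r n := by
  rcases n with _ | _ | n
  · rfl
  · rfl
  · have h := wli_getD r (2 * r - 3) 2 le_rfl (by omega) n (by omega)
    rw [List.getD_cons_succ, List.getD_cons_succ]
    rw [show (2 - 2 : ℕ).factorial = 1 from rfl] at h
    rw [h, add_comm]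

theorem dot_eq : ∀ l l' : List ℕ, dot l l' = ∑ i ∈ range l.length, l.getD i 0 * l'.getD i 0
  | [], l' => by simp [dot]
  | a :: l, [] => by simp [dot]
  | a :: l, b :: l' => by
    rw [dot, dot_eq l l', List.length_cons, Finset.sum_range_succ', add_comm]
    simp

theorem dds_eq (v : List ℕ) : ∀ l w : List ℕ, dds v l w =
    ∑ c ∈ range l.length, ∑ d ∈ range v.length, l.getD c 0 * (v.getD d 0 * w.getD (c + d) 0)
  | [], w => by simp [dds]
  | a :: l, w => by
    rw [dds, dds_eq v l w.tail, List.length_cons, Finset.sum_range_succ', add_comm, dot_eq]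
    congr 1
    · apply Finset.sum_congr rfl
      intro c _
      apply Finset.sum_congr rfl
      intro d _
      rw [List.getD_cons_succ]
      congr 2
      cases w with
      | nil => simp
      | cons b w => rw [List.tail_cons, show c + 1 + d = (c + d) + 1 by ring, List.getD_cons_succ]
    · rw [Finset.mul_sum]
      apply Finset.sum_congr rfl
      intro d _
      simp

end Pool.Agent.Y171.CG
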