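import Pool.Agent.Y171.CG.NumS
import Pool.Agent.Y171.CG.Main

/-!
# Cryptogenography: soundness of the kernel check
-/

open MeasureTheory Finset Filter Topology

namespace Pool.Agent.Y171.CG

/-- The value of a step list. -/
def sf : List (ℕ × ℕ) → ℕ → ℕ → ℕ
  | [], v, _ => v
  | (r', G') :: t, v, r => if r' ≤ r then sf t G' r else v

/-- The step sequence of a list. -/
noncomputable def gs (t : List (ℕ × ℕ)) (v r : ℕ) : ℝ := (sf t v r : ℝ) / 65536

/-- The invariant of the check. -/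
structure Inv (g : ℕ → ℝ) (t : List (ℕ × ℕ)) (r G h : ℕ) : Prop where
  two : 2 ≤ r
  pos : 0 < G
  big : G ≤ 16777216
  eqg : ∀ c, r ≤ c → g c = gs t G c
  leg : ∀ c, 2 ≤ c → c < r → g c ≤ (G : ℝ) / 65536
  row : ∃ H : ℕ → ℕ, (∀ c, c < r → (H c : ℝ) = (G : ℝ) ^ c * F g c ((G : ℝ) / 65536)) ∧
    (∀ c, r ≤ c → H c = 0) ∧ h = ∑ c ∈ range r, H c * bas (hdr t r) ^ c

theorem zpos {g : ℕ → ℝ} {t : List (ℕ × ℕ)} {r G h : ℕ} (hI : Inv g t r G h) :
    0 < (G : ℝ) / 65536 := by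
  have : (0 : ℝ) < G := by exact_mod_cast hI.pos
  positivity

theorem bas_pos (r : ℕ) : 0 < bas r := by unfold bas; positivity

theorem H_lt {g : ℕ → ℝ} {G r s : ℕ} {H : ℕ → ℕ} (hG : G ≤ 16777216) (hrs : r ≤ s)
    (hH : ∀ c, c < r → (H c : ℝ) = (G : ℝ) ^ c * F g c ((G : ℝ) / 65536)) :
    ∀ c, c < r → H c < bas s := by
  intro c hc
  have h1 : (H c : ℝ) ≤ (G : ℝ) ^ c := by
    rw [hH c hc]
    exact mul_le_of_le_one_right (by positivity) (F_le_one g c _)
  have h2 : H c ≤ G ^ c := by exact_mod_cast h1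
  have h3 : G ^ c ≤ (2 ^ 24) ^ c := Nat.pow_le_pow_left (by norm_num; exact hG) c
  rw [← pow_mul] at h3
  exact lt_of_le_of_lt (h2.trans h3) (Nat.pow_lt_pow_right (by norm_num) (by omega))

/-- Values of `g` on the current step. -/
theorem g_cur {g : ℕ → ℝ} {t : List (ℕ × ℕ)} {r r' G G' h : ℕ}
    (hI : Inv g ((r', G') :: t) r G h) {c : ℕ} (h1 : r ≤ c) (h2 : c < r') :
    g c = (G : ℝ) / 65536 := by
  rw [hI.eqg c h1, gs, sf, if_neg (by omega)]

theorem g_last {g : ℕ → ℝ} {r G h : ℕ} (hI : Inv g [] r G h) {c : ℕ} (h1 : r ≤ c) :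
    g c = (G : ℝ) / 65536 := by
  rw [hI.eqg c h1, gs, sf]

theorem F_cur {g : ℕ → ℝ} {t : List (ℕ × ℕ)} {r G h c : ℕ} (hI : Inv g t r G h) (h1 : r ≤ c)
    (h2 : g c = (G : ℝ) / 65536) : F g c ((G : ℝ) / 65536) = 0 :=
  Y563.CG.Fb.zer g c _ (le_trans hI.two h1) (zpos hI) h2.ge

/-- The invariant is kept. -/
theorem Inv.next {g : ℕ → ℝ} {t : List (ℕ × ℕ)} {r r' G G' h : ℕ}
    (hI : Inv g ((r', G') :: t) r G h) (hGG : G ≤ G') (hG' : G' ≤ 16777216) (hr : r < r') :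
    Inv g t r' G' (tay (bas r') (bas (hdr t r')) (G' - G) r' h) := by
  have hz := zpos hI
  have hG0 : (0 : ℝ) < G := by exact_mod_cast hI.pos
  have hGr : (G : ℝ) ≤ G' := by exact_mod_cast hGG
  have hG'0 : (0 : ℝ) < G' := lt_of_lt_of_le hG0 hGr
  have hzz : (G : ℝ) / 65536 ≤ (G' : ℝ) / 65536 := by gcongr
  obtain ⟨H, hH, hH0, hh⟩ := hI.row
  have hHall : ∀ c, c < r' → (H c : ℝ) = (G : ℝ) ^ c * F g c ((G : ℝ) / 65536) := by
    intro c hc
    by_cases hcr : c < r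
    · exact hH c hcr
    · rw [hH0 c (by omega), F_cur hI (by omega) (g_cur hI (by omega) hc)]
      simp
  have hle : ∀ c, 2 ≤ c → c < r' → g c ≤ (G : ℝ) / 65536 := by
    intro c h2 hc
    by_cases hcr : c < r
    · exact hI.leg c h2 hcr
    · exact (g_cur hI (by omega) hc).le
  have hTT : ∀ n, n < r' →
      (TT (G' - G) H n 0 : ℝ) = (G' : ℝ) ^ n * F g n ((G' : ℝ) / 65536) := by
    intro n hn
    have hthe := Y455.CG.the g n ((G : ℝ) / G') ((G' : ℝ) / 65536) (by positivity)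
      ((div_le_one hG'0).2 hGr) (by positivity) (by
        intro c h2 hc
        have : (G : ℝ) / G' * ((G' : ℝ) / 65536) = (G : ℝ) / 65536 := by field_simp
        rw [this]
        exact hle c h2 (by omega))
    rw [hthe, show (G : ℝ) / G' * ((G' : ℝ) / 65536) = (G : ℝ) / 65536 by field_simp, TT_eq,
      Nat.cast_sum, Finset.mul_sum]
    apply Finset.sum_congr rfl
    intro c hc
    have hc' : c ≤ n := by
      have := Finset.mem_range.1 hc
      omega
    rw [zero_add]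
    push_cast [Nat.cast_sub hGG]
    rw [hHall c (by omega), bw]
    have e1 : (1 : ℝ) - G / G' = (G' - G) / G' := by field_simp
    rw [e1, div_pow, div_pow]
    have e2 : (G' : ℝ) ^ n = (G' : ℝ) ^ c * (G' : ℝ) ^ (n - c) := by
      rw [← pow_add, Nat.add_sub_cancel' hc']
    rw [e2]
    field_simp
  have hlt : ∀ n, n < r' → TT (G' - G) H n 0 < bas r' :=
    H_lt (H := fun n => TT (G' - G) H n 0) hG' le_rfl hTT
  refine ⟨by have := hI.two; omega, by have := hI.pos; omega, hG', ?_, ?_, ?_⟩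
  · intro c hc
    rw [hI.eqg c (by omega), gs, gs, sf, if_pos hc]
  · intro c h2 hc
    exact (hle c h2 hc).trans hzz
  · refine ⟨fun n => if n < r' then TT (G' - G) H n 0 else 0, ?_, ?_, ?_⟩
    · intro c hc
      simp only [hc, if_true]
      exact hTT c hc
    · intro c hc
      simp only [not_lt.2 hc, if_false]
    · have h1 := tay_eq (bas r') (bas (hdr t r')) (G' - G) H r hH0 (bas_pos r') r' 0 (by
        intro j hj
        rw [zero_add]
        exact hlt j hj)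
      have h2 : ∑ i ∈ range r, TT (G' - G) H 0 i * bas r' ^ i = h := by
        rw [hh]
        rfl
      rw [h2] at h1
      rw [h1]
      apply Finset.sum_congr rfl
      intro j hj
      show _ = (if j < r' then TT (G' - G) H j 0 else 0) * bas (hdr t r') ^ j
      rw [zero_add, if_pos (Finset.mem_range.1 hj)]

/-! ### The sum and the inequalities -/

/-- The sum in `S_JST`. -/
noncomputable def SS (g : ℕ → ℝ) (r G : ℕ) : ℝ :=
  ∑ c ∈ range r, F g c ((G : ℝ) / 65536) / ((c : ℝ) * ((c : ℝ) - 1))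

theorem tsum_bounds {g : ℕ → ℝ} {t : List (ℕ × ℕ)} {r G h : ℕ} (hI : Inv g t r G h)
    (hs : r ≤ hdr t r) :
    (tsum (bas (hdr t r)) G r 0 1 h : ℝ) ≤ 1152921504606846976 * SS g r G ∧
      1152921504606846976 * SS g r G ≤ tsum (bas (hdr t r)) G r 0 1 h + r := by
  obtain ⟨H, hH, hH0, hh⟩ := hI.row
  have hG0 : (0 : ℝ) < G := by exact_mod_cast hI.pos
  have h1 := tsum_eq (bas (hdr t r)) G (bas_pos _) H r 0 (by
    intro i hi
    rw [zero_add]
    exact H_lt hI.big hs hH i hi)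
  simp only [zero_add, pow_zero] at h1
  rw [← hh] at h1
  rw [h1, SS, Finset.mul_sum, Nat.cast_sum]
  have key : ∀ c ∈ range r,
      ((H c * 1152921504606846976 / (G ^ c * (c * (c - 1))) : ℕ) : ℝ) ≤
        1152921504606846976 * (F g c ((G : ℝ) / 65536) / ((c : ℝ) * ((c : ℝ) - 1))) ∧
      1152921504606846976 * (F g c ((G : ℝ) / 65536) / ((c : ℝ) * ((c : ℝ) - 1))) ≤
        ((H c * 1152921504606846976 / (G ^ c * (c * (c - 1))) : ℕ) : ℝ) + 1 := by
    intro c hc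
    have hc' := Finset.mem_range.1 hc
    have e1 : ((c * (c - 1) : ℕ) : ℝ) = (c : ℝ) * ((c : ℝ) - 1) := by
      rcases Nat.eq_zero_or_pos c with h0 | h0
      · subst h0; simp
      · rw [Nat.cast_mul, Nat.cast_pred h0]
    have e2 : 1152921504606846976 * (F g c ((G : ℝ) / 65536) / ((c : ℝ) * ((c : ℝ) - 1))) =
        ((H c * 1152921504606846976 : ℕ) : ℝ) / ((G ^ c * (c * (c - 1)) : ℕ) : ℝ) := by
      rw [Nat.cast_mul (G ^ c), e1, Nat.cast_mul, hH c hc']
      push_cast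
      have hGc : (G : ℝ) ^ c ≠ 0 := by positivity
      rw [mul_assoc ((G : ℝ) ^ c), mul_div_mul_left _ _ hGc]
      ring
    rw [e2]
    generalize H c * 1152921504606846976 = a
    generalize G ^ c * (c * (c - 1)) = b
    refine ⟨Nat.cast_div_le, ?_⟩
    rcases Nat.eq_zero_or_pos b with h0 | h0
    · subst h0; simp
    · have h3 : (0 : ℝ) < b := by exact_mod_cast h0
      rw [div_le_iff₀ h3]
      have h4 : a ≤ (a / b + 1) * b := by
        have h5 := Nat.div_add_mod a b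
        have h6 := Nat.mod_lt a h0
        nlinarith
      exact_mod_cast h4
  refine ⟨Finset.sum_le_sum fun c hc => (key c hc).1, ?_⟩
  calc _ ≤ ∑ c ∈ range r, (((H c * 1152921504606846976 / (G ^ c * (c * (c - 1))) : ℕ) : ℝ) + 1) :=
        Finset.sum_le_sum fun c hc => (key c hc).2
    _ = _ := by
        rw [Finset.sum_add_distrib]
        simp

theorem sub_ge (a b : ℕ) : (a : ℝ) - b ≤ ((a - b : ℕ) : ℝ) := by
  have h : a ≤ (a - b) + b := by omega
  have h' : (a : ℝ) ≤ ((a - b : ℕ) : ℝ) + b := by exact_mod_cast h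
  linarith

theorem real_low {G r ts K : ℕ} {S : ℝ} (hS : (ts : ℝ) ≤ K * S) (hK : 0 < K) (hr : 1 ≤ r)
    (h : G * (K - ts) * r ≤ 65536 * K * (r - 1)) : (G : ℝ) / 65536 * (1 - S) ≤ 1 - 1 / r := by
  have hKr : (0 : ℝ) < K := by exact_mod_cast hK
  have hrr : (1 : ℝ) ≤ r := by exact_mod_cast hr
  have h1 : (G : ℝ) * ((K - ts : ℕ) : ℝ) * r ≤ 65536 * K * ((r : ℝ) - 1) := by
    rw [← Nat.cast_pred hr]
    exact_mod_cast h
  have h2 : (G : ℝ) * (K * (1 - S)) * r ≤ (G : ℝ) * ((K - ts : ℕ) : ℝ) * r := by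
    have := sub_ge K ts
    have h3 : (K : ℝ) * (1 - S) ≤ ((K - ts : ℕ) : ℝ) := by linarith
    gcongr
  have h4 : (K : ℝ) * ((G : ℝ) * (1 - S) * r) ≤ K * (65536 * ((r : ℝ) - 1)) := by
    calc (K : ℝ) * ((G : ℝ) * (1 - S) * r) = (G : ℝ) * (K * (1 - S)) * r := by ring
      _ ≤ _ := h2.trans h1
      _ = _ := by ring
  have h5 := le_of_mul_le_mul_left h4 hKr
  have h6 : (1 : ℝ) - 1 / r = ((r : ℝ) - 1) / r := by field_simp
  rw [h6, le_div_iff₀ (by linarith)]
  linarith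

theorem real_up {G r N ts K : ℕ} {S : ℝ} (hS : K * S ≤ (ts : ℝ) + r) (hK : 0 < K) (hN : 2 ≤ N)
    (h : 65536 * K * (N - 1) ≤ G * (K - (ts + r)) * N) :
    1 - 1 / (N : ℝ) ≤ (G : ℝ) / 65536 * (1 - S) := by
  have hKr : (0 : ℝ) < K := by exact_mod_cast hK
  have hNr : (2 : ℝ) ≤ N := by exact_mod_cast hN
  have hle : ts + r ≤ K := by
    by_contra hcon
    have h0 : K - (ts + r) = 0 := by omega
    rw [h0, mul_zero, zero_mul] at h
    have : 0 < 65536 * K * (N - 1) := Nat.mul_pos (by omega) (by omega)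
    omega
  have h1 : 65536 * (K : ℝ) * ((N : ℝ) - 1) ≤ (G : ℝ) * ((K : ℝ) - (ts + r)) * N := by
    have h2 : ((65536 * K * (N - 1) : ℕ) : ℝ) ≤ ((G * (K - (ts + r)) * N : ℕ) : ℝ) := by
      exact_mod_cast h
    push_cast [Nat.cast_sub hle, Nat.cast_pred (show 0 < N by omega)] at h2
    exact h2
  have h2 : (G : ℝ) * ((K : ℝ) - (ts + r)) * N ≤ (G : ℝ) * (K * (1 - S)) * N := by
    have h3 : (K : ℝ) - (ts + r) ≤ K * (1 - S) := by linarith
    gcongr
  have h4 : (K : ℝ) * (65536 * ((N : ℝ) - 1)) ≤ K * ((G : ℝ) * (1 - S) * N) := by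
    calc _ = 65536 * (K : ℝ) * ((N : ℝ) - 1) := by ring
      _ ≤ _ := h1.trans h2
      _ = _ := by ring
  have h5 := le_of_mul_le_mul_left h4 hKr
  have h6 : (1 : ℝ) - 1 / N = ((N : ℝ) - 1) / N := by field_simp
  rw [h6, div_le_iff₀ (by linarith)]
  linarith

theorem real_end {G r ts K : ℕ} {S : ℝ} (hS : K * S ≤ (ts : ℝ) + r) (hK : 0 < K)
    (h : 65536 * K ≤ G * (K - (ts + r))) : 1 ≤ (G : ℝ) / 65536 * (1 - S) := by
  have hKr : (0 : ℝ) < K := by exact_mod_cast hK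
  have hle : ts + r ≤ K := by
    by_contra hcon
    have h0 : K - (ts + r) = 0 := by omega
    rw [h0, mul_zero] at h
    omega
  have h1 : 65536 * (K : ℝ) ≤ (G : ℝ) * ((K : ℝ) - (ts + r)) := by
    have h2 : ((65536 * K : ℕ) : ℝ) ≤ ((G * (K - (ts + r)) : ℕ) : ℝ) := by exact_mod_cast h
    push_cast [Nat.cast_sub hle] at h2
    exact h2
  have h2 : (G : ℝ) * ((K : ℝ) - (ts + r)) ≤ (G : ℝ) * (K * (1 - S)) := by
    have h3 : (K : ℝ) - (ts + r) ≤ K * (1 - S) := by linarith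
    gcongr
  have h4 : (K : ℝ) * 65536 ≤ K * ((G : ℝ) * (1 - S)) := by
    calc _ = 65536 * (K : ℝ) := by ring
      _ ≤ _ := h1.trans h2
      _ = _ := by ring
  have h5 := le_of_mul_le_mul_left h4 hKr
  linarith

end Pool.Agent.Y171.CG
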