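import Pool.Agent.Y171.CG.NumT
import Pool.Agent.Y908.CG.Int
import Pool.Agent.Y908.CG.Wlm
import Pool.Agent.Y563.CG.Wau

/-!
# Cryptogenography: numerical bounds from the kernel check
-/

open MeasureTheory Finset Filter Topology

namespace Pool.Agent.Y171.CG

theorem J_at {g : ℕ → ℝ} {t : List (ℕ × ℕ)} {r G h n : ℕ} (hI : Inv g t r G h) (hn : r ≤ n)
    (hc : ∀ c, r ≤ c → c ≤ n → g c = (G : ℝ) / 65536) :
    J g n = (n : ℝ) * ((G : ℝ) / 65536 * (1 - SS g r G)) := by
  apply Y908.CG.jst g n r _ hI.two hn (zpos hI) ?_ hc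
  intro c h2 hcn
  by_cases hcr : c < r
  · exact hI.leg c h2 hcr
  · exact (hc c (by omega) hcn).le

theorem J_low {g : ℕ → ℝ} {t : List (ℕ × ℕ)} {r G h n : ℕ} (hI : Inv g t r G h)
    (hs : r ≤ hdr t r) (hn : r ≤ n) (hc : ∀ c, r ≤ c → c ≤ n → g c = (G : ℝ) / 65536)
    (hk : chkL r G (bas (hdr t r)) h = true) : J g n ≤ (n : ℝ) - 1 := by
  have h1 := real_low (K := 1152921504606846976) (by exact_mod_cast (tsum_bounds hI hs).1)
    (by norm_num) (le_trans (by norm_num) hI.two) (Nat.le_of_ble_eq_true hk)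
  have hr : (2 : ℝ) ≤ r := by exact_mod_cast hI.two
  have hnr : (r : ℝ) ≤ n := by exact_mod_cast hn
  rw [J_at hI hn hc]
  calc (n : ℝ) * ((G : ℝ) / 65536 * (1 - SS g r G)) ≤ n * (1 - 1 / r) := by gcongr
    _ = n - n / r := by ring
    _ ≤ n - 1 := by
        have : 1 ≤ (n : ℝ) / r := by rw [le_div_iff₀ (by linarith)]; linarith
        linarith

theorem J_up {g : ℕ → ℝ} {t : List (ℕ × ℕ)} {r G h n N : ℕ} (hI : Inv g t r G h)
    (hs : r ≤ hdr t r) (hn : r ≤ n) (hnN : n ≤ N)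
    (hc : ∀ c, r ≤ c → c ≤ n → g c = (G : ℝ) / 65536)
    (hk : chkU r N G (bas (hdr t r)) h = true) : (n : ℝ) - 1 ≤ J g n := by
  have hN : 2 ≤ N := by have := hI.two; omega
  have h1 := real_up (K := 1152921504606846976) (by exact_mod_cast (tsum_bounds hI hs).2)
    (by norm_num) hN (Nat.le_of_ble_eq_true hk)
  have hr : (2 : ℝ) ≤ N := by exact_mod_cast hN
  have hnr : (n : ℝ) ≤ N := by exact_mod_cast hnN
  rw [J_at hI hn hc]
  calc (n : ℝ) - 1 ≤ n - n / N := by
        have : (n : ℝ) / N ≤ 1 := by rw [div_le_iff₀ (by linarith)]; linarith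
        linarith
    _ = n * (1 - 1 / N) := by ring
    _ ≤ (n : ℝ) * ((G : ℝ) / 65536 * (1 - SS g r G)) := by gcongr

theorem J_end {g : ℕ → ℝ} {t : List (ℕ × ℕ)} {r G h n : ℕ} (hI : Inv g t r G h)
    (hs : r ≤ hdr t r) (hn : r ≤ n) (hc : ∀ c, r ≤ c → c ≤ n → g c = (G : ℝ) / 65536)
    (hk : chkE r G (bas (hdr t r)) h = true) : (n : ℝ) - 1 ≤ J g n := by
  have h1 := real_end (K := 1152921504606846976) (by exact_mod_cast (tsum_bounds hI hs).2)
    (by norm_num) (Nat.le_of_ble_eq_true hk)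
  rw [J_at hI hn hc]
  calc (n : ℝ) - 1 ≤ n * 1 := by linarith
    _ ≤ (n : ℝ) * ((G : ℝ) / 65536 * (1 - SS g r G)) := by gcongr

/-! ### Shape of the sequence -/

/-- Increasing lists of steps. -/
def inc : List (ℕ × ℕ) → ℕ → ℕ → Prop
  | [], _, _ => True
  | (r', G') :: t, r, G => G ≤ G' ∧ r < r' ∧ inc t r' G'

theorem inc_goL {fin : ℕ → ℕ → ℕ → ℕ → Bool} : ∀ (t : List (ℕ × ℕ)) (r G h : ℕ),
    goL fin t r G h = true → inc t r G
  | [], _, _, _, _ => trivial
  | (r', G') :: t, r, G, h, hk => by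
    rw [goL] at hk
    simp only [Bool.and_eq_true, Nat.ble_eq] at hk
    exact ⟨hk.2.1, by omega, inc_goL t r' G' _ hk.2.2.2.2⟩

theorem inc_goU {fin : ℕ → ℕ → ℕ → ℕ → Bool} : ∀ (t : List (ℕ × ℕ)) (r G h : ℕ),
    goU fin t r G h = true → inc t r G
  | [], _, _, _, _ => trivial
  | (r', G') :: t, r, G, h, hk => by
    rw [goU] at hk
    simp only [Bool.and_eq_true, Nat.ble_eq] at hk
    exact ⟨hk.2.1, by omega, inc_goU t r' G' _ hk.2.2.2.2⟩

theorem le_sf : ∀ (t : List (ℕ × ℕ)) (r G c : ℕ), inc t r G → G ≤ sf t G c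
  | [], _, _, _, _ => le_rfl
  | (r', G') :: t, r, G, c, h => by
    rw [sf]
    split_ifs
    · exact h.1.trans (le_sf t r' G' c h.2.2)
    · exact le_rfl

theorem sf_mono : ∀ (t : List (ℕ × ℕ)) (r G a b : ℕ), inc t r G → a ≤ b →
    sf t G a ≤ sf t G b
  | [], _, _, _, _, _, _ => le_rfl
  | (r', G') :: t, r, G, a, b, h, hab => by
    rw [sf, sf]
    split_ifs with h1 h2 h2
    · exact sf_mono t r' G' a b h.2.2 hab
    · omega
    · exact h.1.trans (le_sf t r' G' b h.2.2)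
    · exact le_rfl

theorem gs_mono {t : List (ℕ × ℕ)} {r G : ℕ} (h : inc t r G) {a b : ℕ} (hab : a ≤ b) :
    gs t G a ≤ gs t G b := by
  unfold gs
  have : (sf t G a : ℝ) ≤ sf t G b := by exact_mod_cast sf_mono t r G a b h hab
  gcongr

theorem gs_pos {t : List (ℕ × ℕ)} {r G : ℕ} (h : inc t r G) (hG : 0 < G) (a : ℕ) :
    0 < gs t G a := by
  unfold gs
  have h1 : 0 < sf t G a := lt_of_lt_of_le hG (le_sf t r G a h)
  have : (0 : ℝ) < sf t G a := by exact_mod_cast h1
  positivity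

/-! ### Soundness of the recursion -/

theorem goL_sound {fin : ℕ → ℕ → ℕ → ℕ → Bool} {g : ℕ → ℝ} {P : Prop}
    (hfin : ∀ r G h, Inv g [] r G h → fin r G (bas r) h = true → P) :
    ∀ (t : List (ℕ × ℕ)) (r G h : ℕ), Inv g t r G h → goL fin t r G h = true →
      (∀ n : ℕ, r ≤ n → J g n ≤ (n : ℝ) - 1) ∧ P
  | [], r, G, h, hI, hk => by
    rw [goL] at hk
    simp only [Bool.and_eq_true] at hk
    exact ⟨fun n hn => J_low hI le_rfl hn (fun c h1 _ => g_last hI h1) hk.1, hfin r G h hI hk.2⟩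
  | (r', G') :: t, r, G, h, hI, hk => by
    rw [goL] at hk
    simp only [Bool.and_eq_true, Nat.ble_eq] at hk
    obtain ⟨h1, h2, h3, h4, h5⟩ := hk
    have ih := goL_sound hfin t r' G' _ (hI.next h2 h3 (by omega)) h5
    refine ⟨fun n hn => ?_, ih.2⟩
    by_cases hnr : r' ≤ n
    · exact ih.1 n hnr
    · exact J_low hI (show r ≤ r' by omega) hn (fun c hc1 hc2 => g_cur hI hc1 (by omega)) h1

theorem goU_sound {fin : ℕ → ℕ → ℕ → ℕ → Bool} {g : ℕ → ℝ} {P : Prop}
    (hfin : ∀ r G h, Inv g [] r G h → fin r G (bas r) h = true → P) :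
    ∀ (t : List (ℕ × ℕ)) (r G h : ℕ), Inv g t r G h → goU fin t r G h = true →
      (∀ n : ℕ, r ≤ n → (n : ℝ) - 1 ≤ J g n) ∧ P
  | [], r, G, h, hI, hk => by
    rw [goU] at hk
    simp only [Bool.and_eq_true] at hk
    exact ⟨fun n hn => J_end hI le_rfl hn (fun c h1 _ => g_last hI h1) hk.1, hfin r G h hI hk.2⟩
  | (r', G') :: t, r, G, h, hI, hk => by
    rw [goU] at hk
    simp only [Bool.and_eq_true, Nat.ble_eq] at hk
    obtain ⟨h1, h2, h3, h4, h5⟩ := hk
    have ih := goU_sound hfin t r' G' _ (hI.next h2 h3 (by omega)) h5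
    refine ⟨fun n hn => ?_, ih.2⟩
    by_cases hnr : r' ≤ n
    · exact ih.1 n hnr
    · exact J_up (N := r' - 1) hI (show r ≤ r' by omega) hn (by omega)
        (fun c hc1 hc2 => g_cur hI hc1 (by omega)) h1

/-- The invariant holds at the start. -/
theorem inv_start (t : List (ℕ × ℕ)) (G : ℕ) (hG : 0 < G) (hG' : G ≤ 16777216) (s : ℕ)
    (hs : hdr t 2 = s) : Inv (gs t G) t 2 G (1 + G * bas s) := by
  refine ⟨le_rfl, hG, hG', fun c _ => rfl, fun c h2 hc => absurd hc (by omega), ?_⟩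
  refine ⟨fun c => if c = 0 then 1 else if c = 1 then G else 0, ?_, ?_, ?_⟩
  · intro c hc
    have hF : F (gs t G) c ((G : ℝ) / 65536) = 1 := by
      unfold F
      have : {u : Fin c → ℝ | ¬ Hit (gs t G) (fun _ => 1) ((G : ℝ) / 65536) u} = Set.univ := by
        ext u
        simp only [Set.mem_ofPred_eq, Set.mem_univ, iff_true]
        rintro ⟨r, hr2, hr⟩
        have h1 : ∀ f : Fin c → ℝ, cnt f ((G : ℝ) / 65536) u ≤ c := by
          intro f
          unfold cnt
          exact (Finset.card_le_univ _).trans (by simp)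
        have h2 := hr.trans (h1 _)
        omega
      rw [this]
      simp
    rw [hF]
    interval_cases c
    · simp
    · simp
  · intro c hc
    simp only [show c ≠ 0 by omega, show c ≠ 1 by omega, if_false]
  · rw [hs]
    simp [Finset.sum_range_succ]

/-! ### The double sum -/

theorem sum_antidiag (f : ℕ → ℕ → ℝ) (r : ℕ) (hr : 1 ≤ r) (h1 : ∀ c d, r ≤ c → f c d = 0)
    (h2 : ∀ c d, r ≤ d → f c d = 0) :
    ∑ n ∈ range (2 * r - 1), ∑ c ∈ range (n + 1), f c (n - c) =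
      ∑ c ∈ range r, ∑ d ∈ range r, f c d := by
  have h3 : ∀ n ∈ range (2 * r - 1), ∑ c ∈ range (n + 1), f c (n - c) =
      ∑ p ∈ (range r ×ˢ range r).filter (fun p => p.1 + p.2 = n), f p.1 p.2 := by
    intro n _
    rw [← Finset.Nat.sum_antidiagonal_eq_sum_range_succ (fun c d => f c d) n]
    symm
    apply Finset.sum_subset
    · intro p hp
      rw [Finset.mem_filter] at hp
      exact Finset.HasAntidiagonal.mem_antidiagonal.2 hp.2
    · intro p hp hp'
      have hpn := Finset.HasAntidiagonal.mem_antidiagonal.1 hp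
      by_cases ha : r ≤ p.1
      · exact h1 _ _ ha
      · by_cases hb : r ≤ p.2
        · exact h2 _ _ hb
        · exact absurd (Finset.mem_filter.2 ⟨Finset.mem_product.2
            ⟨Finset.mem_range.2 (by omega), Finset.mem_range.2 (by omega)⟩, hpn⟩) hp'
  rw [Finset.sum_congr rfl h3, Finset.sum_fiberwise_of_maps_to (f := fun p : ℕ × ℕ => f p.1 p.2),
    Finset.sum_product]
  intro p hp
  have := Finset.mem_product.1 hp
  have ha := Finset.mem_range.1 this.1
  have hb := Finset.mem_range.1 this.2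
  exact Finset.mem_range.2 (by omega)

/-- The sum in `S_WLM`. -/
noncomputable def XX (g : ℕ → ℝ) (m : ℕ) (x : ℝ) : ℝ :=
  ∑ n ∈ range (2 * m - 1), (∑ c ∈ range (n + 1), (n.choose c : ℝ) * (F g c x * F g (n - c) x)) /
    (2 ^ n * ((n : ℝ) * ((n : ℝ) - 1)))

theorem XX_eq (g : ℕ → ℝ) (r : ℕ) (x : ℝ) (hr : 1 ≤ r) (h0 : ∀ c, r ≤ c → F g c x = 0) :
    XX g r x = ∑ c ∈ range r, ∑ d ∈ range r, F g c x / c.factorial *
      (F g d x / d.factorial * ((ww r (c + d) : ℝ) / 4 ^ r)) := by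
  rw [← sum_antidiag (fun c d => F g c x / c.factorial *
      (F g d x / d.factorial * ((ww r (c + d) : ℝ) / 4 ^ r))) r hr
      (by intro c d hc; simp [h0 c hc]) (by intro c d hd; simp [h0 d hd])]
  apply Finset.sum_congr rfl
  intro n hn
  have hn' := Finset.mem_range.1 hn
  rw [Finset.sum_div]
  apply Finset.sum_congr rfl
  intro c hc
  have hcn : c ≤ n := by have := Finset.mem_range.1 hc; omega
  rw [show c + (n - c) = n by omega, ww]
  split_ifs with h2
  · have : (n : ℝ) * ((n : ℝ) - 1) = 0 := by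
      interval_cases n <;> simp
    rw [this]
    simp
  · have h3 : (4 : ℝ) ^ r = 2 ^ n * 2 ^ (2 * r - n) := by
      rw [← pow_add, Nat.add_sub_cancel' (by omega), pow_mul]
      norm_num
    have h4 : (n.factorial : ℝ) = (n : ℝ) * ((n : ℝ) - 1) * ((n - 2).factorial : ℝ) := by
      obtain ⟨m, rfl⟩ : ∃ m, n = m + 2 := ⟨n - 2, by omega⟩
      rw [Nat.factorial_succ, Nat.factorial_succ]
      push_cast
      ring
    have h5 : (n.choose c : ℝ) = n.factorial / (c.factorial * (n - c).factorial) :=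
      Nat.cast_choose ℝ hcn
    have h6 : (n : ℝ) ≠ 0 := by
      have : (0 : ℝ) < n := by exact_mod_cast (show 0 < n by omega)
      exact this.ne'
    have h7 : (n : ℝ) - 1 ≠ 0 := by
      have : (1 : ℝ) < n := by exact_mod_cast (show 1 < n by omega)
      linarith
    rw [h5, h4, h3]
    push_cast
    have h8 : (c.factorial : ℝ) ≠ 0 := by positivity
    have h9 : ((n - c).factorial : ℝ) ≠ 0 := by positivity
    field_simp

theorem real_div_bounds (a b : ℕ) : ((a / b : ℕ) : ℝ) ≤ (a : ℝ) / b ∧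
    (a : ℝ) / b ≤ ((a / b + 1 : ℕ) : ℝ) := by
  refine ⟨Nat.cast_div_le, ?_⟩
  rcases Nat.eq_zero_or_pos b with h0 | h0
  · subst h0; simp
  · have h3 : (0 : ℝ) < b := by exact_mod_cast h0
    rw [div_le_iff₀ h3]
    have h4 : a ≤ (a / b + 1) * b := by
      have h5 := Nat.div_add_mod a b
      have h6 := Nat.mod_lt a h0
      nlinarith
    exact_mod_cast h4

/-- Meaning of the double sum of the check. -/
theorem dds_val {g : ℕ → ℝ} {r G h : ℕ} (hI : Inv g [] r G h) (K e : ℕ) (hK : 0 < K) :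
    (e = 0 → (dds (vli (bas r) G K e r 0 1 h) (vli (bas r) G K e r 0 1 h)
      (0 :: 0 :: wli (2 * r - 3) 2 1 (2 ^ (2 * r - 2))) : ℝ) ≤
        XX g r ((G : ℝ) / 65536) * (K * K * 4 ^ r)) ∧
    (e = 1 → XX g r ((G : ℝ) / 65536) * (K * K * 4 ^ r) ≤
      (dds (vli (bas r) G K e r 0 1 h) (vli (bas r) G K e r 0 1 h)
      (0 :: 0 :: wli (2 * r - 3) 2 1 (2 ^ (2 * r - 2))) : ℝ)) := by
  obtain ⟨H, hH, hH0, hh⟩ := hI.row
  have hr := hI.two
  set x : ℝ := (G : ℝ) / 65536 with hx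
  have hG0 : (0 : ℝ) < G := by exact_mod_cast hI.pos
  have hv : ∀ j < r, (vli (bas r) G K e r 0 1 h).getD j 0 =
      H j * K / (G ^ j * j.factorial) + e := by
    intro j hj
    have h1 := vli_getD (bas r) G K e (bas_pos r) H r 0 (by
      intro i hi
      rw [zero_add]
      exact H_lt hI.big le_rfl hH i hi) j hj
    simp only [zero_add, pow_zero, Nat.factorial_zero, mul_one] at h1
    rw [hh]
    exact h1
  have hD : (dds (vli (bas r) G K e r 0 1 h) (vli (bas r) G K e r 0 1 h)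
      (0 :: 0 :: wli (2 * r - 3) 2 1 (2 ^ (2 * r - 2))) : ℝ) =
      ∑ c ∈ range r, ∑ d ∈ range r, ((H c * K / (G ^ c * c.factorial) + e : ℕ) : ℝ) *
        (((H d * K / (G ^ d * d.factorial) + e : ℕ) : ℝ) * (ww r (c + d) : ℝ)) := by
    rw [dds_eq, vli_length]
    push_cast
    apply Finset.sum_congr rfl
    intro c hc
    apply Finset.sum_congr rfl
    intro d hd
    have hc' := Finset.mem_range.1 hc
    have hd' := Finset.mem_range.1 hd
    rw [hv c hc', hv d hd', wl_getD r hr (c + d) (by omega)]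
    push_cast
    ring
  have hX : XX g r x * (K * K * 4 ^ r) =
      ∑ c ∈ range r, ∑ d ∈ range r, (K * (F g c x / c.factorial)) *
        ((K * (F g d x / d.factorial)) * (ww r (c + d) : ℝ)) := by
    rw [XX_eq g r x (by omega) (fun c hc => F_cur hI hc (g_last hI hc)), Finset.sum_mul]
    apply Finset.sum_congr rfl
    intro c _
    rw [Finset.sum_mul]
    apply Finset.sum_congr rfl
    intro d _
    have : (4 : ℝ) ^ r ≠ 0 := by positivity
    field_simp
  have hA : ∀ c ∈ range r, (K : ℝ) * (F g c x / c.factorial) =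
      ((H c * K : ℕ) : ℝ) / ((G ^ c * c.factorial : ℕ) : ℝ) := by
    intro c hc
    push_cast
    rw [hH c (Finset.mem_range.1 hc)]
    have hGc : (G : ℝ) ^ c ≠ 0 := by positivity
    field_simp
  have hKr : (0 : ℝ) < K := by exact_mod_cast hK
  have hF : ∀ c, 0 ≤ (K : ℝ) * (F g c x / c.factorial) := fun c =>
    mul_nonneg hKr.le (div_nonneg (F_nonneg g c x) (by positivity))
  rw [hD, hX]
  constructor
  · intro he
    subst he
    refine Finset.sum_le_sum fun c hc => Finset.sum_le_sum fun d hd => ?_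
    have h1 := (real_div_bounds (H c * K) (G ^ c * c.factorial)).1
    have h2 := (real_div_bounds (H d * K) (G ^ d * d.factorial)).1
    rw [← hA c hc] at h1
    rw [← hA d hd] at h2
    rw [add_zero, add_zero]
    have h3 := hF c
    gcongr
  · intro he
    subst he
    refine Finset.sum_le_sum fun c hc => Finset.sum_le_sum fun d hd => ?_
    have h1 := (real_div_bounds (H c * K) (G ^ c * c.factorial)).2
    have h2 := (real_div_bounds (H d * K) (G ^ d * d.factorial)).2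
    rw [← hA c hc] at h1
    rw [← hA d hd] at h2
    have h3 := hF c
    have h4 := hF d
    gcongr

theorem finL_sound {g : ℕ → ℝ} {r G h num : ℕ} (hnum : 0 < num) (hI : Inv g [] r G h)
    (hk : finL num r G (bas r) h = true) :
    (num : ℝ) / 10000 ≤ (G : ℝ) / 65536 * (1 - XX g r ((G : ℝ) / 65536)) := by
  unfold finL at hk
  simp only at hk
  have hk' := Nat.le_of_ble_eq_true hk
  have hKpos : 0 < 1152921504606846976 * (r - 1).factorial := by positivity
  have h1 := (dds_val hI (1152921504606846976 * (r - 1).factorial) 1 hKpos).2 rfl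
  revert h1 hk' hKpos
  generalize 1152921504606846976 * (r - 1).factorial = K
  generalize dds (vli (bas r) G K 1 r 0 1 h) (vli (bas r) G K 1 r 0 1 h)
      (0 :: 0 :: wli (2 * r - 3) 2 1 (2 ^ (2 * r - 2))) = Y
  intro hk' hKpos h1
  have hKK : 0 < K * K * 4 ^ r := by positivity
  have hle : Y ≤ K * K * 4 ^ r := by
    by_contra hcon
    have h0 : K * K * 4 ^ r - Y = 0 := by omega
    rw [h0, mul_zero, mul_zero] at hk'
    have : 0 < num * (65536 * (K * K * 4 ^ r)) := by positivity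
    omega
  have h2 : ((num * (65536 * (K * K * 4 ^ r)) : ℕ) : ℝ) ≤
      ((10000 * (G * (K * K * 4 ^ r - Y)) : ℕ) : ℝ) := by exact_mod_cast hk'
  push_cast [Nat.cast_sub hle] at h2
  have hKr : (0 : ℝ) < K * K * 4 ^ r := by exact_mod_cast hKK
  have hG0 : (0 : ℝ) ≤ G := by positivity
  have h3 : (G : ℝ) * (K * K * 4 ^ r - Y) ≤
      G * ((1 - XX g r ((G : ℝ) / 65536)) * (K * K * 4 ^ r)) := by
    apply mul_le_mul_of_nonneg_left _ hG0
    linarith
  have h4 : (num : ℝ) * 65536 * (K * K * 4 ^ r) ≤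
      10000 * (G * (1 - XX g r ((G : ℝ) / 65536))) * (K * K * 4 ^ r) := by linarith
  have h5 := le_of_mul_le_mul_right h4 hKr
  rw [div_le_iff₀ (by norm_num)]
  linarith

theorem finU_sound {g : ℕ → ℝ} {r G h num : ℕ} (hI : Inv g [] r G h)
    (hk : finU num r G (bas r) h = true) :
    (G : ℝ) / 65536 * (1 - XX g r ((G : ℝ) / 65536)) ≤ (num : ℝ) / 10000 := by
  unfold finU at hk
  simp only at hk
  have hk' := Nat.le_of_ble_eq_true hk
  have hKpos : 0 < 1152921504606846976 * (r - 1).factorial := by positivity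
  have h1 := (dds_val hI (1152921504606846976 * (r - 1).factorial) 0 hKpos).1 rfl
  revert h1 hk' hKpos
  generalize 1152921504606846976 * (r - 1).factorial = K
  generalize dds (vli (bas r) G K 0 r 0 1 h) (vli (bas r) G K 0 r 0 1 h)
      (0 :: 0 :: wli (2 * r - 3) 2 1 (2 ^ (2 * r - 2))) = Y
  intro hk' hKpos h1
  have hKK : 0 < K * K * 4 ^ r := by positivity
  have h2 : ((10000 * (G * (K * K * 4 ^ r - Y)) : ℕ) : ℝ) ≤
      ((num * (65536 * (K * K * 4 ^ r)) : ℕ) : ℝ) := by exact_mod_cast hk'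
  have h2' := sub_ge (K * K * 4 ^ r) Y
  push_cast at h2 h2'
  have hKr : (0 : ℝ) < K * K * 4 ^ r := by exact_mod_cast hKK
  have hG0 : (0 : ℝ) ≤ G := by positivity
  have h3 : G * ((1 - XX g r ((G : ℝ) / 65536)) * (K * K * 4 ^ r)) ≤
      (G : ℝ) * ((K * K * 4 ^ r - Y : ℕ) : ℝ) := by
    apply mul_le_mul_of_nonneg_left _ hG0
    linarith
  have h4 : 10000 * (G * (1 - XX g r ((G : ℝ) / 65536))) * (K * K * 4 ^ r) ≤
      (num : ℝ) * 65536 * (K * K * 4 ^ r) := by
    linarith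
  have h5 := le_of_mul_le_mul_right h4 hKr
  rw [le_div_iff₀ (by norm_num)]
  linarith

/-! ### The two sequences -/

/-- The subsolution. -/
theorem exists_sub : ∃ g : ℕ → ℝ, (∀ r, 2 ≤ r → 0 < g r) ∧
    (∀ r t, 2 ≤ r → r ≤ t → g r ≤ g t) ∧ (∀ n : ℕ, 2 ≤ n → J g n ≤ (n : ℝ) - 1) ∧
    ∃ Λ : ℝ, Tendsto (W g) atTop (𝓝 Λ) ∧ 0.6215 ≤ Λ := by
  have hinc := inc_goL tabL 2 32768 _ okL
  have hI := inv_start tabL 32768 (by norm_num) (by norm_num) 3 rfl
  have h := goL_sound (g := gs tabL 32768)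
    (P := ∃ Λ : ℝ, Tendsto (W (gs tabL 32768)) atTop (𝓝 Λ) ∧ 0.6215 ≤ Λ) (by
      intro r G h hI hk
      refine ⟨_, Y908.CG.wlm (gs tabL 32768) r ((G : ℝ) / 65536) hI.two (zpos hI) ?_
        (fun c hc => g_last hI hc), ?_⟩
      · intro c h2
        by_cases hc : c < r
        · exact hI.leg c h2 hc
        · exact (g_last hI (by omega)).le
      · have := finL_sound (num := 6215) (by norm_num) hI hk
        unfold XX at this
        refine le_trans (le_of_eq ?_) this
        norm_num) tabL 2 32768 _ hI okL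
  exact ⟨gs tabL 32768, fun r _ => gs_pos hinc (by norm_num) r,
    fun r t _ hrt => gs_mono hinc hrt, h.1, h.2⟩

/-- The supersolution. -/
theorem exists_super : ∃ (g : ℕ → ℝ) (x : ℝ), 0 < x ∧ (∀ r, 2 ≤ r → 0 ≤ g r ∧ g r ≤ x) ∧
    (∀ n : ℕ, 2 ≤ n → (n : ℝ) - 1 ≤ J g n) ∧
    ∃ Λ : ℝ, Tendsto (W g) atTop (𝓝 Λ) ∧ Λ ≤ 0.6225 := by
  have hinc := inc_goU tabU 2 32769 _ okU
  have hI := inv_start tabU 32769 (by norm_num) (by norm_num) 3 rfl
  have h := goU_sound (g := gs tabU 32769)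
    (P := ∃ x : ℝ, 0 < x ∧ (∀ r, 2 ≤ r → gs tabU 32769 r ≤ x) ∧
      ∃ Λ : ℝ, Tendsto (W (gs tabU 32769)) atTop (𝓝 Λ) ∧ Λ ≤ 0.6225) (by
      intro r G h hI hk
      have hle : ∀ c, 2 ≤ c → gs tabU 32769 c ≤ (G : ℝ) / 65536 := by
        intro c h2
        by_cases hc : c < r
        · exact hI.leg c h2 hc
        · exact (g_last hI (by omega)).le
      refine ⟨(G : ℝ) / 65536, zpos hI, hle, _,
        Y908.CG.wlm (gs tabU 32769) r ((G : ℝ) / 65536) hI.two (zpos hI) hle
        (fun c hc => g_last hI hc), ?_⟩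
      have := finU_sound (num := 6225) hI hk
      unfold XX at this
      refine this.trans (le_of_eq ?_)
      norm_num) tabU 2 32769 _ hI okU
  obtain ⟨hJ, x, hx, hle, hΛ⟩ := h
  exact ⟨gs tabU 32769, x, hx, fun r hr => ⟨(gs_pos hinc (by norm_num) r).le, hle r hr⟩, hJ, hΛ⟩

/-- Numerical bounds for the limit. -/
theorem limit_bounds {L : ℝ} (hL : Tendsto s atTop (𝓝 L)) : 0.6215 ≤ L ∧ L ≤ 0.6225 := by
  constructor
  · obtain ⟨g, h1, h2, h3, Λ, h4, h5⟩ := exists_sub
    refine h5.trans (le_of_tendsto_of_tendsto h4 hL ?_)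
    filter_upwards [eventually_gt_atTop 0] with k hk
    exact W_le_s hk h1 h2 fun n hn _ => h3 n hn
  · obtain ⟨g, x, hx, h1, h3, Λ, h4, h5⟩ := exists_super
    apply le_of_forall_pos_le_add
    intro e he
    have h6 : Tendsto (fun k => W g k + e) atTop (𝓝 (Λ + e)) := h4.add_const e
    have h7 : L ≤ Λ + e := by
      refine le_of_tendsto_of_tendsto hL h6 ?_
      filter_upwards [eventually_gt_atTop 0, Y563.CG.Wau.t g x hx h1 e he] with k hk h8
      exact (s_le_Wa hk (fun r hr => (h1 r hr).1) fun n hn _ => h3 n hn).trans h8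
    linarith

end Pool.Agent.Y171.CG
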