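import Pool.Agent.Y171.CG.Upper
import Pool.Agent.Y171.CG.Tool

/-!
# Upper bounds by homogeneous potentials, concave in the pair of masses of each player
-/

open MeasureTheory Finset Set Filter Topology

namespace Pool.Agent.Y171.CG

/-- Potentials. -/
structure IsPot {k : ℕ} (Φ : (Bool → Fin k → ℝ) → ℝ) : Prop where
  nonneg : ∀ m : Bool → Fin k → ℝ, (∀ x j, 0 ≤ m x j) → 0 ≤ Φ m
  homog : ∀ m : Bool → Fin k → ℝ, (∀ x j, 0 ≤ m x j) → ∀ c : ℝ, 0 < c →
    Φ (fun x j => c * m x j) = c * Φ m
  conc : ∀ m : Bool → Fin k → ℝ, (∀ x j, 0 ≤ m x j) → ∀ i (y y' : Bool → ℝ) (c c' : ℝ),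
    (∀ x, 0 ≤ y x) → (∀ x, 0 ≤ y' x) → 0 < c → 0 < c' → c + c' = 1 →
    c * Φ (upd m i y) + c' * Φ (upd m i y') ≤ Φ (upd m i (fun x => c * y x + c' * y' x))
  mono : ∀ m : Bool → Fin k → ℝ, (∀ x j, 0 ≤ m x j) → ∀ i (y y' : Bool → ℝ),
    (∀ x, 0 ≤ y x) → (∀ x, y x ≤ y' x) → Φ (upd m i y) ≤ Φ (upd m i y')
  dom : ∀ m : Bool → Fin k → ℝ, (∀ x j, 0 ≤ m x j) → ∀ x, ∃ j, ∑ i, m x i - m x j ≤ Φ m

theorem upd_self {k : ℕ} (m : Bool → Fin k → ℝ) (i : Fin k) : upd m i (fun x => m x i) = m := by
  funext x j
  unfold upd
  split_ifs with h
  · rw [h]
  · rfl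

section

variable {k : ℕ} {Ω : Fin k → Type} [∀ i, MeasurableSpace (Ω i)]

theorem exists_guess_pot {Φ : (Bool → Fin k → ℝ) → ℝ} (hΦ : IsPot Φ) (ρ : ∀ i, Measure (Ω i))
    [∀ i, IsProbabilityMeasure (ρ i)] (P : Protocol Ω) :
    ∀ (A : ∀ i, Option Bool → Set (Ω i)), ∃ g : List Bool → Fin k,
      ∑ x : Bool, ∑ j : Fin k, (Measure.pi ρ).real (box A x j ∩ winSet P g x j) ≤
        Φ (fun x j => mass ρ A x j) := by
  induction P with
  | output b =>
    intro A
    obtain ⟨j0, hj0⟩ := hΦ.dom (fun x j => mass ρ A x j) (fun x j => mass_nonneg ρ A x j) b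
    refine ⟨fun _ => j0, ?_⟩
    have h1 : ∀ x j, (Measure.pi ρ).real (box A x j ∩ winSet (.output b) (fun _ => j0) x j) ≤
        if x = b then (if j = j0 then 0 else mass ρ A x j) else 0 := by
      intro x j
      by_cases hx : x = b
      · subst hx
        by_cases hj : j = j0
        · subst hj
          simp [winSet]
        · simp only [if_true, if_neg hj]
          rw [← real_box]
          exact measureReal_mono Set.inter_subset_left
      · have : winSet (Ω := Ω) (.output b) (fun _ => j0) x j = ∅ := by
          ext ω
          simp only [winSet, Protocol.result, Set.mem_ofPred_eq, Set.mem_empty_iff_false, iff_false]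
          rintro ⟨h, _⟩
          exact hx h.symm
        simp [this, hx]
    calc ∑ x : Bool, ∑ j : Fin k, (Measure.pi ρ).real
            (box A x j ∩ winSet (.output b) (fun _ => j0) x j)
        ≤ ∑ x : Bool, ∑ j : Fin k,
            (if x = b then (if j = j0 then 0 else mass ρ A x j) else 0) :=
          Finset.sum_le_sum fun x _ => Finset.sum_le_sum fun j _ => h1 x j
      _ = ∑ j : Fin k, (if j = j0 then 0 else mass ρ A b j) := by
          rw [Finset.sum_eq_single b]
          · simp
          · intro x _ hx
            simp [hx]
          · simp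
      _ = ∑ j : Fin k, mass ρ A b j - mass ρ A b j0 := by
          have : ∀ j : Fin k, (if j = j0 then 0 else mass ρ A b j) =
              mass ρ A b j - (if j = j0 then mass ρ A b j0 else 0) := by
            intro j
            by_cases hj : j = j0
            · subst hj; simp
            · simp [hj]
          rw [Finset.sum_congr rfl fun j _ => this j, Finset.sum_sub_distrib]
          simp
      _ ≤ Φ (fun x j => mass ρ A x j) := hj0
  | write i msg hmsg next ih =>
    intro A
    set q : Option Bool → ℝ := fun v => (ρ i).real (A i v) with hq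
    set qb : Bool → Option Bool → ℝ := fun b v => (ρ i).real (A i v ∩ (msg v) ⁻¹' {b}) with hqb
    set R : Bool → Fin k → ℝ :=
      fun x j => ∏ l ∈ univ.erase i, (ρ l).real (A l (know x j l)) with hR
    have hRnn : ∀ x j, 0 ≤ R x j := fun x j => Finset.prod_nonneg fun _ _ => measureReal_nonneg
    have hadd : ∀ v, qb true v + qb false v = q v := by
      intro v
      have hms : MeasurableSet ((msg v) ⁻¹' {true}) := (hmsg v) (measurableSet_singleton _)
      have h1 := measureReal_inter_add_sdiff (μ := ρ i) (s := A i v) hms
      have h2 : A i v \ (msg v) ⁻¹' {true} = A i v ∩ (msg v) ⁻¹' {false} := by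
        ext ω
        simp
      rw [h2] at h1
      exact h1
    have hqbnn : ∀ b v, 0 ≤ qb b v := fun b v => measureReal_nonneg
    have hm : ∀ x j, mass ρ A x j = q (know x j i) * R x j := fun x j => mass_eq ρ A i x j
    have hmb : ∀ b x j, mass ρ (after A i msg b) x j = qb b (know x j i) * R x j :=
      fun b x j => mass_after ρ A i msg b x j
    have hzero : ∀ (Q : Protocol Ω) (B : ∀ i, Option Bool → Set (Ω i)),
        (∀ x j, j ≠ i → mass ρ B x j = 0) →
        ∑ x : Bool, ∑ j : Fin k, (Measure.pi ρ).real (box B x j ∩ winSet Q (fun _ => i) x j)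
          ≤ 0 := by
      intro Q B hB
      apply Finset.sum_nonpos
      intro x _
      apply Finset.sum_nonpos
      intro j _
      by_cases hj : j = i
      · subst hj
        have : winSet Q (fun _ => j) x j = ∅ := by
          ext ω
          simp [winSet]
        simp [this]
      · calc (Measure.pi ρ).real (box B x j ∩ winSet Q (fun _ => i) x j)
            ≤ (Measure.pi ρ).real (box B x j) := measureReal_mono Set.inter_subset_left
          _ = 0 := by rw [real_box, hB x j hj]
    set m : Bool → Fin k → ℝ := fun x j => mass ρ A x j with hmdef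
    have hst : ∀ x j, 0 ≤ m x j := fun x j => mass_nonneg ρ A x j
    by_cases hN : q none = 0
    · refine ⟨fun _ => i, ?_⟩
      refine (hzero _ A ?_).trans (hΦ.nonneg _ hst)
      intro x j hj
      rw [hm, know_ne x hj, hN, zero_mul]
    · have hNpos : 0 < q none := lt_of_le_of_ne measureReal_nonneg (Ne.symm hN)
      set c : Bool → ℝ := fun b => qb b none / q none with hc
      set Y : Bool → Bool → ℝ := fun b x => qb b (some x) * R x i with hY
      have hYnn : ∀ b x, 0 ≤ Y b x := fun b x => mul_nonneg (hqbnn _ _) (hRnn _ _)
      have hcsum : c true + c false = 1 := by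
        simp only [hc]
        rw [← add_div, hadd, div_self hN]
      have hYsum : ∀ x, Y true x + Y false x = m x i := by
        intro x
        simp only [hY, hmdef]
        rw [← add_mul, hadd, hm, know_self]
      -- the value of a branch
      have hbr : ∀ b, ∃ g : List Bool → Fin k,
          ∑ x : Bool, ∑ j : Fin k,
            (Measure.pi ρ).real (box (after A i msg b) x j ∩ winSet (next b) g x j) ≤
          (if c b = 0 then 0 else c b * Φ (upd m i (fun x => Y b x / c b))) := by
        intro b
        by_cases hNb : qb b none = 0
        · refine ⟨fun _ => i, ?_⟩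
          have hcb : c b = 0 := by simp [hc, hNb]
          rw [if_pos hcb]
          refine hzero (next b) (after A i msg b) ?_
          intro x j hj
          rw [hmb, know_ne x hj, hNb, zero_mul]
        · have hNbpos : 0 < qb b none := lt_of_le_of_ne (hqbnn _ _) (Ne.symm hNb)
          have hcb : 0 < c b := div_pos hNbpos hNpos
          obtain ⟨g, hg⟩ := ih b (after A i msg b)
          refine ⟨g, hg.trans (le_of_eq ?_)⟩
          rw [if_neg hcb.ne', ← hΦ.homog _ _ (c b) hcb]
          · congr 1
            funext x j
            unfold upd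
            by_cases hj : j = i
            · subst hj
              rw [if_pos rfl, hmb, know_self]
              field_simp
              rfl
            · rw [if_neg hj, hmb, know_ne x hj]
              simp only [hmdef, hc]
              rw [hm, know_ne x hj]
              field_simp
          · intro x j
            unfold upd
            split_ifs
            · exact div_nonneg (hYnn b x) hcb.le
            · exact hst x j
      choose g hg using hbr
      refine ⟨fun l => match l with | [] => i | b :: t => g b t, ?_⟩
      have hsplit : ∀ x j, (Measure.pi ρ).real (box A x j ∩ winSet (.write i msg hmsg next)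
            (fun l => match l with | [] => i | b :: t => g b t) x j) ≤
          (Measure.pi ρ).real (box (after A i msg true) x j ∩ winSet (next true) (g true) x j) +
          (Measure.pi ρ).real
            (box (after A i msg false) x j ∩ winSet (next false) (g false) x j) := by
        intro x j
        exact (measureReal_mono (winSet_inter_subset A i msg hmsg next g i x j)).trans
          (measureReal_union_le _ _)
      have hcnn : ∀ b, 0 ≤ c b := fun b => div_nonneg (hqbnn _ _) hNpos.le
      have hfin : (if c true = 0 then 0 else c true * Φ (upd m i (fun x => Y true x / c true))) +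
          (if c false = 0 then 0 else c false * Φ (upd m i (fun x => Y false x / c false))) ≤
          Φ m := by
        by_cases h1 : c true = 0
        · have h2 : c false = 1 := by linarith
          rw [if_pos h1, if_neg (by rw [h2]; norm_num), h2, zero_add, one_mul]
          conv_rhs => rw [← upd_self m i]
          refine hΦ.mono m hst i _ _ (fun x => ?_) (fun x => ?_)
          · simpa using hYnn false x
          · have := hYsum x
            have := hYnn true x
            simp only [div_one]
            linarith
        · by_cases h2 : c false = 0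
          · have h3 : c true = 1 := by linarith
            rw [if_neg h1, if_pos h2, h3, add_zero, one_mul]
            conv_rhs => rw [← upd_self m i]
            refine hΦ.mono m hst i _ _ (fun x => ?_) (fun x => ?_)
            · simpa using hYnn true x
            · have := hYsum x
              have := hYnn false x
              simp only [div_one]
              linarith
          · have p1 : 0 < c true := lt_of_le_of_ne (hcnn _) (Ne.symm h1)
            have p2 : 0 < c false := lt_of_le_of_ne (hcnn _) (Ne.symm h2)
            rw [if_neg h1, if_neg h2]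
            refine (hΦ.conc m hst i _ _ _ _ (fun x => div_nonneg (hYnn _ _) p1.le)
              (fun x => div_nonneg (hYnn _ _) p2.le) p1 p2 hcsum).trans (le_of_eq ?_)
            conv_rhs => rw [← upd_self m i]
            congr 2
            funext x
            rw [← hYsum x]
            field_simp
      calc ∑ x : Bool, ∑ j : Fin k, (Measure.pi ρ).real (box A x j ∩ winSet
              (.write i msg hmsg next) (fun l => match l with | [] => i | b :: t => g b t) x j)
          ≤ ∑ x : Bool, ∑ j : Fin k,
            ((Measure.pi ρ).real (box (after A i msg true) x j ∩ winSet (next true) (g true) x j)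
            + (Measure.pi ρ).real
              (box (after A i msg false) x j ∩ winSet (next false) (g false) x j)) :=
            Finset.sum_le_sum fun x _ => Finset.sum_le_sum fun j _ => hsplit x j
        _ = ∑ x : Bool, ∑ j : Fin k,
              (Measure.pi ρ).real
                (box (after A i msg true) x j ∩ winSet (next true) (g true) x j) +
            ∑ x : Bool, ∑ j : Fin k,
              (Measure.pi ρ).real
                (box (after A i msg false) x j ∩ winSet (next false) (g false) x j) := by
            rw [← Finset.sum_add_distrib]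
            apply Finset.sum_congr rfl
            intro x _
            rw [← Finset.sum_add_distrib]
        _ ≤ _ := add_le_add (hg true) (hg false)
        _ ≤ Φ m := hfin

theorem value_le_pot {Φ : (Bool → Fin k → ℝ) → ℝ} (hΦ : IsPot Φ) (hk : 0 < k)
    (ρ : ∀ i, Measure (Ω i)) [∀ i, IsProbabilityMeasure (ρ i)] (P : Protocol Ω) :
    P.value ρ ≤ 1 / (2 * (k : ℝ)) * Φ (fun _ _ => 1) := by
  obtain ⟨g, hg⟩ := exists_guess_pot hΦ ρ P (fun _ _ => Set.univ)
  refine (ciInf_le (bddBelow_winProb P ρ) g).trans ?_
  have hmass : ∀ x j, mass ρ (fun _ _ => Set.univ) x j = 1 := by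
    intro x j
    simp [mass]
  have hbox : ∀ x j, box (Ω := Ω) (fun _ _ => Set.univ) x j = Set.univ := by
    intro x j
    simp [box]
  simp only [hmass, hbox, Set.univ_inter] at hg
  unfold Protocol.winProb
  calc ∑ x : Bool, ∑ j : Fin k, 1 / (2 * (k : ℝ)) *
        (Measure.pi ρ).real {ω | P.result x j ω = x ∧ g (P.transcript x j ω) ≠ j}
      = 1 / (2 * (k : ℝ)) * ∑ x : Bool, ∑ j : Fin k, (Measure.pi ρ).real (winSet P g x j) := by
        rw [Finset.mul_sum]
        apply Finset.sum_congr rfl
        intro x _
        rw [Finset.mul_sum]
        rfl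
    _ ≤ 1 / (2 * (k : ℝ)) * Φ (fun _ _ => 1) :=
        mul_le_mul_of_nonneg_left hg (by positivity)

end

theorem le_pot_of_mem_values {k : ℕ} {Φ : (Bool → Fin k → ℝ) → ℝ} (hΦ : IsPot Φ) (hk : 0 < k)
    {v : ℝ} (hv : v ∈ values k) : v ≤ 1 / (2 * (k : ℝ)) * Φ (fun _ _ => 1) := by
  obtain ⟨Ω, _, ρ, _, P, rfl⟩ := hv
  exact value_le_pot hΦ hk ρ P

end Pool.Agent.Y171.CG
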