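import Pool.Agent.Y171.CG.Lower

/-!
# Realisation of strategies by protocols with private randomness in `[0, 1]`
-/

open MeasureTheory Finset Set Filter Topology

namespace Pool.Agent.Y171.CG

theorem nu_real_Ico {a b : ℝ} (ha : 0 ≤ a) (hab : a ≤ b) (hb : b ≤ 1) :
    nu.real (Set.Ico a b) = b - a := by
  unfold nu
  rw [measureReal_restrict_apply measurableSet_Ico]
  have : Set.Ico a b ∩ Set.Icc (0 : ℝ) 1 = Set.Ico a b := by
    apply Set.inter_eq_left.2
    intro t ht
    exact ⟨ha.trans ht.1, ht.2.le.trans hb⟩
  rw [this, Real.volume_real_Ico_of_le hab]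

/-- The interval state. -/
def ivl {k : ℕ} (lo hi : Fin k → Option Bool → ℝ) : ∀ _ : Fin k, Option Bool → Set ℝ :=
  fun i w => Set.Ico (lo i w) (hi i w)

theorem mass_ivl {k : ℕ} {lo hi : Fin k → Option Bool → ℝ}
    (h : ∀ i w, 0 ≤ lo i w ∧ lo i w ≤ hi i w ∧ hi i w ≤ 1) (x : Bool) (j : Fin k) :
    mass (fun _ : Fin k => nu) (ivl lo hi) x j =
      ∏ i, (hi i (know x j i) - lo i (know x j i)) := by
  unfold mass
  exact Finset.prod_congr rfl fun i _ => nu_real_Ico (h i _).1 (h i _).2.1 (h i _).2.2

theorem realise {k : ℕ} {m : Bool → Fin k → ℝ} {v : ℝ} (h : Ach m v) :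
    ∀ lo hi : Fin k → Option Bool → ℝ,
      (∀ i w, 0 ≤ lo i w ∧ lo i w ≤ hi i w ∧ hi i w ≤ 1) →
      (∀ x j, m x j = ∏ i, (hi i (know x j i) - lo i (know x j i))) →
      ∃ P : Protocol (fun _ : Fin k => ℝ), ∀ g : List Bool → Fin k,
        v ≤ ∑ x : Bool, ∑ j : Fin k,
          (Measure.pi fun _ : Fin k => nu).real (box (ivl lo hi) x j ∩ winSet P g x j) := by
  induction h with
  | stop m x v h =>
    intro lo hi hlh hm
    refine ⟨.output x, fun g => ?_⟩
    have h1 : ∀ j, j ≠ g [] → (Measure.pi fun _ : Fin k => nu).real
        (box (ivl lo hi) x j ∩ winSet (.output x) g x j) = m x j := by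
      intro j hj
      have : winSet (Ω := fun _ : Fin k => ℝ) (.output x) g x j = Set.univ := by
        ext ω
        simp only [winSet, Protocol.result, Protocol.transcript, Set.mem_ofPred_eq, true_and,
          Set.mem_univ, iff_true]
        exact Ne.symm hj
      rw [this, Set.inter_univ, real_box, mass_ivl hlh, hm]
    have h2 : ∑ j : Fin k, (Measure.pi fun _ : Fin k => nu).real
          (box (ivl lo hi) x j ∩ winSet (.output x) g x j) ≥ ∑ j, m x j - m x (g []) := by
      rw [← Finset.add_sum_erase univ _ (mem_univ (g [])),
        ← Finset.add_sum_erase univ (fun j => m x j) (mem_univ (g [])),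
        Finset.sum_congr rfl fun j hj => h1 j (Finset.ne_of_mem_erase hj)]
      have := measureReal_nonneg (μ := Measure.pi fun _ : Fin k => nu)
        (s := box (ivl lo hi) x (g []) ∩ winSet (.output x) g x (g []))
      linarith
    have h3 := Finset.single_le_sum (f := fun y : Bool => ∑ j : Fin k,
      (Measure.pi fun _ : Fin k => nu).real (box (ivl lo hi) y j ∩ winSet (.output x) g y j))
      (fun y _ => Finset.sum_nonneg fun j _ => measureReal_nonneg) (mem_univ x)
    have h4 := h (g [])
    linarith
  | split m i p hp0 hp1 v v1 v0 _ _ hv ih1 ih0 =>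
    intro lo hi hlh hm
    -- the cut points
    set cut : Option Bool → ℝ := fun w => lo i w + p w * (hi i w - lo i w) with hcut
    have hc1 : ∀ w, lo i w ≤ cut w := fun w => by
      have := mul_nonneg (hp0 w) (sub_nonneg.2 (hlh i w).2.1)
      simp only [hcut]; linarith
    have hc2 : ∀ w, cut w ≤ hi i w := fun w => by
      have := mul_le_mul_of_nonneg_right (hp1 w) (sub_nonneg.2 (hlh i w).2.1)
      simp only [hcut]; linarith
    set hi1 : Fin k → Option Bool → ℝ := Function.update hi i cut with hhi1
    set lo0 : Fin k → Option Bool → ℝ := Function.update lo i cut with hlo0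
    have hv1 : ∀ l w, 0 ≤ lo l w ∧ lo l w ≤ hi1 l w ∧ hi1 l w ≤ 1 := by
      intro l w
      by_cases hl : l = i
      · subst hl
        simp only [hhi1, Function.update_self]
        exact ⟨(hlh l w).1, hc1 w, (hc2 w).trans (hlh l w).2.2⟩
      · simp only [hhi1, Function.update_of_ne hl]
        exact hlh l w
    have hv0 : ∀ l w, 0 ≤ lo0 l w ∧ lo0 l w ≤ hi l w ∧ hi l w ≤ 1 := by
      intro l w
      by_cases hl : l = i
      · subst hl
        simp only [hlo0, Function.update_self]
        exact ⟨(hlh l w).1.trans (hc1 w), hc2 w, (hlh l w).2.2⟩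
      · simp only [hlo0, Function.update_of_ne hl]
        exact hlh l w
    have hm1 : ∀ x j, p (know x j i) * m x j =
        ∏ l, (hi1 l (know x j l) - lo l (know x j l)) := by
      intro x j
      rw [hm, ← Finset.mul_prod_erase univ _ (mem_univ i),
        ← Finset.mul_prod_erase univ (fun l => (hi1 l (know x j l) - lo l (know x j l)))
          (mem_univ i), ← mul_assoc]
      congr 1
      · simp only [hhi1, Function.update_self, hcut]; ring
      · exact Finset.prod_congr rfl fun l hl => by
          simp only [hhi1, Function.update_of_ne (Finset.ne_of_mem_erase hl)]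
    have hm0 : ∀ x j, (1 - p (know x j i)) * m x j =
        ∏ l, (hi l (know x j l) - lo0 l (know x j l)) := by
      intro x j
      rw [hm, ← Finset.mul_prod_erase univ _ (mem_univ i),
        ← Finset.mul_prod_erase univ (fun l => (hi l (know x j l) - lo0 l (know x j l)))
          (mem_univ i), ← mul_assoc]
      congr 1
      · simp only [hlo0, Function.update_self, hcut]; ring
      · exact Finset.prod_congr rfl fun l hl => by
          simp only [hlo0, Function.update_of_ne (Finset.ne_of_mem_erase hl)]
    obtain ⟨P1, hP1⟩ := ih1 lo hi1 hv1 hm1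
    obtain ⟨P0, hP0⟩ := ih0 lo0 hi hv0 hm0
    set msg : Option Bool → ℝ → Bool := fun w ω => decide (ω < cut w) with hmsg
    have hmm : ∀ w, Measurable (msg w) := by
      intro w
      apply measurable_to_bool
      have : msg w ⁻¹' {true} = Set.Iio (cut w) := by
        ext ω
        simp [hmsg]
      rw [this]
      exact measurableSet_Iio
    refine ⟨.write i msg hmm (fun b => if b then P1 else P0), fun g => ?_⟩
    have key : ∀ x j, (Measure.pi fun _ : Fin k => nu).real (box (ivl lo hi) x j ∩
          winSet (.write i msg hmm (fun b => if b then P1 else P0)) g x j) =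
        (Measure.pi fun _ : Fin k => nu).real
          (box (ivl lo hi1) x j ∩ winSet P1 (fun l => g (true :: l)) x j) +
        (Measure.pi fun _ : Fin k => nu).real
          (box (ivl lo0 hi) x j ∩ winSet P0 (fun l => g (false :: l)) x j) := by
      intro x j
      have hms : MeasurableSet {ω : Fin k → ℝ | ω i < cut (know x j i)} :=
        measurableSet_lt (measurable_pi_apply i) measurable_const
      rw [← measureReal_inter_add_sdiff (μ := Measure.pi fun _ : Fin k => nu) (s := box (ivl lo hi)
        x j ∩ winSet (.write i msg hmm (fun b => if b then P1 else P0)) g x j) hms]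
      congr 2
      · ext ω
        simp only [Set.mem_inter_iff, box, Set.mem_pi, Set.mem_univ, forall_true_left, winSet,
          Protocol.result, Protocol.transcript, Set.mem_ofPred_eq, ivl, Set.mem_Ico, hmsg]
        constructor
        · rintro ⟨⟨hb, hw⟩, hlt⟩
          have hd : decide (ω i < cut (know x j i)) = true := by simp [hlt]
          rw [hd] at hw
          refine ⟨fun l => ?_, hw⟩
          by_cases hl : l = i
          · subst hl
            simp only [hhi1, Function.update_self]
            exact ⟨(hb l).1, hlt⟩
          · simp only [hhi1, Function.update_of_ne hl]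
            exact hb l
        · rintro ⟨hb, hw⟩
          have hlt : ω i < cut (know x j i) := by
            have := (hb i).2
            simpa only [hhi1, Function.update_self] using this
          have hd : decide (ω i < cut (know x j i)) = true := by simp [hlt]
          rw [hd]
          refine ⟨⟨fun l => ?_, hw⟩, hlt⟩
          by_cases hl : l = i
          · subst hl
            exact ⟨(hb l).1, hlt.trans_le (hc2 _)⟩
          · have := hb l
            simpa only [hhi1, Function.update_of_ne hl] using this
      · ext ω
        simp only [Set.mem_sdiff, Set.mem_inter_iff, box, Set.mem_pi, Set.mem_univ,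
          forall_true_left, winSet, Protocol.result, Protocol.transcript, Set.mem_ofPred_eq, ivl,
          Set.mem_Ico, hmsg, not_lt]
        constructor
        · rintro ⟨⟨hb, hw⟩, hge⟩
          have hd : decide (ω i < cut (know x j i)) = false := by simp [hge]
          rw [hd] at hw
          refine ⟨fun l => ?_, hw⟩
          by_cases hl : l = i
          · subst hl
            simp only [hlo0, Function.update_self]
            exact ⟨hge, (hb l).2⟩
          · simp only [hlo0, Function.update_of_ne hl]
            exact hb l
        · rintro ⟨hb, hw⟩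
          have hge : cut (know x j i) ≤ ω i := by
            have := (hb i).1
            simpa only [hlo0, Function.update_self] using this
          have hd : decide (ω i < cut (know x j i)) = false := by simp [hge]
          rw [hd]
          refine ⟨⟨fun l => ?_, hw⟩, hge⟩
          by_cases hl : l = i
          · subst hl
            exact ⟨(hc1 _).trans hge, (hb l).2⟩
          · have := hb l
            simpa only [hlo0, Function.update_of_ne hl] using this
    simp only [key]
    have e1 := hP1 (fun l => g (true :: l))
    have e0 := hP0 (fun l => g (false :: l))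
    have : ∑ x : Bool, ∑ j : Fin k, ((Measure.pi fun _ : Fin k => nu).real
          (box (ivl lo hi1) x j ∩ winSet P1 (fun l => g (true :: l)) x j) +
        (Measure.pi fun _ : Fin k => nu).real
          (box (ivl lo0 hi) x j ∩ winSet P0 (fun l => g (false :: l)) x j)) =
        ∑ x : Bool, ∑ j : Fin k, (Measure.pi fun _ : Fin k => nu).real
          (box (ivl lo hi1) x j ∩ winSet P1 (fun l => g (true :: l)) x j) +
        ∑ x : Bool, ∑ j : Fin k, (Measure.pi fun _ : Fin k => nu).real
          (box (ivl lo0 hi) x j ∩ winSet P0 (fun l => g (false :: l)) x j) := by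
      rw [← Finset.sum_add_distrib]
      exact Finset.sum_congr rfl fun x _ => Finset.sum_add_distrib
    rw [this]
    linarith

/-- From strategies to protocols. -/
theorem exists_mem_values {k : ℕ} (hk : 0 < k) {v : ℝ} (h : Ach (fun (_ : Bool) (_ : Fin k) => (1 : ℝ)) v) :
    ∃ w ∈ values k, 1 / (2 * (k : ℝ)) * v ≤ w := by
  obtain ⟨P, hP⟩ := realise h (fun _ _ => 0) (fun _ _ => 1) (fun _ _ => by norm_num) (by simp)
  refine ⟨P.value (fun _ => nu), ⟨fun _ => ℝ, fun _ => inferInstance, fun _ => nu,
    fun _ => inferInstance, P, rfl⟩, ?_⟩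
  unfold Protocol.value
  have : Nonempty (List Bool → Fin k) := ⟨fun _ => ⟨0, hk⟩⟩
  refine le_ciInf fun g => ?_
  unfold Protocol.winProb
  have h1 := hP g
  have hsub : ∀ x j, (Measure.pi fun _ : Fin k => nu).real
      (box (ivl (fun _ _ => 0) (fun _ _ => 1)) x j ∩ winSet P g x j) ≤
      (Measure.pi fun _ : Fin k => nu).real
        {ω | P.result x j ω = x ∧ g (P.transcript x j ω) ≠ j} := fun x j =>
    measureReal_mono Set.inter_subset_right
  calc 1 / (2 * (k : ℝ)) * v
      ≤ 1 / (2 * (k : ℝ)) * ∑ x : Bool, ∑ j : Fin k, (Measure.pi fun _ : Fin k => nu).real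
        {ω | P.result x j ω = x ∧ g (P.transcript x j ω) ≠ j} := by
        apply mul_le_mul_of_nonneg_left _ (by positivity)
        exact h1.trans (Finset.sum_le_sum fun x _ => Finset.sum_le_sum fun j _ => hsub x j)
    _ = ∑ x : Bool, ∑ j : Fin k, 1 / (2 * (k : ℝ)) * (Measure.pi fun _ : Fin k => nu).real
        {ω | P.result x j ω = x ∧ g (P.transcript x j ω) ≠ j} := by
        rw [Finset.mul_sum]
        exact Finset.sum_congr rfl fun x _ => by rw [Finset.mul_sum]

end Pool.Agent.Y171.CG
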