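import Pool.Agent.Y171.CG.Cert

/-!
# `s_2 ≤ √2 / 4`
-/

open Finset

namespace Pool.Agent.Y171.CG

/-- The coefficients of the certificate `√2/8 + √2 (a₀ b₀ + a₁ b₁)`. -/
noncomputable def c2 : ℕ → ℝ := fun r => if r = 2 then √2 else 0

theorem dom_two (n : ℕ) (hn : n ≤ 2) (t : ℝ) (ht : 0 ≤ t) :
    ((n : ℝ) - 1) * t ≤ √2 / 8 + ∑ r ∈ range (n + 1), (n.choose r : ℝ) * (c2 r * t ^ r) := by
  have h2 : √2 * √2 = 2 := Real.mul_self_sqrt (by norm_num)
  have h0 : 0 < √2 := by positivity
  interval_cases n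
  · simp only [Finset.sum_range_succ, Finset.sum_range_zero, c2]
    norm_num
    linarith
  · simp only [Finset.sum_range_succ, Finset.sum_range_zero, c2]
    norm_num
    positivity
  · simp only [Finset.sum_range_succ, Finset.sum_range_zero, c2]
    norm_num
    have h3 : 0 ≤ √2 * (√2 * t - 1 / 2) ^ 2 := by positivity
    nlinarith

theorem values_two_le {v : ℝ} (hv : v ∈ values 2) : v ≤ √2 / 4 := by
  have h := le_of_mem_values (isCert (k := 2) (by norm_num) (√2 / 8) c2 (by positivity)
    (fun r => by unfold c2; split_ifs <;> positivity) (fun n hn t ht => dom_two n hn t ht))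
    (by norm_num) hv
  simp only [poly_const] at h
  refine h.trans (le_of_eq ?_)
  simp only [Fintype.sum_bool, Finset.sum_range_succ, Finset.sum_range_zero, c2]
  norm_num
  ring

end Pool.Agent.Y171.CG
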