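import Pool.Agent.Y171.CG.Model

/-!
# Upper bounds for cryptogenography by multi-affine certificates

A certificate is a function `Φ` of the state `m : Bool → Fin k → ℝ` (`m x j` is the joint weight of
`the secret is x, the owner is j`), affine with nonnegative coefficients in the pair
`(m false j, m true j)` for each player `j`, and at least `∑ i, m x i - max_j m x j` for each
output bit `x`.  The value of `Φ` at the initial state bounds the winning probability.
-/

open MeasureTheory Finset

namespace Pool.Agent.Y171.CG

/-- Multi-affine certificates. -/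
structure IsCert {k : ℕ} (Φ : (Bool → Fin k → ℝ) → ℝ) : Prop where
  aff : ∀ m : Bool → Fin k → ℝ, (∀ x j, 0 ≤ m x j) → ∀ i, ∃ (α : ℝ) (β : Bool → ℝ),
    0 ≤ α ∧ (∀ x, 0 ≤ β x) ∧
      ∀ y : Bool → ℝ, Φ (fun x j => if j = i then y x else m x j) = α + ∑ x, β x * y x
  dom : ∀ m : Bool → Fin k → ℝ, (∀ x j, 0 ≤ m x j) → ∀ x, ∃ j, ∑ i, m x i - m x j ≤ Φ m

section

variable {k : ℕ} {Ω : Fin k → Type} [∀ i, MeasurableSpace (Ω i)]

/-- The set of private randomness consistent with the knowledge sets `A`. -/
def box (A : ∀ i, Option Bool → Set (Ω i)) (x : Bool) (j : Fin k) : Set (∀ i, Ω i) :=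
  Set.pi Set.univ (fun i => A i (know x j i))

/-- Its probability. -/
noncomputable def mass (ρ : ∀ i, Measure (Ω i)) (A : ∀ i, Option Bool → Set (Ω i)) (x : Bool)
    (j : Fin k) : ℝ := ∏ i, (ρ i).real (A i (know x j i))

/-- The winning event. -/
def winSet (P : Protocol Ω) (g : List Bool → Fin k) (x : Bool) (j : Fin k) : Set (∀ i, Ω i) :=
  {ω | P.result x j ω = x ∧ g (P.transcript x j ω) ≠ j}

theorem mass_nonneg (ρ : ∀ i, Measure (Ω i)) (A : ∀ i, Option Bool → Set (Ω i)) (x : Bool)
    (j : Fin k) : 0 ≤ mass ρ A x j := Finset.prod_nonneg fun _ _ => measureReal_nonneg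

theorem real_box (ρ : ∀ i, Measure (Ω i)) [∀ i, IsProbabilityMeasure (ρ i)]
    (A : ∀ i, Option Bool → Set (Ω i)) (x : Bool) (j : Fin k) :
    (Measure.pi ρ).real (box A x j) = mass ρ A x j := by
  unfold box mass
  rw [measureReal_def, Measure.pi_pi, ENNReal.toReal_prod]
  rfl

/-- Knowledge sets after player `i` has written the bit `b`. -/
def after (A : ∀ i, Option Bool → Set (Ω i)) (i : Fin k) (msg : Option Bool → Ω i → Bool)
    (b : Bool) : ∀ i, Option Bool → Set (Ω i) :=
  Function.update A i (fun v => A i v ∩ (msg v) ⁻¹' {b})

theorem mass_eq (ρ : ∀ i, Measure (Ω i)) (A : ∀ i, Option Bool → Set (Ω i)) (i : Fin k) (x : Bool)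
    (j : Fin k) : mass ρ A x j =
      (ρ i).real (A i (know x j i)) * ∏ l ∈ univ.erase i, (ρ l).real (A l (know x j l)) := by
  unfold mass
  rw [Finset.mul_prod_erase univ (fun l => (ρ l).real (A l (know x j l))) (mem_univ i)]

theorem mass_after (ρ : ∀ i, Measure (Ω i)) (A : ∀ i, Option Bool → Set (Ω i)) (i : Fin k)
    (msg : Option Bool → Ω i → Bool) (b : Bool) (x : Bool) (j : Fin k) :
    mass ρ (after A i msg b) x j =
      (ρ i).real (A i (know x j i) ∩ (msg (know x j i)) ⁻¹' {b}) *
        ∏ l ∈ univ.erase i, (ρ l).real (A l (know x j l)) := by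
  rw [mass_eq ρ _ i]
  congr 1
  · simp [after]
  · apply Finset.prod_congr rfl
    intro l hl
    have : l ≠ i := Finset.ne_of_mem_erase hl
    simp [after, Function.update_of_ne this]

theorem know_self (x : Bool) (i : Fin k) : know x i i = some x := by simp [know]

theorem know_ne (x : Bool) {i j : Fin k} (h : j ≠ i) : know x j i = none := by
  simp [know, Ne.symm h]

theorem winSet_inter_subset (A : ∀ i, Option Bool → Set (Ω i)) (i : Fin k)
    (msg : Option Bool → Ω i → Bool) (hmsg : ∀ v, Measurable (msg v)) (next : Bool → Protocol Ω)
    (g : Bool → List Bool → Fin k) (g0 : Fin k) (x : Bool) (j : Fin k) :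
    box A x j ∩ winSet (.write i msg hmsg next)
        (fun l => match l with | [] => g0 | b :: t => g b t) x j ⊆
      (box (after A i msg true) x j ∩ winSet (next true) (g true) x j) ∪
      (box (after A i msg false) x j ∩ winSet (next false) (g false) x j) := by
  rintro ω ⟨hb, hw⟩
  simp only [winSet, Protocol.result, Protocol.transcript, Set.mem_ofPred_eq] at hw
  have key : ∀ b, msg (know x j i) (ω i) = b → ω ∈ box (after A i msg b) x j := by
    intro b h l _
    by_cases hl : l = i
    · subst hl
      simp only [after, Function.update_self]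
      exact ⟨hb l (Set.mem_univ _), h⟩
    · simp only [after, Function.update_of_ne hl]
      exact hb l (Set.mem_univ _)
  cases hm : msg (know x j i) (ω i) with
  | true =>
    left
    rw [hm] at hw
    exact ⟨key true hm, hw⟩
  | false =>
    right
    rw [hm] at hw
    exact ⟨key false hm, hw⟩

theorem IsCert.nonneg {Φ : (Bool → Fin k → ℝ) → ℝ} (h : IsCert Φ) (m : Bool → Fin k → ℝ)
    (hm : ∀ x j, 0 ≤ m x j) : 0 ≤ Φ m := by
  obtain ⟨j, hj⟩ := h.dom m hm true
  have := Finset.single_le_sum (f := fun i => m true i) (fun i _ => hm true i) (mem_univ j)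
  linarith

theorem exists_guess {Φ : (Bool → Fin k → ℝ) → ℝ} (hΦ : IsCert Φ) (ρ : ∀ i, Measure (Ω i))
    [∀ i, IsProbabilityMeasure (ρ i)] (P : Protocol Ω) :
    ∀ (A : ∀ i, Option Bool → Set (Ω i)) (t : ℝ), 0 < t → ∃ g : List Bool → Fin k,
      ∑ x : Bool, ∑ j : Fin k, (Measure.pi ρ).real (box A x j ∩ winSet P g x j) ≤
        t * Φ (fun x j => mass ρ A x j / t) := by
  induction P with
  | output b =>
    intro A t ht
    obtain ⟨j0, hj0⟩ := hΦ.dom (fun x j => mass ρ A x j / t)
      (fun x j => div_nonneg (mass_nonneg ρ A x j) ht.le) b
    refine ⟨fun _ => j0, ?_⟩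
    have h1 : ∀ x j, (Measure.pi ρ).real (box A x j ∩ winSet (.output b) (fun _ => j0) x j) ≤
        if x = b then (if j = j0 then 0 else mass ρ A x j) else 0 := by
      intro x j
      by_cases hx : x = b
      · subst hx
        by_cases hj : j = j0
        · subst hj
          simp [winSet]
        · simp only [if_true, if_neg hj]
          rw [← real_box]
          exact measureReal_mono Set.inter_subset_left
      · have : winSet (Ω := Ω) (.output b) (fun _ => j0) x j = ∅ := by
          ext ω
          simp only [winSet, Protocol.result, Set.mem_ofPred_eq, Set.mem_empty_iff_false, iff_false]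
          rintro ⟨h, _⟩
          exact hx h.symm
        simp [this, hx]
    calc ∑ x : Bool, ∑ j : Fin k, (Measure.pi ρ).real
            (box A x j ∩ winSet (.output b) (fun _ => j0) x j)
        ≤ ∑ x : Bool, ∑ j : Fin k,
            (if x = b then (if j = j0 then 0 else mass ρ A x j) else 0) :=
          Finset.sum_le_sum fun x _ => Finset.sum_le_sum fun j _ => h1 x j
      _ = ∑ j : Fin k, (if j = j0 then 0 else mass ρ A b j) := by
          rw [Finset.sum_eq_single b]
          · simp
          · intro x _ hx
            simp [hx]
          · simp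
      _ = ∑ j : Fin k, mass ρ A b j - mass ρ A b j0 := by
          have : ∀ j : Fin k, (if j = j0 then 0 else mass ρ A b j) =
              mass ρ A b j - (if j = j0 then mass ρ A b j0 else 0) := by
            intro j
            by_cases hj : j = j0
            · subst hj; simp
            · simp [hj]
          rw [Finset.sum_congr rfl fun j _ => this j, Finset.sum_sub_distrib]
          simp
      _ = t * (∑ i, mass ρ A b i / t - mass ρ A b j0 / t) := by
          rw [← Finset.sum_div]
          field_simp
      _ ≤ t * Φ (fun x j => mass ρ A x j / t) := mul_le_mul_of_nonneg_left hj0 ht.le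
  | write i msg hmsg next ih =>
    intro A t ht
    set q : Option Bool → ℝ := fun v => (ρ i).real (A i v) with hq
    set qb : Bool → Option Bool → ℝ := fun b v => (ρ i).real (A i v ∩ (msg v) ⁻¹' {b}) with hqb
    set R : Bool → Fin k → ℝ :=
      fun x j => ∏ l ∈ univ.erase i, (ρ l).real (A l (know x j l)) with hR
    have hRnn : ∀ x j, 0 ≤ R x j := fun x j => Finset.prod_nonneg fun _ _ => measureReal_nonneg
    have hadd : ∀ v, qb true v + qb false v = q v := by
      intro v
      have hms : MeasurableSet ((msg v) ⁻¹' {true}) := (hmsg v) (measurableSet_singleton _)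
      have h1 := measureReal_inter_add_sdiff (μ := ρ i) (s := A i v) hms
      have h2 : A i v \ (msg v) ⁻¹' {true} = A i v ∩ (msg v) ⁻¹' {false} := by
        ext ω
        simp
      rw [h2] at h1
      exact h1
    have hqbnn : ∀ b v, 0 ≤ qb b v := fun b v => measureReal_nonneg
    have hm : ∀ x j, mass ρ A x j = q (know x j i) * R x j := fun x j => mass_eq ρ A i x j
    have hmb : ∀ b x j, mass ρ (after A i msg b) x j = qb b (know x j i) * R x j :=
      fun b x j => mass_after ρ A i msg b x j
    -- zero lemma
    have hzero : ∀ (Q : Protocol Ω) (B : ∀ i, Option Bool → Set (Ω i)),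
        (∀ x j, j ≠ i → mass ρ B x j = 0) →
        ∑ x : Bool, ∑ j : Fin k, (Measure.pi ρ).real (box B x j ∩ winSet Q (fun _ => i) x j)
          ≤ 0 := by
      intro Q B hB
      apply Finset.sum_nonpos
      intro x _
      apply Finset.sum_nonpos
      intro j _
      by_cases hj : j = i
      · subst hj
        have : winSet Q (fun _ => j) x j = ∅ := by
          ext ω
          simp [winSet]
        simp [this]
      · calc (Measure.pi ρ).real (box B x j ∩ winSet Q (fun _ => i) x j)
            ≤ (Measure.pi ρ).real (box B x j) := measureReal_mono Set.inter_subset_left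
          _ = 0 := by rw [real_box, hB x j hj]
    have hst : ∀ x j, 0 ≤ mass ρ A x j / t := fun x j => div_nonneg (mass_nonneg ρ A x j) ht.le
    by_cases hN : q none = 0
    · refine ⟨fun _ => i, ?_⟩
      refine (hzero _ A ?_).trans (mul_nonneg ht.le (hΦ.nonneg _ hst))
      intro x j hj
      rw [hm, know_ne x hj, hN, zero_mul]
    · have hNpos : 0 < q none := lt_of_le_of_ne measureReal_nonneg (Ne.symm hN)
      obtain ⟨α, β, hα, hβ, haff⟩ := hΦ.aff (fun x j => mass ρ A x j / t) hst i
      -- bound for each branch
      have hbr : ∀ b, ∃ g : List Bool → Fin k,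
          ∑ x : Bool, ∑ j : Fin k,
            (Measure.pi ρ).real (box (after A i msg b) x j ∩ winSet (next b) g x j) ≤
          t * (qb b none / q none) * α + ∑ x, β x * (qb b (some x) * R x i) := by
        intro b
        by_cases hNb : qb b none = 0
        · refine ⟨fun _ => i, ?_⟩
          refine (hzero (next b) (after A i msg b) ?_).trans ?_
          · intro x j hj
            rw [hmb, know_ne x hj, hNb, zero_mul]
          · rw [hNb]
            have : 0 ≤ ∑ x, β x * (qb b (some x) * R x i) :=
              Finset.sum_nonneg fun x _ => mul_nonneg (hβ x) (mul_nonneg (hqbnn _ _) (hRnn _ _))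
            simpa using this
        · have hNbpos : 0 < qb b none := lt_of_le_of_ne (hqbnn _ _) (Ne.symm hNb)
          have hc : 0 < qb b none / q none := div_pos hNbpos hNpos
          obtain ⟨g, hg⟩ := ih b (after A i msg b) (t * (qb b none / q none)) (mul_pos ht hc)
          refine ⟨g, hg.trans (le_of_eq ?_)⟩
          have hstate : (fun x j => mass ρ (after A i msg b) x j / (t * (qb b none / q none))) =
              fun x j => if j = i then qb b (some x) * R x i / (t * (qb b none / q none))
                else mass ρ A x j / t := by
            funext x j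
            by_cases hj : j = i
            · subst hj
              rw [if_pos rfl, hmb, know_self]
            · rw [if_neg hj, hmb, hm, know_ne x hj]
              field_simp
          rw [hstate, haff, mul_add, Finset.mul_sum]
          congr 1
          apply Finset.sum_congr rfl
          intro x _
          field_simp
      choose g hg using hbr
      refine ⟨fun l => match l with | [] => i | b :: t => g b t, ?_⟩
      have hsplit : ∀ x j, (Measure.pi ρ).real (box A x j ∩ winSet (.write i msg hmsg next)
            (fun l => match l with | [] => i | b :: t => g b t) x j) ≤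
          (Measure.pi ρ).real (box (after A i msg true) x j ∩ winSet (next true) (g true) x j) +
          (Measure.pi ρ).real
            (box (after A i msg false) x j ∩ winSet (next false) (g false) x j) := by
        intro x j
        exact (measureReal_mono (winSet_inter_subset A i msg hmsg next g i x j)).trans
          (measureReal_union_le _ _)
      have htot : t * Φ (fun x j => mass ρ A x j / t) =
          t * α + ∑ x, β x * (q (some x) * R x i) := by
        have hstate : (fun x j => mass ρ A x j / t) =
            fun x j => if j = i then mass ρ A x i / t else mass ρ A x j / t := by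
          funext x j
          by_cases hj : j = i
          · subst hj; simp
          · simp [hj]
        rw [hstate, haff, mul_add, Finset.mul_sum]
        congr 1
        apply Finset.sum_congr rfl
        intro x _
        rw [hm, know_self]
        field_simp
      calc ∑ x : Bool, ∑ j : Fin k, (Measure.pi ρ).real (box A x j ∩ winSet
              (.write i msg hmsg next) (fun l => match l with | [] => i | b :: t => g b t) x j)
          ≤ ∑ x : Bool, ∑ j : Fin k,
            ((Measure.pi ρ).real (box (after A i msg true) x j ∩ winSet (next true) (g true) x j)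
            + (Measure.pi ρ).real
              (box (after A i msg false) x j ∩ winSet (next false) (g false) x j)) :=
            Finset.sum_le_sum fun x _ => Finset.sum_le_sum fun j _ => hsplit x j
        _ = ∑ x : Bool, ∑ j : Fin k,
              (Measure.pi ρ).real
                (box (after A i msg true) x j ∩ winSet (next true) (g true) x j) +
            ∑ x : Bool, ∑ j : Fin k,
              (Measure.pi ρ).real
                (box (after A i msg false) x j ∩ winSet (next false) (g false) x j) := by
            rw [← Finset.sum_add_distrib]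
            apply Finset.sum_congr rfl
            intro x _
            rw [← Finset.sum_add_distrib]
        _ ≤ (t * (qb true none / q none) * α + ∑ x, β x * (qb true (some x) * R x i)) +
            (t * (qb false none / q none) * α + ∑ x, β x * (qb false (some x) * R x i)) :=
            add_le_add (hg true) (hg false)
        _ = t * ((qb true none + qb false none) / q none) * α +
            ∑ x, β x * ((qb true (some x) + qb false (some x)) * R x i) := by
            have : ∑ x, β x * ((qb true (some x) + qb false (some x)) * R x i) =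
                ∑ x, β x * (qb true (some x) * R x i) +
                ∑ x, β x * (qb false (some x) * R x i) := by
              rw [← Finset.sum_add_distrib]
              apply Finset.sum_congr rfl
              intro x _
              ring
            rw [this]
            ring
        _ = t * α + ∑ x, β x * (q (some x) * R x i) := by
            simp only [hadd]
            rw [div_self hN, mul_one]
        _ = t * Φ (fun x j => mass ρ A x j / t) := htot.symm

theorem winProb_nonneg (P : Protocol Ω) (ρ : ∀ i, Measure (Ω i)) (g : List Bool → Fin k) :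
    0 ≤ P.winProb ρ g :=
  Finset.sum_nonneg fun _ _ => Finset.sum_nonneg fun _ _ =>
    mul_nonneg (by positivity) measureReal_nonneg

theorem bddBelow_winProb (P : Protocol Ω) (ρ : ∀ i, Measure (Ω i)) :
    BddBelow (Set.range fun g : List Bool → Fin k => P.winProb ρ g) :=
  ⟨0, by rintro _ ⟨g, rfl⟩; exact winProb_nonneg P ρ g⟩

theorem value_le {Φ : (Bool → Fin k → ℝ) → ℝ} (hΦ : IsCert Φ) (hk : 0 < k)
    (ρ : ∀ i, Measure (Ω i)) [∀ i, IsProbabilityMeasure (ρ i)] (P : Protocol Ω) :
    P.value ρ ≤ Φ (fun _ _ => 1 / (2 * (k : ℝ))) := by
  have hk' : (0 : ℝ) < 2 * k := by positivity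
  obtain ⟨g, hg⟩ := exists_guess hΦ ρ P (fun _ _ => Set.univ) (2 * k) hk'
  refine (ciInf_le (bddBelow_winProb P ρ) g).trans ?_
  have hmass : ∀ x j, mass ρ (fun _ _ => Set.univ) x j = 1 := by
    intro x j
    simp [mass]
  have hbox : ∀ x j, box (Ω := Ω) (fun _ _ => Set.univ) x j = Set.univ := by
    intro x j
    simp [box]
  simp only [hmass, hbox, Set.univ_inter] at hg
  unfold Protocol.winProb
  calc ∑ x : Bool, ∑ j : Fin k, 1 / (2 * (k : ℝ)) *
        (Measure.pi ρ).real {ω | P.result x j ω = x ∧ g (P.transcript x j ω) ≠ j}
      = 1 / (2 * (k : ℝ)) * ∑ x : Bool, ∑ j : Fin k, (Measure.pi ρ).real (winSet P g x j) := by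
        rw [Finset.mul_sum]
        apply Finset.sum_congr rfl
        intro x _
        rw [Finset.mul_sum]
        rfl
    _ ≤ 1 / (2 * (k : ℝ)) * (2 * k * Φ (fun _ _ => 1 / (2 * (k : ℝ)))) :=
        mul_le_mul_of_nonneg_left hg (by positivity)
    _ = Φ (fun _ _ => 1 / (2 * (k : ℝ))) := by field_simp

end

theorem le_of_mem_values {k : ℕ} {Φ : (Bool → Fin k → ℝ) → ℝ} (hΦ : IsCert Φ) (hk : 0 < k)
    {v : ℝ} (hv : v ∈ values k) : v ≤ Φ (fun _ _ => 1 / (2 * (k : ℝ))) := by
  obtain ⟨Ω, _, ρ, _, P, rfl⟩ := hv
  exact value_le hΦ hk ρ P

theorem values_nonempty (k : ℕ) : (values k).Nonempty :=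
  ⟨_, fun _ => Unit, fun _ => inferInstance, fun _ => Measure.dirac (), fun _ => inferInstance,
    .output true, rfl⟩

theorem s_le {k : ℕ} {Φ : (Bool → Fin k → ℝ) → ℝ} (hΦ : IsCert Φ) (hk : 0 < k) :
    s k ≤ Φ (fun _ _ => 1 / (2 * (k : ℝ))) :=
  csSup_le (values_nonempty k) fun _ hv => le_of_mem_values hΦ hk hv

end Pool.Agent.Y171.CG
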